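import Mathlib

/-!
# Combinatorics of the cube functionals
-/

namespace Pool.Agent.Q71.NC

open Finset

variable {m : ℕ}

section lam

variable {R : Type*}

/-- The functional `b ↦ b₀ + ∑_{j ∈ ε} b_{j+1}` attached to a vertex `ε` of the cube. -/
def lam [AddCommMonoid R] (ε : Finset (Fin m)) (b : Fin (m + 1) → R) : R :=
  b 0 + ∑ j ∈ ε, b j.succ

lemma lam_zero [AddCommMonoid R] (ε : Finset (Fin m)) : lam ε (0 : Fin (m + 1) → R) = 0 := by
  simp [lam]

lemma lam_add [AddCommMonoid R] (ε : Finset (Fin m)) (b c : Fin (m + 1) → R) :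
    lam ε (b + c) = lam ε b + lam ε c := by
  simp only [lam, Pi.add_apply, sum_add_distrib]
  abel

lemma lam_neg [AddCommGroup R] (ε : Finset (Fin m)) (b : Fin (m + 1) → R) :
    lam ε (-b) = -lam ε b := by
  simp only [lam, Pi.neg_apply, sum_neg_distrib]
  abel

lemma lam_sub [AddCommGroup R] (ε : Finset (Fin m)) (b c : Fin (m + 1) → R) :
    lam ε (b - c) = lam ε b - lam ε c := by
  rw [sub_eq_add_neg, lam_add, lam_neg, sub_eq_add_neg]

lemma lam_smul {S : Type*} [Monoid S] [AddCommMonoid R] [DistribMulAction S R]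
    (ε : Finset (Fin m)) (s : S) (b : Fin (m + 1) → R) : lam ε (s • b) = s • lam ε b := by
  simp only [lam, Pi.smul_apply, smul_add, Finset.smul_sum]

/-- The first basis vector. -/
def e0 (R : Type*) [Zero R] [One R] {m : ℕ} : Fin (m + 1) → R := Pi.single 0 1

/-- The other basis vectors. -/
def ej (R : Type*) [Zero R] [One R] (j : Fin m) : Fin (m + 1) → R := Pi.single j.succ 1

lemma lam_e0 [AddCommMonoidWithOne R] (ε : Finset (Fin m)) : lam ε (e0 R) = 1 := by
  simp only [lam, e0, Pi.single_eq_same]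
  rw [Finset.sum_eq_zero]
  · simp
  · intro j _
    rw [Pi.single_eq_of_ne]
    exact Fin.succ_ne_zero j

lemma lam_ej [AddCommMonoidWithOne R] (ε : Finset (Fin m)) (j : Fin m) :
    lam ε (ej R j) = if j ∈ ε then 1 else 0 := by
  simp only [lam, ej]
  rw [Pi.single_eq_of_ne (Fin.succ_ne_zero j).symm, zero_add]
  simp [Pi.single_apply, Fin.succ_inj]

end lam

section diff

/-- Forward difference. -/
def dl (f : ℤ → ℤ) : ℤ → ℤ := fun k => f (k + 1) - f k

/-- `Deg d f` : the `d`-th difference of `f` vanishes. -/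
def Deg (d : ℕ) (f : ℤ → ℤ) : Prop := dl^[d] f = 0

lemma Deg_zero {f : ℤ → ℤ} : Deg 0 f ↔ f = 0 := Iff.rfl

lemma Deg_succ {d : ℕ} {f : ℤ → ℤ} : Deg (d + 1) f ↔ Deg d (dl f) := Iff.rfl

lemma const_of_dl {f : ℤ → ℤ} (h : dl f = 0) (k : ℤ) : f k = f 0 := by
  have h' : ∀ k, f (k + 1) = f k := fun k => by
    have := congrFun h k
    simp only [dl, Pi.zero_apply] at this
    linarith
  induction k using Int.induction_on with
  | zero => rfl
  | succ i ih => rw [h', ih]
  | pred i ih => rw [← ih, ← h' (-(i : ℤ) - 1)]; congr 1; ring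

lemma dl_iter_shift_sub (d : ℕ) (a : ℤ) (f : ℤ → ℤ) :
    dl^[d] (fun k => f (k + a) - f k) = fun k => (dl^[d] f) (k + a) - (dl^[d] f) k := by
  induction d generalizing f with
  | zero => rfl
  | succ d ih =>
    rw [Function.iterate_succ_apply, Function.iterate_succ_apply]
    have : dl (fun k => f (k + a) - f k) = fun k => (dl f) (k + a) - (dl f) k := by
      funext k
      simp only [dl]
      have : k + 1 + a = k + a + 1 := by ring
      rw [this]
      ring
    rw [this, ih]

lemma Deg_diff {d : ℕ} {f : ℤ → ℤ} (h : Deg (d + 1) f) (a : ℤ) :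
    Deg d (fun k => f (k + a) - f k) := by
  unfold Deg at *
  rw [dl_iter_shift_sub]
  rw [Function.iterate_succ_apply'] at h
  funext k
  rw [const_of_dl h (k + a), const_of_dl h k]
  simp

/-- The antidifference. -/
def anti (f : ℤ → ℤ) : ℤ → ℤ
  | Int.ofNat n => ∑ i ∈ range n, f ((i : ℤ) + 1)
  | Int.negSucc n => -∑ i ∈ range (n + 1), f (-(i : ℤ))

lemma anti_zero (f : ℤ → ℤ) : anti f 0 = 0 := by
  change anti f (Int.ofNat 0) = 0
  simp [anti]

lemma anti_succ (f : ℤ → ℤ) (k : ℤ) : anti f (k + 1) = anti f k + f (k + 1) := by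
  obtain n | n := k
  · change anti f (Int.ofNat (n + 1)) = anti f (Int.ofNat n) + f ((n : ℤ) + 1)
    simp only [anti, sum_range_succ]
  · obtain _ | n := n
    · change anti f (Int.ofNat 0) = anti f (Int.negSucc 0) + f 0
      simp [anti]
    · have h1 : Int.negSucc (n + 1) + 1 = Int.negSucc n := by omega
      rw [h1]
      change -∑ i ∈ range (n + 1), f (-(i : ℤ)) = -∑ i ∈ range (n + 1 + 1), f (-(i : ℤ))
        + f (Int.negSucc n)
      rw [sum_range_succ _ (n + 1)]
      have h2 : Int.negSucc n = -((n + 1 : ℕ) : ℤ) := by omega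
      rw [h2]
      ring

lemma anti_shift (f : ℤ → ℤ) (a l : ℤ) :
    anti (fun k => f (k + a)) l = anti f (l + a) - anti f a := by
  induction l using Int.induction_on with
  | zero => simp [anti_zero]
  | succ i ih =>
    rw [anti_succ, ih]
    have : (i : ℤ) + 1 + a = (i : ℤ) + a + 1 := by ring
    rw [this, anti_succ]
    ring
  | pred i ih =>
    have h1 := anti_succ (fun k => f (k + a)) (-(i : ℤ) - 1)
    have h2 := anti_succ f (-(i : ℤ) - 1 + a)
    have e1 : -(i : ℤ) - 1 + 1 = -(i : ℤ) := by ring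
    have e2 : -(i : ℤ) - 1 + a + 1 = -(i : ℤ) + a := by ring
    rw [e1] at h1
    rw [e2] at h2
    linarith

/-- An antidifference for `dl`. -/
lemma dl_anti (f : ℤ → ℤ) : dl (fun k => anti f (k - 1)) = f := by
  funext k
  simp only [dl]
  have := anti_succ f (k - 1)
  have e : k - 1 + 1 = k + 1 - 1 := by ring
  rw [e] at this
  rw [this]
  ring_nf

lemma cube_sum (S : Finset (Fin m)) : ∀ (f : ℤ → ℤ) (c : ℤ) (v : Fin m → ℤ), Deg S.card f →
    ∑ ε ∈ S.powerset, (-1) ^ ε.card * f (c + ∑ j ∈ ε, v j) = 0 := by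
  induction S using Finset.induction_on with
  | empty =>
    intro f c v h
    have : f = 0 := h
    simp [this]
  | insert j S hj ih =>
    intro f c v h
    rw [card_insert_of_notMem hj] at h
    rw [sum_powerset_insert hj]
    have h1 := ih (fun k => f (k + v j) - f k) c v (Deg_diff h (v j))
    have h2 : ∑ t ∈ S.powerset, (-1) ^ (insert j t).card * f (c + ∑ j ∈ insert j t, v j)
        = - ∑ t ∈ S.powerset, (-1) ^ t.card * f (c + ∑ j ∈ t, v j + v j) := by
      rw [← sum_neg_distrib]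
      apply sum_congr rfl
      intro t ht
      have hjt : j ∉ t := fun h => hj (mem_powerset.mp ht h)
      rw [card_insert_of_notMem hjt, sum_insert hjt, pow_succ]
      have : c + (v j + ∑ x ∈ t, v x) = c + ∑ x ∈ t, v x + v j := by ring
      rw [this]
      ring
    rw [h2]
    simp only [mul_sub, sum_sub_distrib] at h1
    linarith

end diff

section Adm

variable (m) in
/-- Admissible families of test functions. -/
def Adm : AddSubgroup (Finset (Fin m) → ℤ → ℤ) where
  carrier := {φ | ∀ v : Fin (m + 1) → ℤ, ∑ ε, φ ε (lam ε v) = 0}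
  add_mem' := by
    intro a b ha hb v
    simp only [Pi.add_apply, sum_add_distrib, ha v, hb v, add_zero]
  zero_mem' := by intro v; simp
  neg_mem' := by
    intro a ha v
    simp only [Pi.neg_apply, sum_neg_distrib, ha v, neg_zero]

lemma mem_Adm {φ : Finset (Fin m) → ℤ → ℤ} :
    φ ∈ Adm m ↔ ∀ v : Fin (m + 1) → ℤ, ∑ ε, φ ε (lam ε v) = 0 := Iff.rfl

/-- Translation of test families. -/
def shiftA (v : Fin (m + 1) → ℤ) (φ : Finset (Fin m) → ℤ → ℤ) : Finset (Fin m) → ℤ → ℤ :=
  fun ε k => φ ε (k + lam ε v)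

lemma shiftA_mem {φ : Finset (Fin m) → ℤ → ℤ} (h : φ ∈ Adm m) (v : Fin (m + 1) → ℤ) :
    shiftA v φ ∈ Adm m := by
  intro w
  simp only [shiftA, ← lam_add]
  exact h _

lemma shiftA_zero (φ : Finset (Fin m) → ℤ → ℤ) : shiftA 0 φ = φ := by
  funext ε k
  simp [shiftA, lam_zero]

lemma shiftA_shiftA (v w : Fin (m + 1) → ℤ) (φ : Finset (Fin m) → ℤ → ℤ) :
    shiftA v (shiftA w φ) = shiftA (v + w) φ := by
  funext ε k
  simp only [shiftA, lam_add]
  congr 1
  ring

lemma shiftA_add (v : Fin (m + 1) → ℤ) (φ ψ : Finset (Fin m) → ℤ → ℤ) :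
    shiftA v (φ + ψ) = shiftA v φ + shiftA v ψ := rfl

/-- Difference operator on test families. -/
def diffA (v : Fin (m + 1) → ℤ) (φ : Finset (Fin m) → ℤ → ℤ) : Finset (Fin m) → ℤ → ℤ :=
  shiftA v φ - φ

lemma diffA_mem {φ : Finset (Fin m) → ℤ → ℤ} (h : φ ∈ Adm m) (v : Fin (m + 1) → ℤ) :
    diffA v φ ∈ Adm m := (Adm m).sub_mem (shiftA_mem h v) h

/-- The test family supported on the subsets of `S`. -/
def phiS (S : Finset (Fin m)) (f : ℤ → ℤ) : Finset (Fin m) → ℤ → ℤ :=
  fun ε k => if ε ⊆ S then (-1) ^ ε.card * f k else 0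

lemma filter_subset_univ (S : Finset (Fin m)) :
    (univ.filter (fun ε : Finset (Fin m) => ε ⊆ S)) = S.powerset := by
  ext ε; simp

lemma phiS_mem (S : Finset (Fin m)) (f : ℤ → ℤ) (h : Deg S.card f) : phiS S f ∈ Adm m := by
  intro v
  simp only [phiS]
  rw [← Finset.sum_filter, filter_subset_univ]
  exact cube_sum S f (v 0) (fun j => v j.succ) h

/-- The vector used to isolate `ε₀`. -/
def zz (ε₀ : Finset (Fin m)) (j : Fin m) : Fin (m + 1) → ℤ :=
  if j ∈ ε₀ then ej ℤ j else e0 ℤ - ej ℤ j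

lemma lam_zz_self (ε₀ : Finset (Fin m)) (j : Fin m) : lam ε₀ (zz ε₀ j) = 1 := by
  unfold zz
  split_ifs with h
  · simp [lam_ej, h]
  · simp [lam_sub, lam_ej, lam_e0, h]

lemma exists_lam_zz_eq_zero {ε ε₀ : Finset (Fin m)} (h : ε ≠ ε₀) :
    ∃ j, lam ε (zz ε₀ j) = 0 := by
  have : ∃ j, ¬ (j ∈ ε ↔ j ∈ ε₀) := by
    by_contra hcon
    push Not at hcon
    exact h (Finset.ext hcon)
  obtain ⟨j, hj⟩ := this
  refine ⟨j, ?_⟩
  unfold zz
  split_ifs with h0
  · have : j ∉ ε := fun h1 => hj ⟨fun _ => h0, fun _ => h1⟩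
    simp [lam_ej, this]
  · have : j ∈ ε := by
      by_contra h1
      exact hj ⟨fun h => absurd h h1, fun h => absurd h h0⟩
    simp [lam_sub, lam_ej, lam_e0, this]

lemma exists_lam_one_zero {i j : Finset (Fin m)} (h : i ≠ j) :
    ∃ z : Fin (m + 1) → ℤ, lam i z = 1 ∧ lam j z = 0 := by
  obtain ⟨p, hp⟩ := exists_lam_zz_eq_zero (Ne.symm h)
  exact ⟨zz i p, lam_zz_self i p, hp⟩

/-- iterated difference operators. -/
def DL (ε₀ : Finset (Fin m)) (L : List (Fin m)) (φ : Finset (Fin m) → ℤ → ℤ) :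
    Finset (Fin m) → ℤ → ℤ :=
  L.foldr (fun j ψ => diffA (zz ε₀ j) ψ) φ

lemma DL_mem (ε₀ : Finset (Fin m)) (L : List (Fin m)) {φ : Finset (Fin m) → ℤ → ℤ}
    (h : φ ∈ Adm m) : DL ε₀ L φ ∈ Adm m := by
  induction L with
  | nil => exact h
  | cons j L ih => exact diffA_mem ih _

lemma DL_self (ε₀ : Finset (Fin m)) (L : List (Fin m)) (φ : Finset (Fin m) → ℤ → ℤ) :
    DL ε₀ L φ ε₀ = dl^[L.length] (φ ε₀) := by
  induction L with
  | nil => rfl
  | cons j L ih =>
    rw [List.length_cons, Function.iterate_succ_apply', ← ih]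
    funext k
    change DL ε₀ L φ ε₀ (k + lam ε₀ (zz ε₀ j)) - DL ε₀ L φ ε₀ k = _
    rw [lam_zz_self]
    rfl

lemma DL_eq_zero (ε₀ ε : Finset (Fin m)) (L : List (Fin m)) (φ : Finset (Fin m) → ℤ → ℤ)
    (j : Fin m) (hj : j ∈ L) (h : lam ε (zz ε₀ j) = 0) : DL ε₀ L φ ε = 0 := by
  induction L with
  | nil => simp at hj
  | cons i L ih =>
    funext k
    change DL ε₀ L φ ε (k + lam ε (zz ε₀ i)) - DL ε₀ L φ ε k = 0
    rcases List.mem_cons.mp hj with rfl | hj'
    · rw [h]; simp
    · rw [ih hj']; simp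

/-- Admissible families have components of degree `< m`. -/
lemma Deg_of_mem_Adm {φ : Finset (Fin m) → ℤ → ℤ} (h : φ ∈ Adm m) (ε₀ : Finset (Fin m)) :
    Deg m (φ ε₀) := by
  have h1 := DL_mem ε₀ (List.finRange m) h
  have h2 := DL_self ε₀ (List.finRange m) φ
  rw [List.length_finRange] at h2
  unfold Deg
  rw [← h2]
  funext k
  have h3 := h1 (k • e0 ℤ)
  rw [Finset.sum_eq_single ε₀] at h3
  · rw [lam_smul, lam_e0] at h3
    simpa using h3
  · intro ε _ hε
    obtain ⟨j, hj⟩ := exists_lam_zz_eq_zero hε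
    rw [DL_eq_zero ε₀ ε _ φ j (List.mem_finRange j) hj]
    rfl
  · simp

end Adm

section detect

open LaurentPolynomial

/-- Evaluation of Laurent polynomials: the additive map with `T k ↦ g k`. -/
noncomputable def ev {A : Type*} [AddCommGroup A] (g : ℤ → A) : ℤ[T;T⁻¹] →+ A where
  toFun p := p.coeff.sum (fun k a => a • g k)
  map_zero' := by
    change (0 : ℤ →₀ ℤ).sum _ = 0
    simp
  map_add' p q := by
    change (p.coeff + q.coeff).sum _ = _
    rw [Finsupp.sum_add_index']
    · simp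
    · intro a b c; rw [add_smul]

lemma ev_C_mul_T {A : Type*} [AddCommGroup A] (g : ℤ → A) (a k : ℤ) :
    ev g (C a * T k) = a • g k := by
  rw [← single_eq_C_mul_T]
  change (Finsupp.single k a).sum (fun k a => a • g k) = _
  rw [Finsupp.sum_single_index]
  simp

lemma ev_T {A : Type*} [AddCommGroup A] (g : ℤ → A) (k : ℤ) : ev g (T k) = g k := by
  have := ev_C_mul_T g 1 k
  simpa using this

lemma ev_mul_T {A : Type*} [AddCommGroup A] (g : ℤ → A) (q : ℤ[T;T⁻¹]) (a : ℤ) :
    ev g (T a * q) = ev (fun k => g (k + a)) q := by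
  induction q using LaurentPolynomial.induction_on' with
  | add p q hp hq => rw [mul_add, map_add, map_add, hp, hq]
  | C_mul_T n b =>
    rw [ev_C_mul_T]
    have : (T a : ℤ[T;T⁻¹]) * (C b * T n) = C b * T (n + a) := by
      rw [T_add]; ring
    rw [this, ev_C_mul_T]

lemma ev_sub {A : Type*} [AddCommGroup A] (g h : ℤ → A) (q : ℤ[T;T⁻¹]) :
    ev (fun k => g k - h k) q = ev g q - ev h q := by
  induction q using LaurentPolynomial.induction_on' with
  | add p q hp hq => rw [map_add, map_add, map_add, hp, hq]; abel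
  | C_mul_T n b => rw [ev_C_mul_T, ev_C_mul_T, ev_C_mul_T, smul_sub]

lemma ev_diff {A : Type*} [AddCommGroup A] (g : ℤ → A) (q : ℤ[T;T⁻¹]) :
    ev g ((T 1 - 1) * q) = ev (fun k => g (k + 1) - g k) q := by
  rw [sub_mul, one_mul, map_sub, ev_mul_T, ev_sub]

lemma T_sub_one_dvd (k : ℤ) : (T 1 - 1 : ℤ[T;T⁻¹]) ∣ T k - 1 := by
  have hnat : ∀ n : ℕ, (T 1 - 1 : ℤ[T;T⁻¹]) ∣ T (n : ℤ) - 1 := by
    intro n
    have := sub_one_dvd_pow_sub_one (T 1 : ℤ[T;T⁻¹]) n
    rw [T_pow] at this
    simpa using this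
  obtain ⟨n, rfl | rfl⟩ := k.eq_nat_or_neg
  · exact hnat n
  · have h1 : (T (-(n : ℤ)) - 1 : ℤ[T;T⁻¹]) = -(T (-(n : ℤ))) * (T (n : ℤ) - 1) := by
      rw [mul_sub, neg_mul, ← T_add]
      simp
      ring
    rw [h1]
    exact Dvd.dvd.mul_left (hnat n) _

lemma dvd_sub_C (p : ℤ[T;T⁻¹]) : (T 1 - 1 : ℤ[T;T⁻¹]) ∣ p - C (ev (fun _ => (1 : ℤ)) p) := by
  induction p using LaurentPolynomial.induction_on' with
  | add p q hp hq =>
    rw [map_add, map_add]
    have : p + q - (C (ev (fun _ => (1 : ℤ)) p) + C (ev (fun _ => (1 : ℤ)) q))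
      = (p - C (ev (fun _ => (1 : ℤ)) p)) + (q - C (ev (fun _ => (1 : ℤ)) q)) := by ring
    rw [this]
    exact dvd_add hp hq
  | C_mul_T n a =>
    rw [ev_C_mul_T]
    have : C a * T n - C (a • (1 : ℤ)) = C a * (T n - 1 : ℤ[T;T⁻¹]) := by
      rw [mul_sub]; simp
    rw [this]
    exact Dvd.dvd.mul_left (T_sub_one_dvd n) _

/-- A Laurent polynomial orthogonal to all functions of degree `< d` is divisible by
`(T - 1) ^ d`. -/
lemma dvd_of_orth (d : ℕ) : ∀ p : ℤ[T;T⁻¹], (∀ f : ℤ → ℤ, Deg d f → ev f p = 0) →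
    ((T 1 - 1) ^ d : ℤ[T;T⁻¹]) ∣ p := by
  induction d with
  | zero => intro p _; simp
  | succ d ih =>
    intro p hp
    have h1 : Deg (d + 1) (fun _ => (1 : ℤ)) := by
      rw [Deg_succ]
      have : dl (fun _ => (1 : ℤ)) = 0 := by funext k; simp [dl]
      rw [this]
      unfold Deg
      have : ∀ d, dl^[d] (0 : ℤ → ℤ) = 0 := by
        intro d
        induction d with
        | zero => rfl
        | succ d ih =>
          rw [Function.iterate_succ_apply]
          have : dl 0 = 0 := by funext k; simp [dl]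
          rw [this, ih]
      exact this d
    obtain ⟨q, hq⟩ := dvd_sub_C p
    rw [hp _ h1] at hq
    simp only [map_zero, sub_zero] at hq
    have h2 : ((T 1 - 1) ^ d : ℤ[T;T⁻¹]) ∣ q := by
      apply ih
      intro f hf
      have h3 : Deg (d + 1) (fun k => anti f (k - 1)) := by
        rw [Deg_succ, dl_anti]; exact hf
      have h4 := hp _ h3
      rw [hq, ev_diff] at h4
      have h5 : (fun k => anti f (k + 1 - 1) - anti f (k - 1)) = f := dl_anti f
      rw [h5] at h4
      exact h4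
    rw [hq, pow_succ']
    exact mul_dvd_mul_left _ h2

/-- The relation attached to a lattice vector. -/
noncomputable def rho (v : Fin (m + 1) → ℤ) : Finset (Fin m) → ℤ[T;T⁻¹] := fun ε => T (lam ε v)

lemma rho_add (v w : Fin (m + 1) → ℤ) : rho (v + w) = rho v * rho w := by
  funext ε
  simp only [rho, lam_add, Pi.mul_apply]
  rw [T_add]

lemma rho_zero : rho (0 : Fin (m + 1) → ℤ) = 1 := by
  funext ε
  simp [rho, lam_zero]

variable (m) in
/-- The subring of relations. -/
noncomputable def Mrel : Subring (Finset (Fin m) → ℤ[T;T⁻¹]) :=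
  Subring.closure (Set.range rho)

lemma Mrel_eq : (Mrel m : Set (Finset (Fin m) → ℤ[T;T⁻¹]))
    = AddSubgroup.closure (Set.range (rho (m := m))) := by
  ext x
  rw [SetLike.mem_coe, Mrel, Subring.mem_closure_iff, SetLike.mem_coe]
  have : ((Submonoid.closure (Set.range (rho (m := m))) : Submonoid _) : Set _)
      = Set.range (rho (m := m)) := by
    apply Set.Subset.antisymm
    · intro y hy
      refine Submonoid.closure_induction (motive := fun y _ => y ∈ Set.range (rho (m := m)))
        (fun _ h => h) ⟨0, rho_zero⟩ ?_ hy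
      rintro _ _ _ _ ⟨v, rfl⟩ ⟨w, rfl⟩
      exact ⟨v + w, rho_add v w⟩
    · exact Submonoid.subset_closure
  rw [this]

lemma rho_mem (v : Fin (m + 1) → ℤ) : rho v ∈ Mrel m := Subring.subset_closure ⟨v, rfl⟩

/-- The indicator of the up-set of `S`, with values `p`. -/
noncomputable def upS (S : Finset (Fin m)) (p : ℤ[T;T⁻¹]) : Finset (Fin m) → ℤ[T;T⁻¹] :=
  fun ε => if S ⊆ ε then p else 0

lemma upS_T_mem (S : Finset (Fin m)) (k : ℤ) :
    upS S ((T 1 - 1) ^ S.card * T k) ∈ Mrel m := by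
  have : upS S ((T 1 - 1) ^ S.card * T k)
      = (∏ j ∈ S, (rho (ej ℤ j) - 1)) * rho (k • e0 ℤ) := by
    funext ε
    simp only [upS, Pi.mul_apply, Finset.prod_apply, Pi.sub_apply, Pi.one_apply, rho, lam_ej,
      lam_smul, lam_e0]
    by_cases h : S ⊆ ε
    · rw [if_pos h]
      have : ∏ x ∈ S, ((T (if x ∈ ε then 1 else 0) : ℤ[T;T⁻¹]) - 1)
          = ∏ x ∈ S, ((T 1 : ℤ[T;T⁻¹]) - 1) := by
        apply Finset.prod_congr rfl
        intro x hx
        rw [if_pos (h hx)]
      rw [this, prod_const]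
      simp
    · rw [if_neg h]
      obtain ⟨j, hj, hj'⟩ := Finset.not_subset.mp h
      rw [Finset.prod_eq_zero hj]
      · simp
      · simp [hj']
  rw [this]
  apply Subring.mul_mem
  · apply Subring.prod_mem
    intro j _
    exact Subring.sub_mem _ (rho_mem _) (Subring.one_mem _)
  · exact rho_mem _

lemma upS_add (S : Finset (Fin m)) (p q : ℤ[T;T⁻¹]) : upS S (p + q) = upS S p + upS S q := by
  funext ε
  simp only [upS, Pi.add_apply]
  split_ifs <;> simp

lemma upS_mem (S : Finset (Fin m)) (p : ℤ[T;T⁻¹]) (h : ((T 1 - 1) ^ S.card : ℤ[T;T⁻¹]) ∣ p) :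
    upS S p ∈ Mrel m := by
  obtain ⟨q, rfl⟩ := h
  induction q using LaurentPolynomial.induction_on' with
  | add p q hp hq => rw [mul_add, upS_add]; exact Subring.add_mem _ hp hq
  | C_mul_T n a =>
    have : upS S ((T 1 - 1) ^ S.card * (C a * T n))
        = a • upS S ((T 1 - 1) ^ S.card * T n) := by
      funext ε
      simp only [upS, Pi.smul_apply]
      split_ifs
      · rw [LaurentPolynomial.smul_eq_C_mul]
        ring
      · simp
    rw [this]
    exact Subring.zsmul_mem _ (upS_T_mem S n) a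

/-- Alternating sum over an interval of the Boolean lattice. -/
lemma sum_interval (ε' ε : Finset (Fin m)) :
    ∑ S : Finset (Fin m), (if ε' ⊆ S ∧ S ⊆ ε then ((-1) ^ S.card * (-1) ^ ε'.card : ℤ) else 0)
      = if ε' = ε then 1 else 0 := by
  by_cases h : ε' ⊆ ε
  · have h1 : (univ.filter (fun S : Finset (Fin m) => ε' ⊆ S ∧ S ⊆ ε))
        = (ε \ ε').powerset.image (ε' ∪ ·) := by
      rw [← Finset.Icc_eq_image_powerset h]
      ext S
      simp
    rw [← Finset.sum_filter, h1, Finset.sum_image]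
    · have h2 : ∀ t ∈ (ε \ ε').powerset,
          ((-1) ^ (ε' ∪ t).card * (-1) ^ ε'.card : ℤ) = (-1) ^ t.card := by
        intro t ht
        have hd : Disjoint ε' t := by
          rw [mem_powerset] at ht
          exact Finset.disjoint_of_subset_right ht Finset.disjoint_sdiff
        rw [Finset.card_union_of_disjoint hd, pow_add]
        have : ((-1 : ℤ) ^ ε'.card) * (-1) ^ ε'.card = 1 := by
          rw [← mul_pow]; simp
        linear_combination (-1) ^ t.card * this
      rw [Finset.sum_congr rfl h2, Finset.sum_powerset_neg_one_pow_card]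
      by_cases he : ε' = ε
      · simp [he]
      · rw [if_neg, if_neg he]
        intro h3
        apply he
        exact Finset.Subset.antisymm h (Finset.sdiff_eq_empty_iff_subset.mp h3)
    · intro a ha b hb hab
      simp only [coe_powerset, Set.mem_preimage, Set.mem_powerset_iff, Finset.coe_subset] at ha hb
      have hd1 : Disjoint ε' a := Finset.disjoint_of_subset_right ha Finset.disjoint_sdiff
      have hd2 : Disjoint ε' b := Finset.disjoint_of_subset_right hb Finset.disjoint_sdiff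
      simp only at hab
      have := congrArg (· \ ε') hab
      simp only [Finset.union_sdiff_left] at this
      rwa [Finset.sdiff_eq_self_of_disjoint hd1.symm,
        Finset.sdiff_eq_self_of_disjoint hd2.symm] at this
  · rw [if_neg (fun he : ε' = ε => h (he ▸ Finset.Subset.refl _)), Finset.sum_eq_zero]
    intro S _
    rw [if_neg]
    rintro ⟨h1, h2⟩
    exact h (h1.trans h2)

/-- The Möbius transform. -/
noncomputable def pS (n : Finset (Fin m) → ℤ[T;T⁻¹]) (S : Finset (Fin m)) : ℤ[T;T⁻¹] :=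
  ∑ ε' : Finset (Fin m), if ε' ⊆ S then ((-1) ^ S.card * (-1) ^ ε'.card : ℤ) • n ε' else 0

lemma eq_sum_upS (n : Finset (Fin m) → ℤ[T;T⁻¹]) : n = ∑ S : Finset (Fin m), upS S (pS n S) := by
  funext ε
  rw [Finset.sum_apply]
  have h1 : ∀ S : Finset (Fin m), upS S (pS n S) ε
      = ∑ ε' : Finset (Fin m), (if ε' ⊆ S ∧ S ⊆ ε then
          ((-1) ^ S.card * (-1) ^ ε'.card : ℤ) else 0) • n ε' := by
    intro S
    simp only [upS, pS]
    by_cases hS : S ⊆ ε
    · rw [if_pos hS]
      apply Finset.sum_congr rfl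
      intro ε' _
      by_cases h : ε' ⊆ S
      · simp [h, hS]
      · simp [h]
    · rw [if_neg hS]
      symm
      apply Finset.sum_eq_zero
      intro ε' _
      simp [hS]
  rw [Finset.sum_congr rfl (fun S _ => h1 S), Finset.sum_comm]
  simp only [← Finset.sum_smul, sum_interval]
  simp

/-- **Detection lemma.** -/
theorem detect (n : Finset (Fin m) → ℤ[T;T⁻¹])
    (h : ∀ φ ∈ Adm m, ∑ ε, ev (φ ε) (n ε) = 0) :
    n ∈ AddSubgroup.closure (Set.range (rho (m := m))) := by
  rw [← SetLike.mem_coe, ← Mrel_eq, SetLike.mem_coe, eq_sum_upS n]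
  apply Subring.sum_mem
  intro S _
  apply upS_mem
  apply dvd_of_orth
  intro f hf
  have h1 := h _ (phiS_mem S f hf)
  have h2 : ev f (pS n S) = (-1) ^ S.card * ∑ ε, ev (phiS S f ε) (n ε) := by
    rw [pS, map_sum, Finset.mul_sum]
    apply Finset.sum_congr rfl
    intro ε' _
    by_cases he : ε' ⊆ S
    · rw [if_pos he, map_zsmul]
      have h3 : phiS S f ε' = fun k => (-1) ^ ε'.card * f k := by
        funext k; simp [phiS, he]
      rw [h3]
      have h4 : ev (fun k => (-1) ^ ε'.card * f k) (n ε') = (-1) ^ ε'.card * ev f (n ε') := by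
        generalize n ε' = q
        induction q using LaurentPolynomial.induction_on' with
        | add p q hp hq => rw [map_add, map_add, hp, hq]; ring
        | C_mul_T n b => rw [ev_C_mul_T, ev_C_mul_T]; simp; ring
      rw [h4]
      simp
      ring
    · rw [if_neg he, map_zero]
      have h3 : phiS S f ε' = fun k => 0 := by
        funext k; simp [phiS, he]
      rw [h3]
      have h4 : ev (fun _ => (0 : ℤ)) (n ε') = 0 := by
        generalize n ε' = q
        induction q using LaurentPolynomial.induction_on' with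
        | add p q hp hq => rw [map_add, hp, hq]; ring
        | C_mul_T n b => rw [ev_C_mul_T]; simp
      rw [h4]
      ring
  rw [h2, h1, mul_zero]

end detect

end Pool.Agent.Q71.NC
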