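import Pool.Agent.Q71.NC.Gallery
import Pool.Agent.Q71.NC.Comb

/-!
# The abstract group theory of wall crossing
-/

namespace Pool.Agent.Q71.NC

open Finset Filter Topology

section galleryInd

variable {V : Type*} [AddCommGroup V] [Module ℝ V] {ι : Type*} [Finite ι]

/-- Induction along galleries. -/
theorem gallery_induction (μ : ι → Module.Dual ℝ V) (hμ : PairIndep μ) {motive : V → V → Prop}
    (same : ∀ b b', GenP μ b → GenP μ b' → (∀ j, 0 < μ j b * μ j b') → motive b b')
    (cross : ∀ b d b' i, GenP μ b → GenP μ d → GenP μ b' → μ i b * μ i d < 0 →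
      (∀ j, j ≠ i → 0 < μ j b * μ j d) → μ i b * μ i b' < 0 → motive d b' → motive b b') :
    ∀ b b', GenP μ b → GenP μ b' → motive b b' := by
  classical
  have hfin := Fintype.ofFinite ι
  have key : ∀ n : ℕ, ∀ b b', GenP μ b → GenP μ b' →
      (univ.filter (fun i => μ i b * μ i b' < 0)).card = n → motive b b' := by
    intro n
    induction n with
    | zero =>
      intro b b' hb hb' hn
      apply same b b' hb hb'
      intro j
      rw [card_eq_zero] at hn
      have : j ∉ univ.filter (fun i => μ i b * μ i b' < 0) := by rw [hn]; simp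
      exact mul_pos_of_sign (hb j) (hb' j) (by simpa using this)
    | succ n ih =>
      intro b b' hb hb' hn
      have hne : (univ.filter (fun i => μ i b * μ i b' < 0)).Nonempty := by
        rw [← card_pos, hn]; omega
      obtain ⟨i₀, hi₀⟩ := hne
      obtain ⟨i, hi, d, hd1, hd2⟩ := gallery_step μ hμ b b' hb hb' i₀ (by simpa using hi₀)
      have hd : GenP μ d := by
        intro j
        by_cases hj : j = i
        · subst hj; intro h; rw [h] at hd1; simp at hd1
        · intro h; have := hd2 j hj; rw [h] at this; simp at this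
      refine cross b d b' i hb hd hb' hd1 hd2 hi (ih d b' hd hb' ?_)
      have : univ.filter (fun j => μ j d * μ j b' < 0)
          = (univ.filter (fun j => μ j b * μ j b' < 0)).erase i := by
        ext j
        simp only [mem_filter, mem_univ, true_and, mem_erase]
        by_cases hj : j = i
        · subst hj
          simp only [ne_eq, not_true_eq_false, false_and, iff_false, not_lt]
          nlinarith [mul_pos_of_neg_of_neg hd1 hi, mul_self_pos.mpr (hb j)]
        · simp only [ne_eq, hj, not_false_eq_true, true_and]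
          have h2 := hd2 j hj
          have hbb := mul_self_pos.mpr (hb j)
          have hdd := mul_self_pos.mpr (hd j)
          constructor
          · intro h
            have h3 : (μ j b * μ j b') * (μ j d * μ j d) = (μ j b * μ j d) * (μ j d * μ j b') := by
              ring
            by_contra hcon
            push Not at hcon
            have h4 := mul_neg_of_pos_of_neg h2 h
            have h5 := mul_nonneg hcon hdd.le
            linarith
          · intro h
            have h3 : (μ j d * μ j b') * (μ j b * μ j b) = (μ j b * μ j d) * (μ j b * μ j b') := by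
              ring
            by_contra hcon
            push Not at hcon
            have h4 := mul_neg_of_pos_of_neg h2 h
            have h5 := mul_nonneg hcon hbb.le
            linarith
      rw [this, card_erase_of_mem (by simp [hi]), hn]
      rfl
  intro b b' hb hb'
  exact key _ b b' hb hb' rfl

theorem exists_cross (μ : ι → Module.Dual ℝ V) (hμ : PairIndep μ) (j : ι) :
    ∀ b b', GenP μ b → GenP μ b' → μ j b * μ j b' < 0 →
      ∃ f₁ f₂, GenP μ f₁ ∧ GenP μ f₂ ∧ μ j f₁ * μ j f₂ < 0 ∧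
        ∀ k, k ≠ j → 0 < μ k f₁ * μ k f₂ := by
  refine gallery_induction μ hμ (motive := fun b b' => μ j b * μ j b' < 0 →
      ∃ f₁ f₂, GenP μ f₁ ∧ GenP μ f₂ ∧ μ j f₁ * μ j f₂ < 0 ∧
        ∀ k, k ≠ j → 0 < μ k f₁ * μ k f₂) ?_ ?_
  · intro b b' _ _ h h'
    have := h j
    linarith
  · intro b d b' i hb hd hb' h1 h2 h3 ih hj
    by_cases hij : i = j
    · subst hij
      exact ⟨b, d, hb, hd, h1, h2⟩
    · apply ih
      have h4 := h2 j (Ne.symm hij)
      have hbb := mul_self_pos.mpr (hb j)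
      have h5 : (μ j d * μ j b') * (μ j b * μ j b) = (μ j b * μ j d) * (μ j b * μ j b') := by ring
      by_contra hcon
      push Not at hcon
      have h6 := mul_neg_of_pos_of_neg h4 hj
      have h7 := mul_nonneg hcon hbb.le
      linarith

end galleryInd

variable {m : ℕ}

/-- `lam` as a real functional. -/
def lamL (ε : Finset (Fin m)) : Module.Dual ℝ (Fin (m + 1) → ℝ) where
  toFun := lam ε
  map_add' := lam_add ε
  map_smul' := lam_smul ε

@[simp] lemma lamL_apply (ε : Finset (Fin m)) (b : Fin (m + 1) → ℝ) : lamL ε b = lam ε b := rfl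

/-- Integral vectors as real vectors. -/
def castR (z : Fin (m + 1) → ℤ) : Fin (m + 1) → ℝ := fun k => (z k : ℝ)

lemma lam_castR (ε : Finset (Fin m)) (z : Fin (m + 1) → ℤ) :
    lam ε (castR z) = ((lam ε z : ℤ) : ℝ) := by
  simp [lam, castR]

/-- A vector off all the walls. -/
def Gen (b : Fin (m + 1) → ℝ) : Prop := ∀ ε : Finset (Fin m), lam ε b ≠ 0

lemma pairIndep_lamL : PairIndep (lamL (m := m)) := by
  have key : ∀ i j : Finset (Fin m), i ≠ j → ∀ a c : ℝ,
      (∀ z, a * lamL i z + c * lamL j z = 0) → a = 0 := by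
    intro i j hij a c h
    obtain ⟨z, hz1, hz2⟩ := exists_lam_one_zero hij
    have := h (castR z)
    simp only [lamL_apply, lam_castR, hz1, hz2] at this
    simpa using this
  intro i j hij a c h
  exact ⟨key i j hij a c h, key j i (Ne.symm hij) c a (fun z => by rw [add_comm]; exact h z)⟩

/-- The functionals restricted to a wall. -/
noncomputable def wallL (i : Finset (Fin m)) (j : {j : Finset (Fin m) // j ≠ i}) :
    Module.Dual ℝ (LinearMap.ker (lamL i)) := (lamL j.1).domRestrict _

/-- Vectors in the wall. -/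
def yy (i : Finset (Fin m)) (p : Fin m) : Fin (m + 1) → ℤ :=
  if p ∈ i then e0 ℤ - ej ℤ p else ej ℤ p

lemma lam_yy (i j : Finset (Fin m)) (p : Fin m) :
    lam j (yy i p) = if (p ∈ i ↔ p ∈ j) then 0 else 1 := by
  unfold yy
  by_cases h1 : p ∈ i <;> by_cases h2 : p ∈ j <;> simp [h1, h2, lam_sub, lam_e0, lam_ej]

lemma exists_not_iff {i j : Finset (Fin m)} (h : i ≠ j) : ∃ p, ¬ (p ∈ i ↔ p ∈ j) := by
  by_contra hcon
  push Not at hcon
  exact h (Finset.ext hcon)

lemma pairIndep_wallL (i : Finset (Fin m)) : PairIndep (wallL i) := by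
  rintro ⟨j, hj⟩ ⟨k, hk⟩ hjk a c h
  have hjk' : j ≠ k := fun h => hjk (by simp [h])
  have h' : ∀ p, a * (if (p ∈ i ↔ p ∈ j) then 0 else 1) + c * (if (p ∈ i ↔ p ∈ k) then 0 else 1)
      = 0 := by
    intro p
    have hmem : castR (yy i p) ∈ LinearMap.ker (lamL i) := by
      rw [LinearMap.mem_ker, lamL_apply, lam_castR, lam_yy]
      simp
    have := h ⟨castR (yy i p), hmem⟩
    simp only [wallL, LinearMap.domRestrict_apply, lamL_apply, lam_castR, lam_yy] at this
    push_cast at this
    exact this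
  obtain ⟨p, hp⟩ := exists_not_iff hjk'
  obtain ⟨q, hq⟩ := exists_not_iff (Ne.symm hj)
  obtain ⟨s, hs⟩ := exists_not_iff (Ne.symm hk)
  have hp' := h' p
  have hq' := h' q
  have hs' := h' s
  rw [if_neg hq] at hq'
  rw [if_neg hs] at hs'
  by_cases h1 : (p ∈ i ↔ p ∈ j)
  · have h2 : ¬ (p ∈ i ↔ p ∈ k) := fun h3 => hp (h1.symm.trans h3)
    rw [if_pos h1, if_neg h2] at hp'
    have hc : c = 0 := by linarith
    subst hc
    simp at hq'
    exact ⟨hq', rfl⟩
  · have h2 : (p ∈ i ↔ p ∈ k) := by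
      by_contra h3
      apply hp
      tauto
    rw [if_neg h1, if_pos h2] at hp'
    have ha : a = 0 := by linarith
    subst ha
    simp at hs'
    exact ⟨rfl, hs'⟩

/-- Adjacent pair of chambers across the wall `i`. -/
structure AdjP (i : Finset (Fin m)) (b b' : Fin (m + 1) → ℝ) : Prop where
  pos : 0 < lam i b
  neg : lam i b' < 0
  same : ∀ j, j ≠ i → 0 < lam j b * lam j b'

lemma AdjP.gen {i : Finset (Fin m)} {b b' : Fin (m + 1) → ℝ} (h : AdjP i b b') : Gen b := by
  intro j
  by_cases hj : j = i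
  · subst hj; exact ne_of_gt h.pos
  · intro h0; have := h.same j hj; rw [h0] at this; simp at this

lemma AdjP.gen' {i : Finset (Fin m)} {b b' : Fin (m + 1) → ℝ} (h : AdjP i b b') : Gen b' := by
  intro j
  by_cases hj : j = i
  · subst hj; exact ne_of_lt h.neg
  · intro h0; have := h.same j hj; rw [h0] at this; simp at this

/-- chambers adjacent to a facet. -/
lemma adj_of_facet (i : Finset (Fin m)) (f : LinearMap.ker (lamL i)) (hf : GenP (wallL i) f) :
    ∃ b b', AdjP i b b' ∧ ∀ j, j ≠ i → 0 < lam j f.1 * lam j b ∧ 0 < lam j f.1 * lam j b' := by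
  have hf0 : lam i f.1 = 0 := f.2
  have h1 : ∀ᶠ δ : ℝ in 𝓝[>] 0, ∀ j : {j : Finset (Fin m) // j ≠ i},
      0 < (lam j.1 f.1 + δ * 1) * lam j.1 f.1 := by
    rw [eventually_all]
    intro j
    exact eventually_sign_affine _ _ (hf j)
  have h2 : ∀ᶠ δ : ℝ in 𝓝[>] 0, ∀ j : {j : Finset (Fin m) // j ≠ i},
      0 < (lam j.1 f.1 + δ * (-1)) * lam j.1 f.1 := by
    rw [eventually_all]
    intro j
    exact eventually_sign_affine _ _ (hf j)
  obtain ⟨δ, hδ1, hδ2, hδ0⟩ := (h1.and (h2.and self_mem_nhdsWithin)).exists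
  have hδ0' : (0 : ℝ) < δ := hδ0
  have hb : ∀ j, lam j (f.1 + δ • e0 ℝ) = lam j f.1 + δ := by
    intro j
    rw [lam_add, lam_smul, lam_e0]; simp
  have hb' : ∀ j, lam j (f.1 - δ • e0 ℝ) = lam j f.1 - δ := by
    intro j
    rw [lam_sub, lam_smul, lam_e0]; simp
  refine ⟨f.1 + δ • e0 ℝ, f.1 - δ • e0 ℝ, ⟨?_, ?_, ?_⟩, ?_⟩
  · rw [hb, hf0]; linarith
  · rw [hb', hf0]; linarith
  · intro j hj
    rw [hb, hb']
    have e1 := hδ1 ⟨j, hj⟩
    have e2 := hδ2 ⟨j, hj⟩
    simp only [mul_one, mul_neg] at e1 e2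
    have e3 := mul_pos e1 e2
    have e4 : (lam j f.1 + δ) * lam j f.1 * ((lam j f.1 + -δ) * lam j f.1)
        = ((lam j f.1 + δ) * (lam j f.1 - δ)) * (lam j f.1 * lam j f.1) := by ring
    rw [e4] at e3
    by_contra hcon
    push Not at hcon
    have := mul_nonpos_of_nonpos_of_nonneg hcon (mul_self_nonneg (lam j f.1))
    linarith
  · intro j hj
    rw [hb, hb']
    have e1 := hδ1 ⟨j, hj⟩
    have e2 := hδ2 ⟨j, hj⟩
    simp only [mul_one, mul_neg] at e1 e2
    constructor <;> linarith

/-- The facet point of an adjacent pair. -/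
lemma facet_of_adj {i : Finset (Fin m)} {b b' : Fin (m + 1) → ℝ} (h : AdjP i b b') :
    ∃ f : LinearMap.ker (lamL i), GenP (wallL i) f ∧
      ∀ j, j ≠ i → 0 < lam j f.1 * lam j b ∧ 0 < lam j f.1 * lam j b' := by
  have hp := h.pos
  have hn := h.neg
  have hmem : (lam i b) • b' + (-lam i b') • b ∈ LinearMap.ker (lamL i) := by
    rw [LinearMap.mem_ker, lamL_apply, lam_add, lam_smul, lam_smul]
    simp only [smul_eq_mul]
    ring
  have key : ∀ j, j ≠ i → 0 < lam j ((lam i b) • b' + (-lam i b') • b) * lam j b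
      ∧ 0 < lam j ((lam i b) • b' + (-lam i b') • b) * lam j b' := by
    intro j hj
    rw [lam_add, lam_smul, lam_smul]
    simp only [smul_eq_mul]
    have h1 := h.same j hj
    have h2 := mul_self_nonneg (lam j b)
    have h3 := mul_self_nonneg (lam j b')
    have h4 := mul_pos hp h1
    have h5 : 0 < (-lam i b') * (lam j b * lam j b') := mul_pos (by linarith) h1
    have h6 : 0 ≤ (-lam i b') * (lam j b * lam j b) := mul_nonneg (by linarith) h2
    have h7 : 0 ≤ (lam i b) * (lam j b' * lam j b') := mul_nonneg hp.le h3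
    constructor <;> nlinarith
  refine ⟨⟨_, hmem⟩, ?_, key⟩
  rintro ⟨j, hj⟩ h0
  have := (key j hj).1
  change lam j ((lam i b) • b' + (-lam i b') • b) = 0 at h0
  rw [h0] at this
  simp at this

lemma exists_adj (i : Finset (Fin m)) : ∃ f : LinearMap.ker (lamL i), GenP (wallL i) f := by
  obtain ⟨f, hf⟩ := Module.Dual.exists_forall_ne_zero_of_forall_exists (wallL i) (by
    rintro ⟨j, hj⟩
    obtain ⟨p, hp⟩ := exists_not_iff (Ne.symm hj)
    have hmem : castR (yy i p) ∈ LinearMap.ker (lamL i) := by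
      rw [LinearMap.mem_ker, lamL_apply, lam_castR, lam_yy]
      simp
    refine ⟨⟨castR (yy i p), hmem⟩, ?_⟩
    simp only [wallL, LinearMap.domRestrict_apply, lamL_apply, lam_castR, lam_yy, if_neg hp]
    simp)
  exact ⟨f, hf⟩

/-- The data extracted from the topology. -/
structure Pres (m : ℕ) (P : Type*) [Group P] where
  /-- translation elements -/
  t : (Fin (m + 1) → ℝ) → (Fin (m + 1) → ℤ) → P
  t_add : ∀ b, Gen b → ∀ v v', t b (v + v') = t b v * t b v'
  t_wall : ∀ b b', Gen b → Gen b' → ∀ v,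
    (∀ ε, lam ε b * lam ε b' < 0 → lam ε v = 0) → t b v = t b' v
  t_four : t (e0 ℝ) (e0 ℤ) = t (-e0 ℝ) (e0 ℤ)
  gen : Subgroup.closure {x | ∃ b v, Gen b ∧ x = t b v} = ⊤
  /-- the abelian quotient `Λ` -/
  vv : P → (Fin (m + 1) → ℤ)
  vv_mul : ∀ x y, vv (x * y) = vv x + vv y
  vv_t : ∀ b v, Gen b → vv (t b v) = v
  /-- the crossed homomorphism -/
  r : P → (Finset (Fin m) → ℤ → ℤ) → ℤ
  r_add : ∀ x, ∀ φ ∈ Adm m, ∀ ψ ∈ Adm m, r x (φ + ψ) = r x φ + r x ψ
  r_mul : ∀ x y, ∀ φ ∈ Adm m, r (x * y) φ = r y φ + r x (shiftA (vv y) φ)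
  r_t : ∀ b v, Gen b → ∀ φ ∈ Adm m,
    r (t b v) φ = ∑ ε ∈ univ.filter (fun ε => lam ε b < 0), anti (φ ε) (lam ε v)

namespace Pres

variable {P : Type*} [Group P] (D : Pres m P)
include D

lemma t_same {b b' : Fin (m + 1) → ℝ} (hb : Gen b) (hb' : Gen b')
    (h : ∀ ε, 0 < lam ε b * lam ε b') (v : Fin (m + 1) → ℤ) : D.t b v = D.t b' v :=
  D.t_wall b b' hb hb' v (fun ε hε => by have := h ε; linarith)

/-- crossing only the wall `i`, with `v` in the wall -/
lemma t_cross {i : Finset (Fin m)} {b b' : Fin (m + 1) → ℝ} (hb : Gen b) (hb' : Gen b')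
    (h : ∀ ε, ε ≠ i → 0 < lam ε b * lam ε b') (v : Fin (m + 1) → ℤ) (hv : lam i v = 0) :
    D.t b v = D.t b' v :=
  D.t_wall b b' hb hb' v (fun ε hε => by
    by_cases he : ε = i
    · rw [he]; exact hv
    · have := h ε he; linarith)

lemma t_zero {b : Fin (m + 1) → ℝ} (hb : Gen b) : D.t b 0 = 1 := by
  have := D.t_add b hb 0 0
  rw [add_zero] at this
  exact left_eq_mul.mp this

/-- `t b` as a homomorphism. -/
def tHom {b : Fin (m + 1) → ℝ} (hb : Gen b) : Multiplicative (Fin (m + 1) → ℤ) →* P where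
  toFun v := D.t b (Multiplicative.toAdd v)
  map_one' := D.t_zero hb
  map_mul' v w := D.t_add b hb _ _

lemma t_zsmul {b : Fin (m + 1) → ℝ} (hb : Gen b) (k : ℤ) (v : Fin (m + 1) → ℤ) :
    D.t b (k • v) = (D.t b v) ^ k := by
  have := map_zpow (D.tHom hb) (Multiplicative.ofAdd v) k
  exact this

lemma t_neg {b : Fin (m + 1) → ℝ} (hb : Gen b) (v : Fin (m + 1) → ℤ) :
    D.t b (-v) = (D.t b v)⁻¹ := by
  have := map_inv (D.tHom hb) (Multiplicative.ofAdd v)
  exact this

lemma t_comm {b : Fin (m + 1) → ℝ} (hb : Gen b) (v w : Fin (m + 1) → ℤ) :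
    Commute (D.t b v) (D.t b w) := by
  change D.t b v * D.t b w = D.t b w * D.t b v
  rw [← D.t_add b hb, ← D.t_add b hb, add_comm]

lemma cc_congr {i : Finset (Fin m)} {b b' : Fin (m + 1) → ℝ} (h : AdjP i b b')
    {v v' : Fin (m + 1) → ℤ} (hv : lam i v = lam i v') :
    D.t b v * (D.t b' v)⁻¹ = D.t b v' * (D.t b' v')⁻¹ := by
  have h1 : D.t b (v' - v) = D.t b' (v' - v) :=
    D.t_cross h.gen h.gen' h.same _ (by rw [lam_sub, hv, sub_self])
  have h2 : v' = v + (v' - v) := by abel
  rw [h2, D.t_add b h.gen, D.t_add b' h.gen', h1]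
  group

/-- Facet independence of the wall crossing elements. -/
lemma cc_indep_aux (i : Finset (Fin m)) : ∀ f g : LinearMap.ker (lamL i),
    GenP (wallL i) f → GenP (wallL i) g → ∀ b b' d d' : Fin (m + 1) → ℝ,
    AdjP i b b' → AdjP i d d' →
    (∀ j, j ≠ i → 0 < lam j f.1 * lam j b) → (∀ j, j ≠ i → 0 < lam j g.1 * lam j d) →
    ∀ v, D.t b v * (D.t b' v)⁻¹ = D.t d v * (D.t d' v)⁻¹ := by
  have hsign : ∀ x y z : ℝ, 0 < x * y → 0 < x * z → 0 < y * z := by
    intro x y z h1 h2
    have h3 : (x * y) * (x * z) = (y * z) * (x * x) := by ring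
    by_contra hcon
    push Not at hcon
    have := mul_nonpos_of_nonpos_of_nonneg hcon (mul_self_nonneg x)
    have := mul_pos h1 h2
    linarith
  refine gallery_induction (wallL i) (pairIndep_wallL i) (motive := fun f g =>
    ∀ b b' d d' : Fin (m + 1) → ℝ, AdjP i b b' → AdjP i d d' →
    (∀ j, j ≠ i → 0 < lam j f.1 * lam j b) → (∀ j, j ≠ i → 0 < lam j g.1 * lam j d) →
    ∀ v, D.t b v * (D.t b' v)⁻¹ = D.t d v * (D.t d' v)⁻¹) ?_ ?_
  · intro f g _ _ hfg b b' d d' hb hd hfb hgd v
    have h1 : ∀ j, 0 < lam j b * lam j d := by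
      intro j
      by_cases hj : j = i
      · subst hj; exact mul_pos hb.pos hd.pos
      · have e1 := hfg ⟨j, hj⟩
        change 0 < lam j f.1 * lam j g.1 at e1
        have e2 := hsign _ _ _ (hfb j hj) (by rw [mul_comm] at e1; rw [mul_comm]; linarith :
          0 < lam j f.1 * lam j g.1)
        have e3 := hgd j hj
        have e4 : 0 < lam j g.1 * lam j b := by rw [mul_comm]; exact e2
        exact hsign _ _ _ e4 e3
    have h2 : ∀ j, 0 < lam j b' * lam j d' := by
      intro j
      by_cases hj : j = i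
      · subst hj; exact mul_pos_of_neg_of_neg hb.neg hd.neg
      · have e1 := h1 j
        have e2 := hb.same j hj
        have e3 := hd.same j hj
        have e4 := hsign _ _ _ e1 e2
        have e5 : 0 < lam j d * lam j b' := e4
        exact hsign _ _ _ e5 e3
    rw [D.t_same hb.gen hd.gen h1, D.t_same hb.gen' hd.gen' h2]
  · intro f e g j hf he hg h1 h2 h3 ih b b' d d' hb hd hfb hgd v
    obtain ⟨c, c', hc, hc'⟩ := adj_of_facet i e he
    have ihc := ih c c' d d' hc hd (fun j hj => (hc' j hj).1) hgd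
    -- replace v by v'' with lam j v'' = 0
    obtain ⟨z, hz1, hz2⟩ := exists_lam_one_zero (Ne.symm j.2)
    have hv1 : lam i ((lam i v) • z) = lam i v := by rw [lam_smul, hz1]; simp
    have hv2 : lam j.1 ((lam i v) • z) = 0 := by rw [lam_smul, hz2]; simp
    have hk : ∀ k, k ≠ j.1 → 0 < lam k b * lam k c := by
      intro k hk
      by_cases hki : k = i
      · subst hki; exact mul_pos hb.pos hc.pos
      · have e1 : 0 < lam k f.1 * lam k e.1 := h2 ⟨k, hki⟩ (fun h => hk (by rw [← h]))
        have e2 := hsign _ _ _ (hfb k hki) e1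
        have e3 := (hc' k hki).1
        have e4 : 0 < lam k e.1 * lam k b := by rw [mul_comm]; exact e2
        exact hsign _ _ _ e4 e3
    have hk' : ∀ k, k ≠ j.1 → 0 < lam k b' * lam k c' := by
      intro k hk0
      by_cases hki : k = i
      · subst hki; exact mul_pos_of_neg_of_neg hb.neg hc.neg
      · have e1 := hk k hk0
        have e2 := hb.same k hki
        have e3 := hc.same k hki
        have e4 := hsign _ _ _ e1 e2
        exact hsign _ _ _ e4 e3
    rw [D.cc_congr hb hv1.symm, D.t_cross hb.gen hc.gen hk _ hv2,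
      D.t_cross hb.gen' hc.gen' hk' _ hv2, ihc, D.cc_congr hd hv1]

lemma cc_indep {i : Finset (Fin m)} {b b' d d' : Fin (m + 1) → ℝ} (hb : AdjP i b b')
    (hd : AdjP i d d') (v : Fin (m + 1) → ℤ) :
    D.t b v * (D.t b' v)⁻¹ = D.t d v * (D.t d' v)⁻¹ := by
  obtain ⟨f, hf, hf'⟩ := facet_of_adj hb
  obtain ⟨g, hg, hg'⟩ := facet_of_adj hd
  exact D.cc_indep_aux i f g hf hg b b' d d' hb hd (fun j hj => (hf' j hj).1)
    (fun j hj => (hg' j hj).1) v

/-- The wall crossing elements. -/
noncomputable def cI (i : Finset (Fin m)) (k : ℤ) : P :=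
  D.t (adj_of_facet i _ (exists_adj i).choose_spec).choose (k • e0 ℤ) *
    (D.t (adj_of_facet i _ (exists_adj i).choose_spec).choose_spec.choose (k • e0 ℤ))⁻¹

lemma cI_eq {i : Finset (Fin m)} {b b' : Fin (m + 1) → ℝ} (h : AdjP i b b')
    {v : Fin (m + 1) → ℤ} {k : ℤ} (hv : lam i v = k) :
    D.t b v * (D.t b' v)⁻¹ = D.cI i k := by
  have h1 := (adj_of_facet i _ (exists_adj i).choose_spec).choose_spec.choose_spec.1
  unfold cI
  rw [D.cc_indep h1 h]
  apply D.cc_congr h
  rw [hv, lam_smul, lam_e0]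
  simp

lemma exists_adjP (i : Finset (Fin m)) : ∃ b b', AdjP i b b' :=
  ⟨_, _, (adj_of_facet i _ (exists_adj i).choose_spec).choose_spec.choose_spec.1⟩

lemma cI_zero (i : Finset (Fin m)) : D.cI i 0 = 1 := by
  obtain ⟨b, b', h⟩ := exists_adjP D i
  rw [← D.cI_eq h (lam_zero i), D.t_zero h.gen, D.t_zero h.gen']
  simp

end Pres

end Pool.Agent.Q71.NC
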