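import Pool.Agent.Q71.NC.Alg

/-!
# The abstract group theory of wall crossing, II
-/

namespace Pool.Agent.Q71.NC

open Finset Filter Topology

variable {m : ℕ}

namespace Pres

variable {P : Type*} [Group P] (D : Pres m P)

lemma sign_trans {x y z : ℝ} (h1 : 0 < x * y) (h2 : 0 < x * z) : 0 < y * z := by
  have h3 : (x * y) * (x * z) = (y * z) * (x * x) := by ring
  by_contra hcon
  push Not at hcon
  have := mul_nonpos_of_nonpos_of_nonneg hcon (mul_self_nonneg x)
  have := mul_pos h1 h2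
  linarith

/-- four chambers around a codimension two stratum -/
lemma exists_four {i j : Finset (Fin m)} (hij : j ≠ i) :
    ∃ b b' d d' : Fin (m + 1) → ℝ, AdjP i b b' ∧ AdjP i d d' ∧ AdjP j b d ∧ AdjP j b' d' := by
  obtain ⟨f, hf⟩ := exists_adj i
  have hf' : GenP (wallL i) (-f) := by
    intro k; simp [hf k]
  have hneg : (wallL i ⟨j, hij⟩) f * (wallL i ⟨j, hij⟩) (-f) < 0 := by
    have := mul_self_pos.mpr (hf ⟨j, hij⟩)
    simp only [map_neg, mul_neg]
    linarith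
  obtain ⟨f₁, f₂, h1, h2, h3, h4⟩ := exists_cross (wallL i) (pairIndep_wallL i) ⟨j, hij⟩ f (-f)
    hf hf' hneg
  -- WLOG positive on f₁
  have main : ∀ f₁ f₂ : LinearMap.ker (lamL i), GenP (wallL i) f₁ → GenP (wallL i) f₂ →
      0 < lam j f₁.1 → lam j f₂.1 < 0 → (∀ k : {k : Finset (Fin m) // k ≠ i}, k ≠ ⟨j, hij⟩ →
        0 < wallL i k f₁ * wallL i k f₂) → 
      ∃ b b' d d' : Fin (m + 1) → ℝ, AdjP i b b' ∧ AdjP i d d' ∧ AdjP j b d ∧ AdjP j b' d' := by
    intro f₁ f₂ h1 h2 hp hn h4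
    obtain ⟨b, b', hb, hb'⟩ := adj_of_facet i f₁ h1
    obtain ⟨d, d', hd, hd'⟩ := adj_of_facet i f₂ h2
    have e1 := hb' j hij
    have e2 := hd' j hij
    have k1 : ∀ k, k ≠ j → 0 < lam k b * lam k d := by
      intro k hk
      by_cases hki : k = i
      · subst hki; exact mul_pos hb.pos hd.pos
      · have g1 : 0 < lam k f₁.1 * lam k f₂.1 := h4 ⟨k, hki⟩ (by simpa using hk)
        have g2 := (hb' k hki).1
        have g3 := (hd' k hki).1
        have g4 : 0 < lam k f₂.1 * lam k b := sign_trans g1 g2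
        exact sign_trans g4 g3
    have k2 : ∀ k, k ≠ j → 0 < lam k b' * lam k d' := by
      intro k hk
      by_cases hki : k = i
      · subst hki; exact mul_pos_of_neg_of_neg hb.neg hd.neg
      · have g1 : 0 < lam k f₁.1 * lam k f₂.1 := h4 ⟨k, hki⟩ (by simpa using hk)
        have g2 := (hb' k hki).2
        have g3 := (hd' k hki).2
        have g4 : 0 < lam k f₂.1 * lam k b' := sign_trans g1 g2
        exact sign_trans g4 g3
    refine ⟨b, b', d, d', hb, hd, ⟨?_, ?_, k1⟩, ⟨?_, ?_, k2⟩⟩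
    · exact (pos_iff_pos_of_mul_pos e1.1).mp hp
    · exact (neg_iff_neg_of_mul_pos e2.1).mp hn
    · exact (pos_iff_pos_of_mul_pos e1.2).mp hp
    · exact (neg_iff_neg_of_mul_pos e2.2).mp hn
  rcases mul_neg_iff.mp h3 with ⟨hp, hn⟩ | ⟨hn, hp⟩
  · exact main f₁ f₂ h1 h2 hp hn h4
  · exact main f₂ f₁ h2 h1 hp hn (fun k hk => by rw [mul_comm]; exact h4 k hk)

/-- Crossing elements of different walls commute. -/
lemma commute_of_ne {i j : Finset (Fin m)} (hij : j ≠ i) (k l : ℤ) :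
    Commute (D.cI i k) (D.cI j l) := by
  obtain ⟨b, b', d, d', h1, h2, h3, h4⟩ := exists_four hij
  obtain ⟨z, hz1, hz2⟩ := exists_lam_one_zero (Ne.symm hij)
  obtain ⟨y, hy1, hy2⟩ := exists_lam_one_zero hij
  have hv1 : lam i (k • z) = k := by rw [lam_smul, hz1]; simp
  have hv2 : lam j (k • z) = 0 := by rw [lam_smul, hz2]; simp
  have hu1 : lam j (l • y) = l := by rw [lam_smul, hy1]; simp
  have hu2 : lam i (l • y) = 0 := by rw [lam_smul, hy2]; simp
  set v := k • z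
  set u := l • y
  have c1 := D.cI_eq h1 hv1
  have c2 := D.cI_eq h3 hu1
  have c3 := D.cI_eq h4 hu1
  have q1 : D.t b v = D.t d v := D.t_cross h1.gen h2.gen h3.same v hv2
  have q2 : D.t b' v = D.t d' v := D.t_cross h1.gen' h2.gen' h4.same v hv2
  have q3 : D.t b u = D.t b' u := D.t_cross h1.gen h1.gen' h1.same u hu2
  have q4 : D.t d u = D.t d' u := D.t_cross h2.gen h2.gen' h2.same u hu2
  have m1 := D.t_comm h1.gen u v
  have m2 := D.t_comm h2.gen u v
  have m3 := D.t_comm h1.gen' u v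
  have m4 := D.t_comm h2.gen' u v
  -- c_i c_j
  have hA : D.cI i k * D.cI j l = D.t b v * D.t b u * ((D.t d' v)⁻¹ * (D.t d' u)⁻¹) := by
    rw [← c1, ← c3]
    have : (D.t b' v)⁻¹ * D.t b' u = D.t b' u * (D.t b' v)⁻¹ := (m3.symm.inv_left).eq
    calc D.t b v * (D.t b' v)⁻¹ * (D.t b' u * (D.t d' u)⁻¹)
        = D.t b v * ((D.t b' v)⁻¹ * D.t b' u) * (D.t d' u)⁻¹ := by group
      _ = D.t b v * (D.t b' u * (D.t b' v)⁻¹) * (D.t d' u)⁻¹ := by rw [this]
      _ = D.t b v * D.t b u * ((D.t d' v)⁻¹ * (D.t d' u)⁻¹) := by rw [← q3, q2]; group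
  have hB : D.cI j l * D.cI i k = D.t b u * D.t b v * ((D.t d' u)⁻¹ * (D.t d' v)⁻¹) := by
    rw [← c1, ← c2]
    have : (D.t d u)⁻¹ * D.t d v = D.t d v * (D.t d u)⁻¹ := (m2.inv_left).eq
    calc D.t b u * (D.t d u)⁻¹ * (D.t b v * (D.t b' v)⁻¹)
        = D.t b u * ((D.t d u)⁻¹ * D.t b v) * (D.t b' v)⁻¹ := by group
      _ = D.t b u * ((D.t d u)⁻¹ * D.t d v) * (D.t b' v)⁻¹ := by rw [← q1]
      _ = D.t b u * (D.t d v * (D.t d u)⁻¹) * (D.t b' v)⁻¹ := by rw [this]
      _ = D.t b u * D.t b v * ((D.t d' u)⁻¹ * (D.t d' v)⁻¹) := by rw [← q1, q2, q4]; group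
  change D.cI i k * D.cI j l = D.cI j l * D.cI i k
  rw [hA, hB, m1.eq]
  congr 1
  rw [← mul_inv_rev, ← mul_inv_rev, m4.eq]

/-- centraliser of the crossing elements of the wall `i` -/
def Z (i : Finset (Fin m)) : Subgroup P := Subgroup.centralizer (Set.range (D.cI i))

lemma mem_Z {i : Finset (Fin m)} {x : P} : x ∈ D.Z i ↔ ∀ k, Commute (D.cI i k) x := by
  rw [Z, Subgroup.mem_centralizer_iff]
  constructor
  · intro h k; exact h _ ⟨k, rfl⟩
  · rintro h _ ⟨k, rfl⟩; exact h k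

lemma cI_mem_Z {i j : Finset (Fin m)} (hij : j ≠ i) (l : ℤ) : D.cI j l ∈ D.Z i :=
  D.mem_Z.mpr (fun k => D.commute_of_ne hij k l)

lemma gen_of_genP {b : Fin (m + 1) → ℝ} (h : GenP (lamL (m := m)) b) : Gen b := h

/-- `t b v` and `t d v` differ by a crossing element when `b, d` are separated by one wall. -/
lemma t_step {j : Finset (Fin m)} {b d : Fin (m + 1) → ℝ} (h1 : lam j b * lam j d < 0)
    (h2 : ∀ k, k ≠ j → 0 < lam k b * lam k d) (v : Fin (m + 1) → ℤ) :
    (0 < lam j b ∧ D.t b v * (D.t d v)⁻¹ = D.cI j (lam j v)) ∨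
    (lam j b < 0 ∧ D.t b v * (D.t d v)⁻¹ = (D.cI j (lam j v))⁻¹) := by
  rcases mul_neg_iff.mp h1 with ⟨hp, hn⟩ | ⟨hn, hp⟩
  · left
    exact ⟨hp, D.cI_eq ⟨hp, hn, h2⟩ rfl⟩
  · right
    refine ⟨hn, ?_⟩
    have := D.cI_eq (i := j) (b := d) (b' := b) ⟨hp, hn, fun k hk => by
      rw [mul_comm]; exact h2 k hk⟩ (v := v) rfl
    rw [← this]
    group

lemma t_mem_Z (i : Finset (Fin m)) : ∀ b b' : Fin (m + 1) → ℝ, Gen b → Gen b' →
    0 < lam i b * lam i b' → ∀ v, D.t b v * (D.t b' v)⁻¹ ∈ D.Z i := by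
  refine gallery_induction (lamL (m := m)) pairIndep_lamL (motive := fun b b' =>
    0 < lam i b * lam i b' → ∀ v, D.t b v * (D.t b' v)⁻¹ ∈ D.Z i) ?_ ?_
  · intro b b' hb hb' h _ v
    rw [D.t_same hb hb' h v, mul_inv_cancel]
    exact Subgroup.one_mem _
  · intro b d b' j hb hd hb' h1 h2 h3 ih hi v
    have hji : j ≠ i := by
      rintro rfl
      change lam j b * lam j b' < 0 at h3
      linarith
    have h4 : 0 < lam i d * lam i b' := by
      have e1 : 0 < lam i b * lam i d := h2 i (Ne.symm hji)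
      exact sign_trans e1 hi
    have h5 := ih h4 v
    have h6 : D.t b v * (D.t d v)⁻¹ ∈ D.Z i := by
      rcases D.t_step h1 h2 v with ⟨_, h⟩ | ⟨_, h⟩
      · rw [h]; exact D.cI_mem_Z hji _
      · rw [h]; exact Subgroup.inv_mem _ (D.cI_mem_Z hji _)
    have : D.t b v * (D.t b' v)⁻¹ = (D.t b v * (D.t d v)⁻¹) * (D.t d v * (D.t b' v)⁻¹) := by group
    rw [this]
    exact Subgroup.mul_mem _ h6 h5

lemma t_mem_Z' (i : Finset (Fin m)) : ∀ b b' : Fin (m + 1) → ℝ, Gen b → Gen b' →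
    0 < lam i b → lam i b' < 0 → ∀ v, D.t b v * (D.t b' v)⁻¹ * (D.cI i (lam i v))⁻¹ ∈ D.Z i := by
  refine gallery_induction (lamL (m := m)) pairIndep_lamL (motive := fun b b' =>
    0 < lam i b → lam i b' < 0 →
      ∀ v, D.t b v * (D.t b' v)⁻¹ * (D.cI i (lam i v))⁻¹ ∈ D.Z i) ?_ ?_
  · intro b b' hb hb' h h1 h2 v
    have := h i
    change 0 < lam i b * lam i b' at this
    have := mul_neg_of_pos_of_neg h1 h2
    linarith
  · intro b d b' j hb hd hb' h1 h2 h3 ih hi hi' v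
    by_cases hji : j = i
    · subst hji
      have hd' : lam j d < 0 := by
        by_contra hcon
        push Not at hcon
        have := mul_nonneg hi.le hcon
        change lam j b * lam j d < 0 at h1
        linarith
      have h5 := D.t_mem_Z j d b' hd hb' (mul_pos_of_neg_of_neg hd' hi') v
      have h6 : D.t b v * (D.t d v)⁻¹ = D.cI j (lam j v) := by
        rcases D.t_step h1 h2 v with ⟨_, h⟩ | ⟨h0, _⟩
        · exact h
        · exact absurd h0 (not_lt.mpr hi.le)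
      have h7 := D.mem_Z.mp h5 (lam j v)
      have : D.t b v * (D.t b' v)⁻¹ * (D.cI j (lam j v))⁻¹ = D.t d v * (D.t b' v)⁻¹ := by
        have e : D.t b v * (D.t b' v)⁻¹ = (D.t b v * (D.t d v)⁻¹) * (D.t d v * (D.t b' v)⁻¹) := by
          group
        rw [e, h6, h7.eq]
        group
      rw [this]
      exact h5
    · have e1 : 0 < lam i b * lam i d := h2 i (Ne.symm hji)
      have hd' : 0 < lam i d := (pos_iff_pos_of_mul_pos e1).mp hi
      have h5 := ih hd' hi' v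
      have h6 : D.t b v * (D.t d v)⁻¹ ∈ D.Z i := by
        rcases D.t_step h1 h2 v with ⟨_, h⟩ | ⟨_, h⟩
        · rw [h]; exact D.cI_mem_Z hji _
        · rw [h]; exact Subgroup.inv_mem _ (D.cI_mem_Z hji _)
      have : D.t b v * (D.t b' v)⁻¹ * (D.cI i (lam i v))⁻¹
          = (D.t b v * (D.t d v)⁻¹) * (D.t d v * (D.t b' v)⁻¹ * (D.cI i (lam i v))⁻¹) := by group
      rw [this]
      exact Subgroup.mul_mem _ h6 h5

lemma gen_e0 : Gen (e0 ℝ : Fin (m + 1) → ℝ) := by
  intro ε; rw [lam_e0]; norm_num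

lemma gen_neg_e0 : Gen (-e0 ℝ : Fin (m + 1) → ℝ) := by
  intro ε; rw [lam_neg, lam_e0]; norm_num

lemma t_four' (k : ℤ) : D.t (e0 ℝ) (k • e0 ℤ) = D.t (-e0 ℝ) (k • e0 ℤ) := by
  rw [D.t_zsmul gen_e0, D.t_zsmul gen_neg_e0, D.t_four]

lemma cI_mem_Z_self (i : Finset (Fin m)) (k : ℤ) : D.cI i k ∈ D.Z i := by
  have h := D.t_mem_Z' i (e0 ℝ) (-e0 ℝ) gen_e0 gen_neg_e0 (by rw [lam_e0]; norm_num)
    (by rw [lam_neg, lam_e0]; norm_num) (k • e0 ℤ)
  rw [D.t_four', lam_smul, lam_e0] at h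
  simp only [mul_inv_cancel, smul_eq_mul, mul_one, one_mul] at h
  simpa using Subgroup.inv_mem _ h

/-- All crossing elements commute. -/
lemma cI_comm (i j : Finset (Fin m)) (k l : ℤ) : Commute (D.cI i k) (D.cI j l) := by
  by_cases hij : j = i
  · subst hij
    exact D.mem_Z.mp (D.cI_mem_Z_self j l) k
  · exact D.commute_of_ne hij k l

/-- The abelian normal subgroup generated by the crossing elements. -/
def KK : Subgroup P := Subgroup.closure {x | ∃ i k, x = D.cI i k}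

lemma KK_comm : ∀ x ∈ {x | ∃ i k, x = D.cI i k}, ∀ y ∈ {x | ∃ i k, x = D.cI i k},
    x * y = y * x := by
  rintro _ ⟨i, k, rfl⟩ _ ⟨j, l, rfl⟩
  exact D.cI_comm i j k l

instance instCommGroupKK : CommGroup D.KK :=
  { (inferInstance : Group D.KK) with
    mul_comm := fun a b => (Subgroup.isMulCommutative_closure D.KK_comm).is_comm.comm a b }

/-- crossing elements in `KK` -/
noncomputable def cK (i : Finset (Fin m)) (k : ℤ) : D.KK :=
  ⟨D.cI i k, Subgroup.subset_closure ⟨i, k, rfl⟩⟩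

lemma coe_cK (i : Finset (Fin m)) (k : ℤ) : ((D.cK i k : D.KK) : P) = D.cI i k := rfl

/-- the `γ`-elements -/
noncomputable def gK (i : Finset (Fin m)) (k : ℤ) : D.KK := D.cK i k * (D.cK i (k - 1))⁻¹

/-- Product formula. -/
lemma prod_formula : ∀ b b' : Fin (m + 1) → ℝ, Gen b → Gen b' →
    ∀ v, D.t b v * (D.t b' v)⁻¹ = ((∏ i ∈ univ.filter (fun i => lam i b * lam i b' < 0),
      (if 0 < lam i b then D.cK i (lam i v) else (D.cK i (lam i v))⁻¹) : D.KK) : P) := by
  refine gallery_induction (lamL (m := m)) pairIndep_lamL (motive := fun b b' =>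
    ∀ v, D.t b v * (D.t b' v)⁻¹ = ((∏ i ∈ univ.filter (fun i => lam i b * lam i b' < 0),
      (if 0 < lam i b then D.cK i (lam i v) else (D.cK i (lam i v))⁻¹) : D.KK) : P)) ?_ ?_
  · intro b b' hb hb' h v
    rw [D.t_same hb hb' h v, mul_inv_cancel]
    have : (univ.filter (fun i => lam i b * lam i b' < 0)) = ∅ := by
      ext i
      simp only [mem_filter, mem_univ, true_and, notMem_empty, iff_false, not_lt]
      exact (h i).le
    rw [this]
    simp
  · intro b d b' j hb hd hb' h1 h2 h3 ih v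
    have hmem : j ∈ univ.filter (fun i => lam i b * lam i b' < 0) := by
      simpa using h3
    rw [← Finset.mul_prod_erase _ _ hmem]
    have hset : (univ.filter (fun i => lam i b * lam i b' < 0)).erase j
        = univ.filter (fun i => lam i d * lam i b' < 0) := by
      ext k
      simp only [mem_erase, mem_filter, mem_univ, true_and]
      by_cases hk : k = j
      · subst hk
        simp only [ne_eq, not_true_eq_false, false_and, false_iff, not_lt]
        change lam k b * lam k d < 0 at h1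
        change lam k b * lam k b' < 0 at h3
        have g := mul_pos_of_neg_of_neg h1 h3
        have e : (lam k b * lam k d) * (lam k b * lam k b')
            = (lam k d * lam k b') * (lam k b * lam k b) := by ring
        by_contra hcon
        push Not at hcon
        have := mul_nonpos_of_nonpos_of_nonneg hcon.le (mul_self_nonneg (lam k b))
        linarith
      · simp only [ne_eq, hk, not_false_eq_true, true_and]
        have g2 : 0 < lam k b * lam k d := h2 k hk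
        constructor
        · intro h
          by_contra hcon
          have hne : lam k d * lam k b' ≠ 0 := mul_ne_zero (hd k) (hb' k)
          have g3 : 0 < lam k d * lam k b' := lt_of_le_of_ne (not_lt.mp hcon) hne.symm
          have g4 : 0 < lam k b * lam k b' := sign_trans (by rw [mul_comm]; exact g2) g3
          linarith
        · intro h
          by_contra hcon
          have hne : lam k b * lam k b' ≠ 0 := mul_ne_zero (hb k) (hb' k)
          have g3 : 0 < lam k b * lam k b' := lt_of_le_of_ne (not_lt.mp hcon) hne.symm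
          have g4 : 0 < lam k d * lam k b' := sign_trans g2 g3
          linarith
    rw [hset]
    have hprod : ∏ i ∈ univ.filter (fun i => lam i d * lam i b' < 0),
        (if 0 < lam i b then D.cK i (lam i v) else (D.cK i (lam i v))⁻¹)
        = ∏ i ∈ univ.filter (fun i => lam i d * lam i b' < 0),
        (if 0 < lam i d then D.cK i (lam i v) else (D.cK i (lam i v))⁻¹) := by
      rw [← hset]
      apply Finset.prod_congr rfl
      intro k hk
      rw [mem_erase] at hk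
      have g2 : 0 < lam k b * lam k d := h2 k hk.1
      have : (0 < lam k b) ↔ (0 < lam k d) := pos_iff_pos_of_mul_pos g2
      simp only [this]
    rw [hprod, Subgroup.coe_mul, ← ih v]
    rcases D.t_step h1 h2 v with ⟨h0, h⟩ | ⟨h0, h⟩
    · rw [if_pos h0, coe_cK, ← h]; group
    · rw [if_neg (not_lt.mpr h0.le), Subgroup.coe_inv, coe_cK, ← h]; group

lemma t_mul_inv_mem_KK {b b' : Fin (m + 1) → ℝ} (hb : Gen b) (hb' : Gen b')
    (v : Fin (m + 1) → ℤ) : D.t b v * (D.t b' v)⁻¹ ∈ D.KK := by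
  rw [D.prod_formula b b' hb hb' v]
  exact Subtype.property _

lemma filter_e0 : (univ.filter (fun i : Finset (Fin m) =>
    lam i (e0 ℝ : Fin (m + 1) → ℝ) * lam i (-e0 ℝ : Fin (m + 1) → ℝ) < 0)) = univ := by
  ext i
  simp [lam_neg, lam_e0]

lemma prod_e0 (v : Fin (m + 1) → ℤ) :
    D.t (e0 ℝ) v * (D.t (-e0 ℝ) v)⁻¹ = ((∏ i, D.cK i (lam i v) : D.KK) : P) := by
  rw [D.prod_formula _ _ gen_e0 gen_neg_e0 v, filter_e0]
  congr 1
  apply Finset.prod_congr rfl
  intro i _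
  rw [lam_e0, if_pos (by norm_num)]

/-- The relation attached to a lattice vector holds. -/
lemma relation (v : Fin (m + 1) → ℤ) : ∏ i, D.gK i (lam i v) = 1 := by
  have h1 : D.t (e0 ℝ) v * (D.t (-e0 ℝ) v)⁻¹
      = D.t (e0 ℝ) (v - e0 ℤ) * (D.t (-e0 ℝ) (v - e0 ℤ))⁻¹ := by
    have hv : v = (v - e0 ℤ) + e0 ℤ := by abel
    conv_lhs => rw [hv]
    rw [D.t_add _ gen_e0, D.t_add _ gen_neg_e0, D.t_four]
    group
  rw [D.prod_e0, D.prod_e0] at h1
  have h2 := Subtype.ext h1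
  simp only [lam_sub, lam_e0] at h2
  simp only [gK, Finset.prod_mul_distrib, Finset.prod_inv_distrib]
  rw [h2, mul_inv_cancel]

/-- Conjugation formula. -/
lemma conj_cI (i : Finset (Fin m)) (l : ℤ) (v : Fin (m + 1) → ℤ) :
    D.t (e0 ℝ) v * D.cI i l * (D.t (e0 ℝ) v)⁻¹ = D.cI i (l + lam i v) * (D.cI i (lam i v))⁻¹ := by
  obtain ⟨b, b', h⟩ := D.exists_adjP i
  have h1 : D.t b v * D.cI i l * (D.t b v)⁻¹ = D.cI i (l + lam i v) * (D.cI i (lam i v))⁻¹ := by
    have e1 : lam i (l • e0 ℤ) = l := by rw [lam_smul, lam_e0]; simp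
    have e2 : lam i (v + l • e0 ℤ) = l + lam i v := by rw [lam_add, e1]; ring
    rw [← D.cI_eq h e1, ← D.cI_eq h e2, ← D.cI_eq h (rfl : lam i v = lam i v),
      D.t_add b h.gen, D.t_add b' h.gen']
    group
  have h2 : D.t (e0 ℝ) v * (D.t b v)⁻¹ ∈ D.Z i :=
    D.t_mem_Z i _ b gen_e0 h.gen (by rw [lam_e0, one_mul]; exact h.pos) v
  have h3 : D.t (e0 ℝ) v * D.cI i l * (D.t (e0 ℝ) v)⁻¹
      = (D.t (e0 ℝ) v * (D.t b v)⁻¹) * (D.t b v * D.cI i l * (D.t b v)⁻¹)
        * (D.t (e0 ℝ) v * (D.t b v)⁻¹)⁻¹ := by group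
  rw [h3, h1]
  have h4 := D.mem_Z.mp h2 (l + lam i v)
  have h5 := D.mem_Z.mp h2 (lam i v)
  have h6 := (h4.mul_left h5.inv_left).eq
  rw [← h6]
  group

lemma conj_mem_KK (v : Fin (m + 1) → ℤ) {x : P} (hx : x ∈ D.KK) :
    D.t (e0 ℝ) v * x * (D.t (e0 ℝ) v)⁻¹ ∈ D.KK := by
  have : D.KK ≤ Subgroup.comap (MulAut.conj (D.t (e0 ℝ) v)).toMonoidHom D.KK := by
    rw [KK, Subgroup.closure_le]
    rintro _ ⟨i, k, rfl⟩
    change D.t (e0 ℝ) v * D.cI i k * (D.t (e0 ℝ) v)⁻¹ ∈ D.KK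
    rw [D.conj_cI]
    exact Subgroup.mul_mem _ (Subgroup.subset_closure ⟨_, _, rfl⟩)
      (Subgroup.inv_mem _ (Subgroup.subset_closure ⟨_, _, rfl⟩))
  exact this hx

/-- Normal form. -/
lemma normal_form (x : P) : ∃ κ : D.KK, ∃ v, x = κ * D.t (e0 ℝ) v := by
  have hx : x ∈ Subgroup.closure {x | ∃ b v, Gen b ∧ x = D.t b v} := by
    rw [D.gen]; exact Subgroup.mem_top x
  induction hx using Subgroup.closure_induction with
  | mem x hx =>
    obtain ⟨b, v, hb, rfl⟩ := hx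
    refine ⟨⟨_, D.t_mul_inv_mem_KK hb gen_e0 v⟩, v, ?_⟩
    simp
  | one => exact ⟨1, 0, by rw [D.t_zero gen_e0]; simp⟩
  | mul x y _ _ hx hy =>
    obtain ⟨κ, v, rfl⟩ := hx
    obtain ⟨κ', v', rfl⟩ := hy
    refine ⟨κ * ⟨_, D.conj_mem_KK v κ'.2⟩, v + v', ?_⟩
    rw [D.t_add _ gen_e0, Subgroup.coe_mul]
    group
  | inv x _ hx =>
    obtain ⟨κ, v, rfl⟩ := hx
    refine ⟨⟨_, D.conj_mem_KK (-v) (Subgroup.inv_mem _ κ.2)⟩, -v, ?_⟩
    change _ = D.t (e0 ℝ) (-v) * (κ : P)⁻¹ * (D.t (e0 ℝ) (-v))⁻¹ * D.t (e0 ℝ) (-v)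
    rw [D.t_neg gen_e0]
    group

end Pres

end Pool.Agent.Q71.NC
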