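import Pool.Agent.Q71.NC.Alg2

/-!
# The abstract group theory of wall crossing, III: injectivity, torsion-freeness, nilpotency class
-/

namespace Pool.Agent.Q71.NC

open Finset Filter Topology LaurentPolynomial
open scoped commutatorElement

variable {m : ℕ}

lemma map_ev {A B : Type*} [AddCommGroup A] [AddCommGroup B] (f : A →+ B) (g : ℤ → A)
    (p : ℤ[T;T⁻¹]) : f (ev g p) = ev (fun k => f (g k)) p := by
  induction p using LaurentPolynomial.induction_on' with
  | add p q hp hq => rw [map_add, map_add, map_add, hp, hq]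
  | C_mul_T n b => rw [ev_C_mul_T, ev_C_mul_T, map_zsmul]

lemma Deg_zero_fun (d : ℕ) : Deg d (0 : ℤ → ℤ) := by
  unfold Deg
  induction d with
  | zero => rfl
  | succ d ih =>
    rw [Function.iterate_succ_apply]
    have : dl 0 = 0 := by funext k; simp [dl]
    rw [this, ih]

lemma Deg_succ_of_Deg {d : ℕ} {f : ℤ → ℤ} (h : Deg d f) : Deg (d + 1) f := by
  unfold Deg at *
  rw [Function.iterate_succ_apply', h]
  funext k; simp [dl]

namespace Pres

variable {P : Type*} [Group P] (D : Pres m P)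

lemma vv_one : D.vv 1 = 0 := by
  have := D.vv_mul 1 1
  rw [mul_one] at this
  exact left_eq_add.mp this

lemma vv_inv (x : P) : D.vv x⁻¹ = -D.vv x := by
  have := D.vv_mul x x⁻¹
  rw [mul_inv_cancel, D.vv_one] at this
  exact (neg_eq_of_add_eq_zero_right this.symm).symm

lemma r_one {φ : Finset (Fin m) → ℤ → ℤ} (h : φ ∈ Adm m) : D.r 1 φ = 0 := by
  have := D.r_mul 1 1 φ h
  rw [mul_one, D.vv_one, shiftA_zero] at this
  linarith

lemma r_inv (x : P) {φ : Finset (Fin m) → ℤ → ℤ} (h : φ ∈ Adm m) :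
    D.r x⁻¹ φ = -D.r x (shiftA (-D.vv x) φ) := by
  have := D.r_mul x x⁻¹ φ h
  rw [mul_inv_cancel, D.r_one h, D.vv_inv] at this
  linarith

lemma r_inv' {x : P} (hx : D.vv x = 0) {φ : Finset (Fin m) → ℤ → ℤ} (h : φ ∈ Adm m) :
    D.r x⁻¹ φ = -D.r x φ := by
  rw [D.r_inv x h, hx, neg_zero, shiftA_zero]

lemma r_mul' (x : P) {y : P} (hy : D.vv y = 0) {φ : Finset (Fin m) → ℤ → ℤ} (h : φ ∈ Adm m) :
    D.r (x * y) φ = D.r y φ + D.r x φ := by
  rw [D.r_mul x y φ h, hy, shiftA_zero]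

lemma r_zero (x : P) : D.r x 0 = 0 := by
  have := D.r_add x 0 (Adm m).zero_mem 0 (Adm m).zero_mem
  rw [add_zero] at this
  linarith

lemma r_neg (x : P) {φ : Finset (Fin m) → ℤ → ℤ} (h : φ ∈ Adm m) : D.r x (-φ) = -D.r x φ := by
  have := D.r_add x φ h (-φ) ((Adm m).neg_mem h)
  rw [add_neg_cancel, D.r_zero] at this
  linarith

lemma r_sub (x : P) {φ ψ : Finset (Fin m) → ℤ → ℤ} (h : φ ∈ Adm m) (h' : ψ ∈ Adm m) :
    D.r x (φ - ψ) = D.r x φ - D.r x ψ := by
  rw [sub_eq_add_neg, D.r_add x φ h _ ((Adm m).neg_mem h'), D.r_neg x h']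
  ring

lemma vv_cI (i : Finset (Fin m)) (k : ℤ) : D.vv (D.cI i k) = 0 := by
  obtain ⟨b, b', h⟩ := D.exists_adjP i
  have e1 : lam i (k • e0 ℤ) = k := by rw [lam_smul, lam_e0]; simp
  rw [← D.cI_eq h e1, D.vv_mul, D.vv_inv, D.vv_t _ _ h.gen, D.vv_t _ _ h.gen']
  simp

lemma vv_KK {x : P} (hx : x ∈ D.KK) : D.vv x = 0 := by
  induction hx using Subgroup.closure_induction with
  | mem x hx => obtain ⟨i, k, rfl⟩ := hx; exact D.vv_cI i k
  | one => exact D.vv_one
  | mul x y _ _ hx hy => rw [D.vv_mul, hx, hy, add_zero]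
  | inv x _ hx => rw [D.vv_inv, hx, neg_zero]

lemma r_cI (i : Finset (Fin m)) (k : ℤ) {ψ : Finset (Fin m) → ℤ → ℤ} (hψ : ψ ∈ Adm m) :
    D.r (D.cI i k) ψ = anti (ψ i) (-k) := by
  obtain ⟨b, b', h⟩ := D.exists_adjP i
  set v : Fin (m + 1) → ℤ := k • e0 ℤ with hv
  have e1 : lam i v = k := by rw [hv, lam_smul, lam_e0]; simp
  have hc := D.cI_eq h e1
  have hc' : D.t b v = D.cI i k * D.t b' v := by rw [← hc]; group
  set φ := shiftA (-v) ψ with hφ
  have hφm : φ ∈ Adm m := shiftA_mem hψ _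
  have h1 := D.r_mul (D.cI i k) (D.t b' v) φ hφm
  rw [← hc', D.vv_t _ _ h.gen', hφ, shiftA_shiftA, add_neg_cancel, shiftA_zero, ← hφ,
    D.r_t _ _ h.gen φ hφm, D.r_t _ _ h.gen' φ hφm] at h1
  have hset : univ.filter (fun ε => lam ε b' < 0)
      = insert i (univ.filter (fun ε => lam ε b < 0)) := by
    ext ε
    simp only [mem_filter, mem_univ, true_and, mem_insert]
    by_cases hε : ε = i
    · subst hε; simp [h.neg]
    · have := h.same ε hε
      simp only [hε, false_or]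
      exact (neg_iff_neg_of_mul_pos this).symm
  have hni : i ∉ univ.filter (fun ε => lam ε b < 0) := by
    simp only [mem_filter, mem_univ, true_and, not_lt]
    exact h.pos.le
  rw [hset, sum_insert hni, e1] at h1
  have h2 : φ i = fun l => ψ i (l + (-k)) := by
    funext l
    rw [hφ]
    simp only [shiftA, lam_neg, e1]
  rw [h2, anti_shift] at h1
  have h3 : k + -k = 0 := by ring
  rw [h3, anti_zero] at h1
  linarith

lemma r_gK (i : Finset (Fin m)) (k : ℤ) {φ : Finset (Fin m) → ℤ → ℤ} (hφ : φ ∈ Adm m) :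
    D.r (D.gK i k : D.KK) φ = -φ i (1 - k) := by
  have : ((D.gK i k : D.KK) : P) = D.cI i k * (D.cI i (k - 1))⁻¹ := rfl
  have hv := D.vv_cI i (k - 1)
  have hv' : D.vv (D.cI i (k - 1))⁻¹ = 0 := by rw [D.vv_inv, hv, neg_zero]
  rw [this, D.r_mul' _ hv' hφ, D.r_inv' hv hφ, D.r_cI _ _ hφ, D.r_cI _ _ hφ]
  have e1 : -(k - 1) = -k + 1 := by ring
  have e2 : 1 - k = -k + 1 := by ring
  rw [e1, e2, anti_succ]
  ring

/-- `r · φ` as an additive map on `KK`. -/
def rK {φ : Finset (Fin m) → ℤ → ℤ} (hφ : φ ∈ Adm m) : Additive D.KK →+ ℤ where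
  toFun x := D.r ((Additive.toMul x : D.KK) : P) φ
  map_zero' := D.r_one hφ
  map_add' x y := by
    change D.r (((Additive.toMul x : D.KK) : P) * ((Additive.toMul y : D.KK) : P)) φ = _
    rw [D.r_mul' _ (D.vv_KK (Subtype.property _)) hφ]
    ring

/-- The parametrisation of `KK`. -/
noncomputable def Psi : (Finset (Fin m) → ℤ[T;T⁻¹]) →+ Additive D.KK where
  toFun n := ∑ ε, ev (fun k => Additive.ofMul (D.gK ε k)) (n ε)
  map_zero' := by simp
  map_add' n n' := by simp [sum_add_distrib]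

lemma Psi_apply (n : Finset (Fin m) → ℤ[T;T⁻¹]) :
    D.Psi n = ∑ ε, ev (fun k => Additive.ofMul (D.gK ε k)) (n ε) := rfl

lemma Psi_rho (v : Fin (m + 1) → ℤ) : D.Psi (rho v) = 0 := by
  rw [Psi_apply]
  simp only [rho, ev_T]
  rw [← ofMul_prod, D.relation v]
  rfl

lemma Psi_eq_zero {n : Finset (Fin m) → ℤ[T;T⁻¹]}
    (h : n ∈ AddSubgroup.closure (Set.range (rho (m := m)))) : D.Psi n = 0 := by
  have : AddSubgroup.closure (Set.range (rho (m := m))) ≤ D.Psi.ker := by
    rw [AddSubgroup.closure_le]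
    rintro _ ⟨v, rfl⟩
    exact D.Psi_rho v
  exact this h

lemma Psi_single (i : Finset (Fin m)) (k : ℤ) :
    D.Psi (Pi.single i (T k)) = Additive.ofMul (D.gK i k) := by
  rw [Psi_apply, Finset.sum_eq_single i]
  · rw [Pi.single_eq_same, ev_T]
  · intro j _ hj
    rw [Pi.single_eq_of_ne hj, map_zero]
  · simp

lemma cK_zero (i : Finset (Fin m)) : D.cK i 0 = 1 := Subtype.ext (D.cI_zero i)

lemma cK_succ (i : Finset (Fin m)) (k : ℤ) : D.cK i (k + 1) = D.gK i (k + 1) * D.cK i k := by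
  unfold gK
  have : k + 1 - 1 = k := by ring
  rw [this]
  simp

lemma ofMul_cK_mem (i : Finset (Fin m)) (k : ℤ) : Additive.ofMul (D.cK i k) ∈ D.Psi.range := by
  induction k using Int.induction_on with
  | zero => rw [D.cK_zero]; exact AddSubgroup.zero_mem _
  | succ k ih =>
    rw [D.cK_succ, ofMul_mul]
    exact AddSubgroup.add_mem _ ⟨_, D.Psi_single i _⟩ ih
  | pred k ih =>
    have h1 := D.cK_succ i (-(k : ℤ) - 1)
    have e : -(k : ℤ) - 1 + 1 = -(k : ℤ) := by ring
    rw [e] at h1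
    have h2 : D.cK i (-(k : ℤ) - 1) = (D.gK i (-(k : ℤ)))⁻¹ * D.cK i (-(k : ℤ)) := by
      rw [h1]; simp
    rw [h2, ofMul_mul, ofMul_inv]
    exact AddSubgroup.add_mem _ (AddSubgroup.neg_mem _ ⟨_, D.Psi_single i _⟩) ih

lemma Psi_surjective (κ : D.KK) : ∃ n, D.Psi n = Additive.ofMul κ := by
  obtain ⟨x, hx⟩ := κ
  induction hx using Subgroup.closure_induction with
  | mem x hx => obtain ⟨i, k, rfl⟩ := hx; exact D.ofMul_cK_mem i k
  | one => exact ⟨0, by rw [map_zero]; rfl⟩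
  | mul x y hx hy hx' hy' =>
    obtain ⟨n, hn⟩ := hx'
    obtain ⟨n', hn'⟩ := hy'
    exact ⟨n + n', by rw [map_add, hn, hn']; rfl⟩
  | inv x hx hx' =>
    obtain ⟨n, hn⟩ := hx'
    exact ⟨-n, by rw [map_neg, hn]; rfl⟩

/-- **Injectivity**: an element is trivial if it is not seen by `vv` and `r`. -/
theorem eq_one_of {x : P} (hv : D.vv x = 0) (hr : ∀ φ ∈ Adm m, D.r x φ = 0) : x = 1 := by
  obtain ⟨κ, v, rfl⟩ := D.normal_form x
  rw [D.vv_mul, D.vv_KK κ.2, D.vv_t _ _ gen_e0, zero_add] at hv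
  subst hv
  rw [D.t_zero gen_e0, mul_one] at hr ⊢
  obtain ⟨n, hn⟩ := D.Psi_surjective κ
  have h1 : n ∈ AddSubgroup.closure (Set.range (rho (m := m))) := by
    apply detect
    intro φ hφ
    have hφ' : (fun ε k => φ ε (1 - k)) ∈ Adm m := by
      intro v
      have := hφ (e0 ℤ - v)
      simp only [lam_sub, lam_e0] at this
      exact this
    have h2 := hr _ hφ'
    have h3 : D.rK hφ' (D.Psi n) = 0 := by rw [hn]; exact h2
    rw [Psi_apply, map_sum] at h3
    simp only [map_ev] at h3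
    have h4 : ∀ ε : Finset (Fin m), (fun k => D.rK hφ' (Additive.ofMul (D.gK ε k)))
        = fun k => -(φ ε k) := by
      intro ε
      funext k
      change D.r (D.gK ε k : D.KK) _ = _
      rw [D.r_gK _ _ hφ']
      simp
    simp only [h4] at h3
    have h5 : ∀ ε : Finset (Fin m), ev (fun k => -(φ ε k)) (n ε) = -ev (φ ε) (n ε) := by
      intro ε
      have := map_ev (-(AddMonoidHom.id ℤ)) (φ ε) (n ε)
      simpa using this.symm
    simp only [h5, Finset.sum_neg_distrib, neg_eq_zero] at h3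
    exact h3
  have h6 := D.Psi_eq_zero h1
  rw [hn] at h6
  have h7 : κ = 1 := h6
  rw [h7]
  rfl

include D in
/-- Torsion-freeness. -/
theorem torsionFree {x : P} {n : ℕ} (hn : n ≠ 0) (h : x ^ n = 1) : x = 1 := by
  have hv : ∀ k : ℕ, D.vv (x ^ k) = k • D.vv x := by
    intro k
    induction k with
    | zero => simp [D.vv_one]
    | succ k ih => rw [pow_succ, D.vv_mul, ih, succ_nsmul]
  have hvx : D.vv x = 0 := by
    have := hv n
    rw [h, D.vv_one] at this
    funext j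
    have h2 := congrFun this j
    simp only [Pi.zero_apply, Pi.smul_apply, nsmul_eq_mul] at h2
    have hn' : (n : ℤ) ≠ 0 := by exact_mod_cast hn
    rcases mul_eq_zero.mp h2.symm with h3 | h3
    · exact absurd h3 hn'
    · exact h3
  apply D.eq_one_of hvx
  intro φ hφ
  have hr : ∀ k : ℕ, D.r (x ^ k) φ = k * D.r x φ := by
    intro k
    induction k with
    | zero => simp [D.r_one hφ]
    | succ k ih =>
      rw [pow_succ, D.r_mul' _ hvx hφ, ih]
      push_cast
      ring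
  have := hr n
  rw [h, D.r_one hφ] at this
  have hn' : (n : ℤ) ≠ 0 := by exact_mod_cast hn
  rcases mul_eq_zero.mp this.symm with h3 | h3
  · exact absurd h3 hn'
  · exact h3

/-- The descending central series. -/
def HH : ℕ → Subgroup P
  | 0 => ⊤
  | j + 1 =>
    { carrier := {x | D.vv x = 0 ∧ ∀ φ ∈ Adm m, (∀ ε, Deg (j + 1) (φ ε)) → D.r x φ = 0}
      mul_mem' := by
        rintro a b ⟨ha, ha'⟩ ⟨hb, hb'⟩
        refine ⟨by rw [D.vv_mul, ha, hb, add_zero], ?_⟩
        intro φ hφ hd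
        rw [D.r_mul' _ hb hφ, ha' φ hφ hd, hb' φ hφ hd, add_zero]
      one_mem' := ⟨D.vv_one, fun φ hφ _ => D.r_one hφ⟩
      inv_mem' := by
        rintro a ⟨ha, ha'⟩
        refine ⟨by rw [D.vv_inv, ha, neg_zero], ?_⟩
        intro φ hφ hd
        rw [D.r_inv' ha hφ, ha' φ hφ hd, neg_zero] }

lemma mem_HH_succ {j : ℕ} {x : P} : x ∈ D.HH (j + 1) ↔
    D.vv x = 0 ∧ ∀ φ ∈ Adm m, (∀ ε, Deg (j + 1) (φ ε)) → D.r x φ = 0 := Iff.rfl

lemma vv_commutator (x g : P) : D.vv ⁅x, g⁆ = 0 := by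
  rw [commutatorElement_def, D.vv_mul, D.vv_mul, D.vv_mul, D.vv_inv, D.vv_inv]
  abel

lemma r_commutator {x : P} (hx : D.vv x = 0) (g : P) {φ : Finset (Fin m) → ℤ → ℤ}
    (hφ : φ ∈ Adm m) : D.r ⁅x, g⁆ φ = -D.r x (diffA (-D.vv g) φ) := by
  have hψ : shiftA (-D.vv g) φ ∈ Adm m := shiftA_mem hφ _
  have hx' : D.vv x⁻¹ = 0 := by rw [D.vv_inv, hx, neg_zero]
  rw [commutatorElement_def, D.r_mul _ g⁻¹ φ hφ, D.vv_inv, D.r_mul' _ hx' hψ, D.r_inv' hx hψ,
    D.r_mul x g _ hψ, shiftA_shiftA, add_neg_cancel, shiftA_zero, D.r_inv g hφ, diffA,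
    D.r_sub x hψ hφ]
  ring

lemma HH_descending : Subgroup.IsDescendingCentralSeries D.HH := by
  refine ⟨rfl, ?_⟩
  intro x n hx g
  rw [mem_HH_succ]
  refine ⟨D.vv_commutator x g, ?_⟩
  intro φ hφ hd
  cases n with
  | zero =>
    have hconst : ∀ v, shiftA v φ = φ := by
      intro v
      funext ε k
      have h1 : dl (φ ε) = 0 := hd ε
      simp only [shiftA]
      rw [const_of_dl h1, const_of_dl h1 k]
    have hmul : ∀ a b, D.r (a * b) φ = D.r b φ + D.r a φ := by
      intro a b; rw [D.r_mul a b φ hφ, hconst]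
    have hinv : ∀ a, D.r a⁻¹ φ = -D.r a φ := by
      intro a; rw [D.r_inv a hφ, hconst]
    rw [commutatorElement_def, hmul, hmul, hmul, hinv, hinv]
    ring
  | succ n =>
    rw [mem_HH_succ] at hx
    rw [D.r_commutator hx.1 g hφ, hx.2 _ (diffA_mem hφ _), neg_zero]
    intro ε
    exact Deg_diff (hd ε) _

lemma HH_eq_bot (hm : 1 ≤ m) : D.HH m = ⊥ := by
  obtain ⟨j, rfl⟩ : ∃ j, m = j + 1 := ⟨m - 1, by omega⟩
  rw [eq_bot_iff]
  intro x hx
  rw [mem_HH_succ] at hx
  rw [Subgroup.mem_bot]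
  apply D.eq_one_of hx.1
  intro φ hφ
  exact hx.2 φ hφ (fun ε => Deg_of_mem_Adm hφ ε)

include D in
theorem isNilpotent (hm : 1 ≤ m) : Group.IsNilpotent P := by
  rw [Subgroup.nilpotent_iff_lowerCentralSeries]
  refine ⟨m, ?_⟩
  rw [eq_bot_iff, ← D.HH_eq_bot hm]
  exact Subgroup.descending_central_series_ge_lower D.HH D.HH_descending m

/-- iterated commutators -/
def itc (x y : P) : ℕ → P
  | 0 => x
  | n + 1 => ⁅itc x y n, y⁆

lemma itc_mem (x y : P) (n : ℕ) : itc x y n ∈ Subgroup.lowerCentralSeries (⊤ : Subgroup P) n := by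
  induction n with
  | zero => exact Subgroup.mem_top _
  | succ n ih =>
    exact Subgroup.commutator_mem_commutator ih (Subgroup.mem_top _)

lemma vv_itc {x : P} (hx : D.vv x = 0) (y : P) (n : ℕ) : D.vv (itc x y n) = 0 := by
  cases n with
  | zero => exact hx
  | succ n => exact D.vv_commutator _ _

lemma r_itc {x : P} (hx : D.vv x = 0) (y : P) (n : ℕ) : ∀ {φ : Finset (Fin m) → ℤ → ℤ},
    φ ∈ Adm m → D.r (itc x y n) φ = (-1) ^ n * D.r x ((diffA (-D.vv y))^[n] φ) := by
  induction n with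
  | zero => intro φ _; simp [itc]
  | succ n ih =>
    intro φ hφ
    change D.r ⁅itc x y n, y⁆ φ = _
    rw [D.r_commutator (D.vv_itc hx y n) y hφ, ih (diffA_mem hφ _), ← Function.iterate_succ_apply]
    ring

lemma exists_deg (d : ℕ) : ∃ f : ℤ → ℤ, dl^[d] f = fun _ => 1 := by
  induction d with
  | zero => exact ⟨fun _ => 1, rfl⟩
  | succ d ih =>
    obtain ⟨f, hf⟩ := ih
    exact ⟨fun k => anti f (k - 1), by rw [Function.iterate_succ_apply, dl_anti, hf]⟩

lemma diffA_iter (f : ℤ → ℤ) (d : ℕ) : ∀ (φ : Finset (Fin m) → ℤ → ℤ) (ε : Finset (Fin m))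
    (c : ℤ), φ ε = (fun k => c * f k) →
    (diffA (-e0 ℤ))^[d] φ ε = fun k => c * ((-1) ^ d * (dl^[d] f) (k - d)) := by
  induction d generalizing f with
  | zero => intro φ ε c h; rw [Function.iterate_zero, id, h]; simp
  | succ d ih =>
    intro φ ε c h
    rw [Function.iterate_succ_apply]
    have h1 : diffA (-e0 ℤ) φ ε = fun k => (-c) * (fun l => dl f (l - 1)) k := by
      funext k
      change φ ε (k + lam ε (-e0 ℤ)) - φ ε k = _
      rw [h, lam_neg, lam_e0]
      simp only [dl]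
      have e : k + -1 = k - 1 := by ring
      rw [e]
      have e2 : k - 1 + 1 = k := by ring
      rw [e2]
      ring
    rw [ih _ _ _ _ h1]
    have h2 : ∀ (d : ℕ) (g : ℤ → ℤ) (a : ℤ), dl^[d] (fun l => g (l + a)) = fun l => (dl^[d] g) (l + a) := by
      intro d
      induction d with
      | zero => intro g a; rfl
      | succ d ihd =>
        intro g a
        rw [Function.iterate_succ_apply]
        have : dl (fun l => g (l + a)) = fun l => (dl g) (l + a) := by
          funext l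
          simp only [dl]
          have : l + 1 + a = l + a + 1 := by ring
          rw [this]
        rw [this, ihd]
        rfl
    funext k
    have h3 : (fun l => dl f (l - 1)) = fun l => dl f (l + (-1)) := by
      funext l; congr 1
    rw [h3, h2, Function.iterate_succ_apply]
    have e : k - (d : ℤ) + -1 = k - ((d + 1 : ℕ) : ℤ) := by push_cast; ring
    change -c * ((-1) ^ d * (dl^[d] (dl f)) (k - (d : ℤ) + -1)) = _
    rw [e]
    ring

include D in
/-- The class is at least `m`. -/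
theorem lcs_ne_bot (hm : 1 ≤ m) : Subgroup.lowerCentralSeries (⊤ : Subgroup P) (m - 1) ≠ ⊥ := by
  intro hbot
  obtain ⟨f, hf⟩ := exists_deg (m - 1)
  have hdeg : Deg m f := by
    unfold Deg
    have : m = (m - 1) + 1 := by omega
    rw [this, Function.iterate_succ_apply', hf]
    funext k; simp [dl]
  have hφ : phiS (univ : Finset (Fin m)) f ∈ Adm m := phiS_mem _ _ (by simpa using hdeg)
  set x : P := ((D.gK ∅ 0 : D.KK) : P) with hx
  have hvx : D.vv x = 0 := D.vv_KK (Subtype.property _)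
  have h1 := itc_mem x (D.t (e0 ℝ) (e0 ℤ)) (m - 1)
  rw [hbot, Subgroup.mem_bot] at h1
  have h2 := D.r_itc hvx (D.t (e0 ℝ) (e0 ℤ)) (m - 1) hφ
  rw [h1, D.r_one hφ, D.vv_t _ _ gen_e0] at h2
  have hmem : ∀ n : ℕ, (diffA (-e0 ℤ))^[n] (phiS (univ : Finset (Fin m)) f) ∈ Adm m := by
    intro n
    induction n with
    | zero => exact hφ
    | succ n ih => rw [Function.iterate_succ_apply']; exact diffA_mem ih _
  rw [hx, D.r_gK _ _ (hmem _)] at h2
  have h3 := diffA_iter f (m - 1) (phiS (univ : Finset (Fin m)) f) ∅ 1 (by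
    funext k; simp [phiS])
  rw [h3, hf] at h2
  simp at h2

include D in
theorem nilpotencyClass_eq (hm : 1 ≤ m) :
    haveI := D.isNilpotent hm
    Group.nilpotencyClass P = m := by
  haveI := D.isNilpotent hm
  apply le_antisymm
  · rw [← Subgroup.lowerCentralSeries_eq_bot_iff_nilpotencyClass_le]
    rw [eq_bot_iff, ← D.HH_eq_bot hm]
    exact Subgroup.descending_central_series_ge_lower D.HH D.HH_descending m
  · by_contra hcon
    push Not at hcon
    have : Group.nilpotencyClass P ≤ m - 1 := by omega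
    rw [← Subgroup.lowerCentralSeries_eq_bot_iff_nilpotencyClass_le] at this
    exact D.lcs_ne_bot hm this

end Pres

end Pool.Agent.Q71.NC
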