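import Mathlib

/-!
# Complements of complex hypersurfaces are path connected
-/

namespace Pool.Agent.Q71.NC

/-- The complement of the zero set of a complex polynomial is path connected. -/
theorem pathConnected_compl {n : ℕ} (h : MvPolynomial (Fin n) ℂ)
    (x₀ : {x : Fin n → ℂ // MvPolynomial.eval x h ≠ 0}) :
    PathConnectedSpace {x : Fin n → ℂ // MvPolynomial.eval x h ≠ 0} := by
  refine ⟨⟨x₀⟩, ?_⟩
  intro a b
  let P : Polynomial ℂ := MvPolynomial.aeval
    (fun i => Polynomial.C (a.1 i) + Polynomial.X * Polynomial.C (b.1 i - a.1 i)) h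
  have hP : ∀ z : ℂ, P.eval z = MvPolynomial.eval (fun i => a.1 i + z * (b.1 i - a.1 i)) h := by
    intro z
    have h1 : (Polynomial.aeval z).comp (MvPolynomial.aeval
        (fun i => Polynomial.C (a.1 i) + Polynomial.X * Polynomial.C (b.1 i - a.1 i)))
        = (MvPolynomial.aeval (fun i => a.1 i + z * (b.1 i - a.1 i)) :
          MvPolynomial (Fin n) ℂ →ₐ[ℂ] ℂ) := by
      apply MvPolynomial.algHom_ext
      intro i
      simp
    have h2 := congrArg (fun f => f h) h1
    simp only [AlgHom.comp_apply] at h2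
    rw [← Polynomial.coe_aeval_eq_eval, ← MvPolynomial.coe_aeval_eq_eval]
    exact h2
  have hP0 : P ≠ 0 := by
    intro h0
    have := hP 0
    rw [h0] at this
    simp only [Polynomial.eval_zero, zero_mul, add_zero] at this
    exact a.2 this.symm
  have hfin : {z : ℂ | P.eval z = 0}.Finite := by
    have : {z : ℂ | P.eval z = 0} = ↑P.roots.toFinset := by
      ext z
      simp [hP0, Polynomial.IsRoot]
    rw [this]
    exact Finset.finite_toSet _
  have hconn : IsPathConnected {z : ℂ | P.eval z = 0}ᶜ :=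
    hfin.countable.isPathConnected_compl_of_one_lt_rank (by
      rw [Complex.rank_real_complex]
      exact Nat.one_lt_ofNat)
  have h0 : (0 : ℂ) ∈ {z : ℂ | P.eval z = 0}ᶜ := by
    simp only [Set.mem_compl_iff, Set.mem_ofPred_eq, hP, zero_mul, add_zero]
    exact a.2
  have h1 : (1 : ℂ) ∈ {z : ℂ | P.eval z = 0}ᶜ := by
    simp only [Set.mem_compl_iff, Set.mem_ofPred_eq, hP, one_mul, add_sub_cancel]
    exact b.2
  obtain ⟨γ, hγ⟩ := hconn.joinedIn 0 h0 1 h1
  refine ⟨⟨⟨fun t => ⟨fun i => a.1 i + γ t * (b.1 i - a.1 i), ?_⟩, ?_⟩, ?_, ?_⟩⟩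
  · rw [← hP]
    exact hγ t
  · fun_prop
  · apply Subtype.ext
    funext i
    simp
  · apply Subtype.ext
    funext i
    simp

end Pool.Agent.Q71.NC
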