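import Mathlib

/-!
# Galleries for finite families of real linear functionals

For a finite family `μ : ι → Module.Dual ℝ V` of pairwise non-proportional functionals, two generic
points which are separated by some wall can be connected in such a way that the first step crosses
exactly one separating wall.
-/

namespace Pool.Agent.Q71.NC

open Filter Topology

variable {V : Type*} [AddCommGroup V] [Module ℝ V] {ι : Type*} [Finite ι]

/-- The functionals are pairwise linearly independent. -/
def PairIndep (μ : ι → Module.Dual ℝ V) : Prop :=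
  ∀ i j, i ≠ j → ∀ a c : ℝ, (∀ z, a * μ i z + c * μ j z = 0) → a = 0 ∧ c = 0

/-- A point off all walls. -/
def GenP (μ : ι → Module.Dual ℝ V) (b : V) : Prop := ∀ i, μ i b ≠ 0

lemma mul_pos_of_sign {x y : ℝ} (hx : x ≠ 0) (hy : y ≠ 0) (h : ¬ x * y < 0) : 0 < x * y :=
  lt_of_le_of_ne (not_lt.mp h) (mul_ne_zero hx hy).symm

/-- Perturbation: for small positive `δ` signs are kept and a nonzero affine function is nonzero. -/
lemma eventually_ne_zero_affine (p q : ℝ) (hq : q ≠ 0) :
    ∀ᶠ δ : ℝ in 𝓝[>] 0, p + δ * q ≠ 0 := by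
  by_cases hp : p = 0
  · subst hp
    filter_upwards [self_mem_nhdsWithin] with δ hδ
    simpa using ⟨(ne_of_gt hδ), hq⟩
  · have h1 : Tendsto (fun δ : ℝ => p + δ * q) (𝓝[>] 0) (𝓝 (p + 0 * q)) := by
      apply Tendsto.mono_left _ nhdsWithin_le_nhds
      exact Continuous.tendsto (by fun_prop) 0
    simp only [zero_mul, add_zero] at h1
    exact h1.eventually_ne hp

lemma eventually_sign_affine (p q : ℝ) (hp : p ≠ 0) :
    ∀ᶠ δ : ℝ in 𝓝[>] 0, 0 < (p + δ * q) * p := by
  have h1 : Tendsto (fun δ : ℝ => (p + δ * q) * p) (𝓝[>] 0) (𝓝 ((p + 0 * q) * p)) := by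
    apply Tendsto.mono_left _ nhdsWithin_le_nhds
    exact Continuous.tendsto (by fun_prop) 0
  simp only [zero_mul, add_zero] at h1
  have : 0 < p * p := mul_self_pos.mpr hp
  exact h1.eventually_const_lt this

/-- The gallery step. -/
theorem gallery_step (μ : ι → Module.Dual ℝ V) (hμ : PairIndep μ) (b b' : V)
    (hb : GenP μ b) (hb' : GenP μ b') (i₀ : ι) (hi₀ : μ i₀ b * μ i₀ b' < 0) :
    ∃ i, μ i b * μ i b' < 0 ∧ ∃ d, μ i b * μ i d < 0 ∧ ∀ j, j ≠ i → 0 < μ j b * μ j d := by
  classical
  -- choose a direction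
  obtain ⟨u, hu⟩ : ∃ u : V, ∀ p : {p : ι × ι // p.1 ≠ p.2},
      (μ p.1.1 b • μ p.1.2 - μ p.1.2 b • μ p.1.1 : Module.Dual ℝ V) u ≠ 0 := by
    apply Module.Dual.exists_forall_ne_zero_of_forall_exists
    rintro ⟨⟨i, j⟩, hij⟩
    by_contra hcon
    push Not at hcon
    have := hμ j i (Ne.symm hij) (μ i b) (-(μ j b)) (by
      intro z
      have := hcon z
      simp at this
      linarith)
    exact hb i this.1
  have hfin := Fintype.ofFinite ι
  have hev1 : ∀ᶠ δ : ℝ in 𝓝[>] 0, ∀ i, 0 < (μ i b' + δ * μ i u) * μ i b' := by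
    rw [eventually_all]
    intro i
    exact eventually_sign_affine _ _ (hb' i)
  have hev2 : ∀ᶠ δ : ℝ in 𝓝[>] 0, ∀ p : {p : ι × ι // p.1 ≠ p.2},
      (μ p.1.1 b * μ p.1.2 b' - μ p.1.2 b * μ p.1.1 b')
        + δ * (μ p.1.1 b * μ p.1.2 u - μ p.1.2 b * μ p.1.1 u) ≠ 0 := by
    rw [eventually_all]
    intro p
    apply eventually_ne_zero_affine
    simpa using hu p
  obtain ⟨δ, hδ1, hδ2⟩ := (hev1.and hev2).exists
  set c : V := b' + δ • u with hc
  have hμc : ∀ i, μ i c = μ i b' + δ * μ i u := by intro i; simp [hc]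
  have hsc : ∀ i, 0 < μ i c * μ i b' := by intro i; rw [hμc]; exact hδ1 i
  have hnc : ∀ i j, i ≠ j → μ i b * μ j c ≠ μ j b * μ i c := by
    intro i j hij h
    apply hδ2 ⟨(i, j), hij⟩
    simp only [hμc] at h
    linarith
  -- crossing times
  let S : Finset ι := Finset.univ.filter (fun i => μ i b * μ i b' < 0)
  have hSne : S.Nonempty := ⟨i₀, by simp [S, hi₀]⟩
  let τ : ι → ℝ := fun i => μ i b / (μ i b - μ i c)
  obtain ⟨i, hiS, himin⟩ := Finset.exists_min_image S τ hSne
  have hiS' : μ i b * μ i b' < 0 := by simpa [S] using hiS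
  -- for j in S : b_j * c_j < 0
  have hneg : ∀ j, μ j b * μ j b' < 0 → μ j b * μ j c < 0 := by
    intro j hj
    have h1 := hsc j
    by_contra hcon
    push Not at hcon
    have : 0 ≤ (μ j b * μ j c) * (μ j b' * μ j b') := mul_nonneg hcon (mul_self_nonneg _)
    have h3 : (μ j b * μ j c) * (μ j b' * μ j b') = (μ j b * μ j b') * (μ j c * μ j b') := by ring
    have h4 : (μ j b * μ j b') * (μ j c * μ j b') < 0 := mul_neg_of_neg_of_pos hj h1
    linarith
  have hpos : ∀ j, ¬ μ j b * μ j b' < 0 → 0 < μ j b * μ j c := by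
    intro j hj
    have h0 := mul_pos_of_sign (hb j) (hb' j) hj
    have h1 := hsc j
    have h3 : (μ j b * μ j c) * (μ j b' * μ j b') = (μ j b * μ j b') * (μ j c * μ j b') := by ring
    have h4 : 0 < (μ j b * μ j b') * (μ j c * μ j b') := mul_pos h0 h1
    by_contra hcon
    push Not at hcon
    have : (μ j b * μ j c) * (μ j b' * μ j b') ≤ 0 :=
      mul_nonpos_of_nonpos_of_nonneg hcon (mul_self_nonneg _)
    linarith
  -- the value along the segment, multiplied by b_j
  have hτ : ∀ j, μ j b * μ j c < 0 → ∀ t : ℝ,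
      μ j b * ((1 - t) * μ j b + t * μ j c) = (μ j b * (μ j b - μ j c)) * (τ j - t) := by
    intro j hj t
    have hd : μ j b - μ j c ≠ 0 := by
      intro h
      have : μ j b = μ j c := by linarith
      rw [this] at hj
      nlinarith [mul_self_nonneg (μ j c)]
    simp only [τ]
    field_simp
    ring
  have hdpos : ∀ j, μ j b * μ j c < 0 → 0 < μ j b * (μ j b - μ j c) := by
    intro j hj
    have : 0 ≤ μ j b * μ j b := mul_self_nonneg _
    nlinarith
  have hτ0 : ∀ j, μ j b * μ j c < 0 → 0 < τ j ∧ τ j < 1 := by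
    intro j hj
    have h1 := hτ j hj 0
    have h2 := hτ j hj 1
    have h3 := hdpos j hj
    have hbb : 0 < μ j b * μ j b := mul_self_pos.mpr (hb j)
    constructor
    · simp at h1
      by_contra hcon
      push Not at hcon
      nlinarith
    · simp at h2
      by_contra hcon
      push Not at hcon
      nlinarith
  -- strict minimality
  have hstrict : ∀ j ∈ S, j ≠ i → τ i < τ j := by
    intro j hj hji
    have hj' : μ j b * μ j b' < 0 := by simpa [S] using hj
    refine lt_of_le_of_ne (himin j hj) ?_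
    intro heq
    apply hnc i j (Ne.symm hji)
    have hi1 := hneg i hiS'
    have hj1 := hneg j hj'
    have hdi : μ i b - μ i c ≠ 0 := by
      intro h; have := hdpos i hi1; rw [h] at this; simp at this
    have hdj : μ j b - μ j c ≠ 0 := by
      intro h; have := hdpos j hj1; rw [h] at this; simp at this
    simp only [τ] at heq
    rw [div_eq_div_iff hdi hdj] at heq
    linarith
  -- choose t slightly above τ i
  have hev3 : ∀ᶠ t : ℝ in 𝓝[>] (τ i), ∀ j ∈ S, j ≠ i → t < τ j := by
    rw [Filter.eventually_all_finset]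
    intro j hj
    by_cases hji : j = i
    · simp [hji]
    · have := hstrict j hj hji
      have h2 : ∀ᶠ t : ℝ in 𝓝[>] (τ i), t < τ j :=
        (eventually_lt_nhds this).filter_mono nhdsWithin_le_nhds
      filter_upwards [h2] with t ht _ using ht
  have hev4 : ∀ᶠ t : ℝ in 𝓝[>] (τ i), t < 1 :=
    (eventually_lt_nhds (hτ0 i (hneg i hiS')).2).filter_mono nhdsWithin_le_nhds
  have hev5 : ∀ᶠ t : ℝ in 𝓝[>] (τ i), τ i < t := self_mem_nhdsWithin
  obtain ⟨t, ht3, ht4, ht5⟩ := (hev3.and (hev4.and hev5)).exists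
  have ht0 : 0 < t := lt_trans (hτ0 i (hneg i hiS')).1 ht5
  refine ⟨i, hiS', (1 - t) • b + t • c, ?_, ?_⟩
  · have h1 := hτ i (hneg i hiS') t
    have h2 := hdpos i (hneg i hiS')
    simp only [map_add, map_smul, smul_eq_mul]
    rw [h1]
    exact mul_neg_of_pos_of_neg h2 (by linarith)
  · intro j hji
    simp only [map_add, map_smul, smul_eq_mul]
    by_cases hj : μ j b * μ j b' < 0
    · have h1 := hτ j (hneg j hj) t
      have h2 := hdpos j (hneg j hj)
      have h3 := ht3 j (by simp [S, hj]) hji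
      rw [h1]
      exact mul_pos h2 (by linarith)
    · have h1 := hpos j hj
      have h2 : 0 < μ j b * μ j b := mul_self_pos.mpr (hb j)
      have : μ j b * ((1 - t) * μ j b + t * μ j c)
          = (1 - t) * (μ j b * μ j b) + t * (μ j b * μ j c) := by ring
      rw [this]
      have : 0 < 1 - t := by linarith
      positivity

end Pool.Agent.Q71.NC
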