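import Pool.Agent.Q71.NC.Alg3

/-!
# The space `X`, and wall crossing elements in its fundamental group
-/

namespace Pool.Agent.Q71.NC

open Complex Set Topology

variable {m : ℕ}

/-! ### The polynomial -/

section poly

open MvPolynomial

/-- `∏` of the coordinates `y`. -/
noncomputable def yP (ε : Finset (Fin m)) : MvPolynomial (Fin (m + 1)) ℂ :=
  (1 + X 0) * ∏ j ∈ ε, (1 + X 0 * X j.succ)

lemma exists_g (ε : Finset (Fin m)) : ∃ g : MvPolynomial (Fin (m + 1)) ℂ,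
    yP ε - 1 = X 0 * g ∧ ∀ x : Fin (m + 1) → ℂ, (∀ j : Fin m, x j.succ = 0) → eval x g = 1 := by
  classical
  induction ε using Finset.induction_on with
  | empty => exact ⟨1, by simp [yP], by simp⟩
  | insert j ε hj ih =>
    obtain ⟨g, hg, hg'⟩ := ih
    refine ⟨g + X j.succ + X 0 * g * X j.succ, ?_, ?_⟩
    · have h1 : yP (insert j ε) = yP ε * (1 + X 0 * X j.succ) := by
        unfold yP
        rw [Finset.prod_insert hj]
        ring
      have h2 : yP ε = X 0 * g + 1 := by rw [← hg]; ring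
      rw [h1, h2]
      ring
    · intro x hx
      simp [hg' x hx, hx j]

/-- The strict transform of the subtorus. -/
noncomputable def gP (ε : Finset (Fin m)) : MvPolynomial (Fin (m + 1)) ℂ := (exists_g ε).choose

lemma gP_spec (ε : Finset (Fin m)) : yP ε - 1 = X 0 * gP ε := (exists_g ε).choose_spec.1

lemma gP_eval (ε : Finset (Fin m)) (x : Fin (m + 1) → ℂ) (hx : ∀ j : Fin m, x j.succ = 0) :
    eval x (gP ε) = 1 := (exists_g ε).choose_spec.2 x hx

variable (m) in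
/-- The equation of the complement. -/
noncomputable def hP : MvPolynomial (Fin (m + 1)) ℂ :=
  (1 + X 0) * (∏ j : Fin m, (1 + X 0 * X j.succ)) * ∏ ε : Finset (Fin m), gP ε

lemma hP_ne_zero_iff (x : Fin (m + 1) → ℂ) : eval x (hP m) ≠ 0 ↔
    1 + x 0 ≠ 0 ∧ (∀ j : Fin m, 1 + x 0 * x j.succ ≠ 0) ∧
      ∀ ε : Finset (Fin m), eval x (gP ε) ≠ 0 := by
  simp only [hP, map_mul, map_add, map_one, eval_X, map_prod, mul_ne_zero_iff,
    Finset.prod_ne_zero_iff, Finset.mem_univ, true_imp_iff]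
  tauto

lemma gP_rel (ε : Finset (Fin m)) (x : Fin (m + 1) → ℂ) :
    (1 + x 0) * ∏ j ∈ ε, (1 + x 0 * x j.succ) - 1 = x 0 * eval x (gP ε) := by
  have := congrArg (eval x) (gP_spec ε)
  simpa [yP] using this

end poly

variable (m) in
/-- The space. -/
abbrev XX : Type := {x : Fin (m + 1) → ℂ // MvPolynomial.eval x (hP m) ≠ 0}

/-! ### The exponential parametrisation -/

/-- `z ↦ exp (2 π i z)` -/
noncomputable def E2 (z : ℂ) : ℂ := exp (2 * Real.pi * I * z)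

lemma continuous_E2 : Continuous E2 := by unfold E2; fun_prop

lemma E2_ne_zero (z : ℂ) : E2 z ≠ 0 := exp_ne_zero _

lemma E2_add (z w : ℂ) : E2 (z + w) = E2 z * E2 w := by
  unfold E2; rw [mul_add, exp_add]

lemma E2_zero : E2 0 = 1 := by simp [E2]

lemma E2_eq_one_iff {z : ℂ} : E2 z = 1 ↔ ∃ k : ℤ, z = k := by
  unfold E2
  rw [exp_eq_one_iff]
  have h : (2 * Real.pi * I : ℂ) ≠ 0 := by
    simp [Real.pi_ne_zero]
  constructor
  · rintro ⟨n, hn⟩
    refine ⟨n, ?_⟩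
    apply mul_left_cancel₀ h
    rw [hn]; ring
  · rintro ⟨n, rfl⟩
    exact ⟨n, by ring⟩

lemma E2_int (k : ℤ) : E2 k = 1 := E2_eq_one_iff.mpr ⟨k, rfl⟩

lemma E2_sum {ι : Type*} (s : Finset ι) (f : ι → ℂ) : E2 (∑ i ∈ s, f i) = ∏ i ∈ s, E2 (f i) := by
  unfold E2
  rw [Finset.mul_sum, exp_sum]

lemma E2_lam (ε : Finset (Fin m)) (w : Fin (m + 1) → ℂ) :
    E2 (lam ε w) = E2 (w 0) * ∏ j ∈ ε, E2 (w j.succ) := by
  unfold lam
  rw [E2_add, E2_sum]

/-- The parametrisation. -/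
noncomputable def PiW (w : Fin (m + 1) → ℂ) : Fin (m + 1) → ℂ :=
  Fin.cons (E2 (w 0) - 1) (fun j => (E2 (w j.succ) - 1) / (E2 (w 0) - 1))

lemma PiW_zero (w : Fin (m + 1) → ℂ) : PiW w 0 = E2 (w 0) - 1 := rfl

lemma PiW_succ (w : Fin (m + 1) → ℂ) (j : Fin m) :
    PiW w j.succ = (E2 (w j.succ) - 1) / (E2 (w 0) - 1) := rfl

variable (m) in
/-- The complement of the integral translates of the hyperplanes. -/
def U0 : Set (Fin (m + 1) → ℂ) := {w | ∀ (ε : Finset (Fin m)) (k : ℤ), lam ε w ≠ k}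

lemma E2_lam_ne_one {w : Fin (m + 1) → ℂ} (hw : w ∈ U0 m) (ε : Finset (Fin m)) :
    E2 (lam ε w) ≠ 1 := by
  intro h
  obtain ⟨k, hk⟩ := E2_eq_one_iff.mp h
  exact hw ε k hk

lemma lam_empty {R : Type*} [AddCommMonoid R] (w : Fin (m + 1) → R) : lam ∅ w = w 0 := by
  simp [lam]

lemma E2_zero_ne_one {w : Fin (m + 1) → ℂ} (hw : w ∈ U0 m) : E2 (w 0) - 1 ≠ 0 := by
  have := E2_lam_ne_one hw ∅
  rw [lam_empty] at this
  exact sub_ne_zero.mpr this

lemma PiW_y0 (w : Fin (m + 1) → ℂ) : 1 + PiW w 0 = E2 (w 0) := by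
  rw [PiW_zero]; ring

lemma PiW_yj {w : Fin (m + 1) → ℂ} (hw : E2 (w 0) - 1 ≠ 0) (j : Fin m) :
    1 + PiW w 0 * PiW w j.succ = E2 (w j.succ) := by
  rw [PiW_zero, PiW_succ]; field_simp; ring

lemma PiW_mem {w : Fin (m + 1) → ℂ} (hw : w ∈ U0 m) : MvPolynomial.eval (PiW w) (hP m) ≠ 0 := by
  rw [hP_ne_zero_iff]
  have h0 := E2_zero_ne_one hw
  refine ⟨?_, ?_, ?_⟩
  · rw [PiW_y0]; exact E2_ne_zero _
  · intro j; rw [PiW_yj h0]; exact E2_ne_zero _
  · intro ε hε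
    have h1 := gP_rel ε (PiW w)
    rw [hε, mul_zero, PiW_y0] at h1
    simp only [PiW_yj h0] at h1
    rw [← E2_lam] at h1
    exact E2_lam_ne_one hw ε (sub_eq_zero.mp h1)

lemma continuousOn_PiW : ContinuousOn (PiW (m := m)) (U0 m) := by
  rw [continuousOn_pi]
  intro k
  refine Fin.cases ?_ ?_ k
  · apply Continuous.continuousOn
    change Continuous (fun w : Fin (m + 1) → ℂ => E2 (w 0) - 1)
    have := continuous_E2
    fun_prop
  · intro j
    change ContinuousOn (fun w : Fin (m + 1) → ℂ => (E2 (w j.succ) - 1) / (E2 (w 0) - 1)) _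
    have := continuous_E2
    apply ContinuousOn.div
    · exact Continuous.continuousOn (by fun_prop)
    · exact Continuous.continuousOn (by fun_prop)
    · intro w hw; exact E2_zero_ne_one hw

/-- Integral vectors. -/
def castC (v : Fin (m + 1) → ℤ) : Fin (m + 1) → ℂ := fun k => (v k : ℂ)

lemma lam_castC (ε : Finset (Fin m)) (v : Fin (m + 1) → ℤ) :
    lam ε (castC v) = ((lam ε v : ℤ) : ℂ) := by
  simp [lam, castC]

lemma castC_add (v w : Fin (m + 1) → ℤ) : castC (v + w) = castC v + castC w := by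
  funext k; simp [castC]

/-- Real vectors as complex vectors. -/
def rc (b : Fin (m + 1) → ℝ) : Fin (m + 1) → ℂ := fun k => (b k : ℂ)

lemma lam_rc (ε : Finset (Fin m)) (b : Fin (m + 1) → ℝ) :
    lam ε (rc b) = ((lam ε b : ℝ) : ℂ) := by
  simp [lam, rc]

lemma PiW_add (w : Fin (m + 1) → ℂ) (v : Fin (m + 1) → ℤ) : PiW (w + castC v) = PiW w := by
  have h : ∀ k, E2 ((w + castC v) k) = E2 (w k) := by
    intro k
    simp only [Pi.add_apply, castC]
    rw [E2_add, E2_int, mul_one]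
  unfold PiW
  simp only [h]

/-- The points `a₀ + v + i b`. -/
noncomputable def pt (v : Fin (m + 1) → ℤ) (b : Fin (m + 1) → ℝ) : Fin (m + 1) → ℂ :=
  (1 / 2 : ℂ) • e0 ℂ + castC v + I • rc b

lemma lam_pt (ε : Finset (Fin m)) (v : Fin (m + 1) → ℤ) (b : Fin (m + 1) → ℝ) :
    lam ε (pt v b) = 1 / 2 + ((lam ε v : ℤ) : ℂ) + I * ((lam ε b : ℝ) : ℂ) := by
  unfold pt
  rw [lam_add, lam_add, lam_smul, lam_smul, lam_e0, lam_castC, lam_rc]
  simp

lemma lam_pt_re (ε : Finset (Fin m)) (v : Fin (m + 1) → ℤ) (b : Fin (m + 1) → ℝ) :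
    (lam ε (pt v b)).re = 1 / 2 + (lam ε v : ℤ) := by
  rw [lam_pt]; simp

lemma lam_pt_im (ε : Finset (Fin m)) (v : Fin (m + 1) → ℤ) (b : Fin (m + 1) → ℝ) :
    (lam ε (pt v b)).im = lam ε b := by
  rw [lam_pt]; simp

lemma pt_add (v w : Fin (m + 1) → ℤ) (b : Fin (m + 1) → ℝ) : pt w b + castC v = pt (v + w) b := by
  unfold pt
  rw [castC_add]
  abel

/-! ### Star shaped sets -/

/-- The basic star shaped sets. -/
def St (b : Fin (m + 1) → ℝ) (A : Set (Finset (Fin m))) (κ : Finset (Fin m) → ℤ)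
    (B : Set (Finset (Fin m))) : Set (Fin (m + 1) → ℂ) :=
  {w | ∀ ε, (ε ∈ A → 0 ≤ lam ε b * (lam ε w).im ∧ ∀ k : ℤ, lam ε w ≠ k) ∧
    (ε ∈ B → (κ ε : ℝ) < (lam ε w).re ∧ (lam ε w).re < κ ε + 1)}

lemma strip_ne_int {z : ℂ} {κ : ℤ} (h : (κ : ℝ) < z.re ∧ z.re < κ + 1) (k : ℤ) : z ≠ k := by
  rintro rfl
  simp only [intCast_re] at h
  have h1 : κ < k := by exact_mod_cast h.1
  have h2 : k < κ + 1 := by exact_mod_cast h.2
  omega

lemma St_subset_U0 {b : Fin (m + 1) → ℝ} {A : Set (Finset (Fin m))} {κ : Finset (Fin m) → ℤ}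
    {B : Set (Finset (Fin m))} (h : ∀ ε, ε ∈ A ∨ ε ∈ B) : St b A κ B ⊆ U0 m := by
  intro w hw ε k
  rcases h ε with h | h
  · exact ((hw ε).1 h).2 k
  · exact strip_ne_int ((hw ε).2 h) k

lemma starConvex_St {b : Fin (m + 1) → ℝ} {A : Set (Finset (Fin m))} {κ : Finset (Fin m) → ℤ}
    {B : Set (Finset (Fin m))} {z : Fin (m + 1) → ℂ}
    (hA : ∀ ε ∈ A, 0 < lam ε b * (lam ε z).im)
    (hB : ∀ ε ∈ B, (κ ε : ℝ) < (lam ε z).re ∧ (lam ε z).re < κ ε + 1) :
    StarConvex ℝ z (St b A κ B) := by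
  intro y hy s t hs ht hst ε
  have h0 : lam ε (s • z + t • y) = (s : ℂ) * lam ε z + (t : ℂ) * lam ε y := by
    rw [lam_add, lam_smul, lam_smul]; simp
  have him : (lam ε (s • z + t • y)).im = s * (lam ε z).im + t * (lam ε y).im := by
    rw [h0]; simp
  have hre : (lam ε (s • z + t • y)).re = s * (lam ε z).re + t * (lam ε y).re := by
    rw [h0]; simp
  constructor
  · intro hε
    have h1 := hA ε hε
    have h2 := (hy ε).1 hε
    by_cases hs0 : s = 0
    · have ht1 : t = 1 := by linarith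
      subst hs0 ht1
      simpa using h2
    · have hs' : 0 < s := lt_of_le_of_ne hs (Ne.symm hs0)
      have h3 : 0 < lam ε b * (lam ε (s • z + t • y)).im := by
        rw [him]
        have : lam ε b * (s * (lam ε z).im + t * (lam ε y).im)
            = s * (lam ε b * (lam ε z).im) + t * (lam ε b * (lam ε y).im) := by ring
        rw [this]
        have := mul_pos hs' h1
        have := mul_nonneg ht h2.1
        linarith
      refine ⟨h3.le, ?_⟩
      intro k hk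
      rw [hk] at h3
      simp at h3
  · intro hε
    have h1 := hB ε hε
    have h2 := (hy ε).2 hε
    rw [hre]
    have hs1 : s = 1 - t := by linarith
    subst hs1
    constructor
    · rcases eq_or_lt_of_le ht with h | h
      · rw [← h]; simpa using h1.1
      · nlinarith [h1.1, h2.1, mul_lt_mul_of_pos_left h2.1 h, mul_le_mul_of_nonneg_left h1.1.le hs]
    · rcases eq_or_lt_of_le ht with h | h
      · rw [← h]; simpa using h1.2
      · nlinarith [h1.2, h2.2, mul_lt_mul_of_pos_left h2.2 h, mul_le_mul_of_nonneg_left h1.2.le hs]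

/-! ### Represented classes -/

/-- `α` is represented by the image under `F` of a path inside `S`. -/
def Rep {A : Type*} [TopologicalSpace A] (F : A → Fin (m + 1) → ℂ) (S : Set A) (a b : A)
    {x y : XX m} (α : Path.Homotopic.Quotient x y) : Prop :=
  ∃ p : Path x y, Path.Homotopic.Quotient.mk p = α ∧
    ∃ q : Path a b, (∀ t, q t ∈ S) ∧ ∀ t, (p t).1 = F (q t)

namespace Rep

variable {A : Type*} [TopologicalSpace A] {F : A → Fin (m + 1) → ℂ} {S : Set A} {a b c : A}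
  {x y z : XX m}

lemma mono {S' : Set A} (h : S ⊆ S') {α : Path.Homotopic.Quotient x y} (hα : Rep F S a b α) :
    Rep F S' a b α := by
  obtain ⟨p, hp, q, hq, hpq⟩ := hα
  exact ⟨p, hp, q, fun t => h (hq t), hpq⟩

lemma trans {α : Path.Homotopic.Quotient x y} {β : Path.Homotopic.Quotient y z}
    (hα : Rep F S a b α) (hβ : Rep F S b c β) : Rep F S a c (α.trans β) := by
  obtain ⟨p, rfl, q, hq, hpq⟩ := hα
  obtain ⟨p', rfl, q', hq', hpq'⟩ := hβ
  refine ⟨p.trans p', Path.Homotopic.Quotient.mk_trans _ _, q.trans q', ?_, ?_⟩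
  · intro t
    rw [Path.trans_apply]
    split_ifs
    · exact hq _
    · exact hq' _
  · intro t
    rw [Path.trans_apply, Path.trans_apply]
    split_ifs
    · exact hpq _
    · exact hpq' _

lemma symm {α : Path.Homotopic.Quotient x y} (hα : Rep F S a b α) : Rep F S b a α.symm := by
  obtain ⟨p, rfl, q, hq, hpq⟩ := hα
  exact ⟨p.symm, Path.Homotopic.Quotient.mk_symm _, q.symm, fun t => hq _, fun t => hpq _⟩

lemma map {B : Type*} [TopologicalSpace B] {G : B → Fin (m + 1) → ℂ} {S' : Set B} (τ : A → B)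
    (hτ : Continuous τ) (hS : ∀ s ∈ S, τ s ∈ S') (hF : ∀ s ∈ S, G (τ s) = F s)
    {α : Path.Homotopic.Quotient x y} (hα : Rep F S a b α) : Rep G S' (τ a) (τ b) α := by
  obtain ⟨p, rfl, q, hq, hpq⟩ := hα
  refine ⟨p, rfl, q.map hτ, fun t => hS _ (hq t), fun t => ?_⟩
  rw [hpq t]
  exact (hF _ (hq t)).symm

lemma left_mem {α : Path.Homotopic.Quotient x y} (hα : Rep F S a b α) : a ∈ S := by
  obtain ⟨p, rfl, q, hq, hpq⟩ := hα
  simpa using hq 0

lemma right_mem {α : Path.Homotopic.Quotient x y} (hα : Rep F S a b α) : b ∈ S := by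
  obtain ⟨p, rfl, q, hq, hpq⟩ := hα
  simpa using hq 1

lemma left_eq {α : Path.Homotopic.Quotient x y} (hα : Rep F S a b α) : x.1 = F a := by
  obtain ⟨p, rfl, q, hq, hpq⟩ := hα
  simpa using hpq 0

lemma right_eq {α : Path.Homotopic.Quotient x y} (hα : Rep F S a b α) : y.1 = F b := by
  obtain ⟨p, rfl, q, hq, hpq⟩ := hα
  simpa using hpq 1

end Rep

section star

variable {A : Type*} [AddCommGroup A] [Module ℝ A] [TopologicalSpace A] [ContinuousAdd A]
  [ContinuousSMul ℝ A] {F : A → Fin (m + 1) → ℂ} {S : Set A} {a b z₀ : A} {x y : XX m}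

theorem Rep.unique (hS : StarConvex ℝ z₀ S) (hF : ContinuousOn F S)
    (hFX : ∀ s ∈ S, MvPolynomial.eval (F s) (hP m) ≠ 0)
    {α β : Path.Homotopic.Quotient x y} (hα : Rep F S a b α) (hβ : Rep F S a b β) : α = β := by
  have ha := hα.left_mem
  have hb := hα.right_mem
  obtain ⟨p₁, rfl, q₁, hq₁, hpq₁⟩ := hα
  obtain ⟨p₂, rfl, q₂, hq₂, hpq₂⟩ := hβ
  let F' : C(S, XX m) := ⟨fun s => ⟨F s.1, hFX s.1 s.2⟩, by
    apply Continuous.subtype_mk
    exact continuousOn_iff_continuous_domRestrict.mp hF⟩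
  have hx : x = F' ⟨a, ha⟩ := Subtype.ext (show x.1 = F a by simpa using hpq₁ 0)
  have hy : y = F' ⟨b, hb⟩ := Subtype.ext (show y.1 = F b by simpa using hpq₁ 1)
  subst hx hy
  let q₁' : Path (⟨a, ha⟩ : S) ⟨b, hb⟩ :=
    { toFun := fun t => ⟨q₁ t, hq₁ t⟩
      continuous_toFun := by fun_prop
      source' := by simp
      target' := by simp }
  let q₂' : Path (⟨a, ha⟩ : S) ⟨b, hb⟩ :=
    { toFun := fun t => ⟨q₂ t, hq₂ t⟩
      continuous_toFun := by fun_prop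
      source' := by simp
      target' := by simp }
  have : ContractibleSpace S := hS.contractibleSpace ⟨a, ha⟩
  have h := SimplyConnectedSpace.paths_homotopic q₁' q₂'
  have h' := h.map F'
  have e₁ : p₁ = q₁'.map F'.continuous := by
    ext t
    exact congrFun (hpq₁ t) _
  have e₂ : p₂ = q₂'.map F'.continuous := by
    ext t
    exact congrFun (hpq₂ t) _
  rw [e₁, e₂]
  exact Path.Homotopic.Quotient.eq.mpr h'

theorem Rep.exists (hS : StarConvex ℝ z₀ S) (hF : ContinuousOn F S)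
    (hFX : ∀ s ∈ S, MvPolynomial.eval (F s) (hP m) ≠ 0) (ha : a ∈ S) (hb : b ∈ S)
    (hx : x.1 = F a) (hy : y.1 = F b) : ∃ α : Path.Homotopic.Quotient x y, Rep F S a b α := by
  have : ContractibleSpace S := hS.contractibleSpace ⟨a, ha⟩
  let F' : C(S, XX m) := ⟨fun s => ⟨F s.1, hFX s.1 s.2⟩, by
    apply Continuous.subtype_mk
    exact continuousOn_iff_continuous_domRestrict.mp hF⟩
  have hx : x = F' ⟨a, ha⟩ := Subtype.ext hx
  have hy : y = F' ⟨b, hb⟩ := Subtype.ext hy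
  subst hx hy
  obtain ⟨q⟩ : Nonempty (Path (⟨a, ha⟩ : S) ⟨b, hb⟩) :=
    PathConnectedSpace.joined _ _
  refine ⟨Path.Homotopic.Quotient.mk (q.map F'.continuous), q.map F'.continuous, rfl,
    q.map continuous_subtype_val, fun t => (q t).2, fun t => rfl⟩

end star

/-! ### The wall crossing elements -/

lemma contOn_St {b : Fin (m + 1) → ℝ} {A : Set (Finset (Fin m))} {κ : Finset (Fin m) → ℤ}
    {B : Set (Finset (Fin m))} (h : ∀ ε, ε ∈ A ∨ ε ∈ B) : ContinuousOn (PiW (m := m)) (St b A κ B) :=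
  continuousOn_PiW.mono (St_subset_U0 h)

lemma mem_St {b : Fin (m + 1) → ℝ} {A : Set (Finset (Fin m))} {κ : Finset (Fin m) → ℤ}
    {B : Set (Finset (Fin m))} (h : ∀ ε, ε ∈ A ∨ ε ∈ B) :
    ∀ s ∈ St b A κ B, MvPolynomial.eval (PiW s) (hP m) ≠ 0 :=
  fun _ hs => PiW_mem (St_subset_U0 h hs)

/-- closed chamber -/
def Cbar (b : Fin (m + 1) → ℝ) : Set (Fin (m + 1) → ℂ) := St b univ 0 ∅

lemma mem_Cbar {b : Fin (m + 1) → ℝ} {w : Fin (m + 1) → ℂ} : w ∈ Cbar b ↔
    ∀ ε, 0 ≤ lam ε b * (lam ε w).im ∧ ∀ k : ℤ, lam ε w ≠ k := by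
  simp [Cbar, St]

lemma Cbar_subset_U0 {b : Fin (m + 1) → ℝ} : Cbar b ⊆ U0 m := St_subset_U0 (fun _ => Or.inl trivial)

lemma pt_zero_ne (ε : Finset (Fin m)) (v : Fin (m + 1) → ℤ) (b : Fin (m + 1) → ℝ) (k : ℤ) :
    lam ε (pt v b) ≠ k := by
  apply strip_ne_int (κ := lam ε v)
  rw [lam_pt_re]
  constructor <;> linarith

lemma pt_mem_U0 (v : Fin (m + 1) → ℤ) (b : Fin (m + 1) → ℝ) : pt v b ∈ U0 m :=
  fun ε k => pt_zero_ne ε v b k

lemma star_Cbar {b : Fin (m + 1) → ℝ} (hb : Gen b) (v : Fin (m + 1) → ℤ) :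
    StarConvex ℝ (pt v b) (Cbar b) := by
  apply starConvex_St
  · intro ε _
    rw [lam_pt_im]
    exact mul_self_pos.mpr (hb ε)
  · simp

lemma pt_mem_Cbar (v : Fin (m + 1) → ℤ) (b : Fin (m + 1) → ℝ) : pt v 0 ∈ Cbar b := by
  rw [mem_Cbar]
  intro ε
  refine ⟨?_, fun k => pt_zero_ne ε v 0 k⟩
  rw [lam_pt_im, lam_zero]; simp

lemma pt_mem_Cbar' (v : Fin (m + 1) → ℤ) (b : Fin (m + 1) → ℝ) : pt v b ∈ Cbar b := by
  rw [mem_Cbar]
  intro ε
  refine ⟨?_, fun k => pt_zero_ne ε v b k⟩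
  rw [lam_pt_im]
  exact mul_self_nonneg _

variable (m) in
/-- The base point. -/
noncomputable def x₀ : XX m := ⟨PiW (pt 0 0), PiW_mem (pt_mem_U0 0 0)⟩

lemma x₀_eq (v : Fin (m + 1) → ℤ) : (x₀ m).1 = PiW (pt v 0) := by
  have : pt v 0 = pt 0 0 + castC v := by rw [pt_add, add_zero]
  rw [this, PiW_add]
  rfl

lemma exists_tt {b : Fin (m + 1) → ℝ} (hb : Gen b) (v : Fin (m + 1) → ℤ) :
    ∃ α : Path.Homotopic.Quotient (x₀ m) (x₀ m), Rep PiW (Cbar b) (pt 0 0) (pt v 0) α :=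
  Rep.exists (star_Cbar hb 0) (contOn_St (fun _ => Or.inl trivial)) (mem_St (fun _ => Or.inl trivial))
    (pt_mem_Cbar 0 b) (pt_mem_Cbar v b) (x₀_eq 0) (x₀_eq v)

open Classical in
/-- The translation elements of the fundamental group. -/
noncomputable def tt (b : Fin (m + 1) → ℝ) (v : Fin (m + 1) → ℤ) :
    FundamentalGroup (XX m) (x₀ m) :=
  if h : Gen b then (exists_tt h v).choose else 1

lemma rep_tt {b : Fin (m + 1) → ℝ} (hb : Gen b) (v : Fin (m + 1) → ℤ) :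
    Rep PiW (Cbar b) (pt 0 0) (pt v 0) (FundamentalGroup.toPath (tt b v)) := by
  unfold tt
  rw [dif_pos hb]
  exact (exists_tt hb v).choose_spec

lemma Cbar_unique {b : Fin (m + 1) → ℝ} (hb : Gen b) {a c : Fin (m + 1) → ℂ} {x y : XX m}
    {α β : Path.Homotopic.Quotient x y} (hα : Rep PiW (Cbar b) a c α)
    (hβ : Rep PiW (Cbar b) a c β) : α = β :=
  Rep.unique (star_Cbar hb 0) (contOn_St (fun _ => Or.inl trivial))
    (mem_St (fun _ => Or.inl trivial)) hα hβ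

lemma translate_Cbar {b : Fin (m + 1) → ℝ} {w : Fin (m + 1) → ℂ} (hw : w ∈ Cbar b)
    (v : Fin (m + 1) → ℤ) : w + castC v ∈ Cbar b := by
  rw [mem_Cbar] at *
  intro ε
  rw [lam_add, lam_castC]
  refine ⟨by simpa using (hw ε).1, fun k hk => (hw ε).2 (k - lam ε v) ?_⟩
  push_cast
  rw [← hk]; ring

lemma Rep.translate {b : Fin (m + 1) → ℝ} {a c : Fin (m + 1) → ℂ} {x y : XX m}
    {α : Path.Homotopic.Quotient x y} (hα : Rep PiW (Cbar b) a c α) (v : Fin (m + 1) → ℤ) :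
    Rep PiW (Cbar b) (a + castC v) (c + castC v) α :=
  Rep.map (fun w => w + castC v) (by fun_prop) (fun s hs => translate_Cbar hs v)
    (fun s _ => PiW_add s v) hα

lemma tt_add {b : Fin (m + 1) → ℝ} (hb : Gen b) (v v' : Fin (m + 1) → ℤ) :
    tt b (v + v') = tt b v * tt b v' := by
  have h1 := rep_tt hb v'
  have h2 := (rep_tt hb v).translate v'
  rw [pt_add, pt_add, add_zero] at h2
  have h3 := h1.trans h2
  rw [add_comm v' v] at h3
  exact Cbar_unique hb (rep_tt hb (v + v')) h3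

lemma St_congr {b b' : Fin (m + 1) → ℝ} {A : Set (Finset (Fin m))} {κ : Finset (Fin m) → ℤ}
    {B : Set (Finset (Fin m))} (h : ∀ ε ∈ A, 0 < lam ε b * lam ε b') :
    St b A κ B ⊆ St b' A κ B := by
  intro w hw ε
  refine ⟨fun hε => ⟨?_, ((hw ε).1 hε).2⟩, (hw ε).2⟩
  have h1 := ((hw ε).1 hε).1
  have h2 := h ε hε
  have h3 : (lam ε b' * (lam ε w).im) * (lam ε b * lam ε b)
      = (lam ε b * lam ε b') * (lam ε b * (lam ε w).im) := by ring
  have hb : lam ε b ≠ 0 := by rintro h0; rw [h0] at h2; simp at h2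
  have h4 := mul_self_pos.mpr hb
  by_contra hcon
  push Not at hcon
  have h5 := mul_neg_of_neg_of_pos hcon h4
  have h6 := mul_nonneg h2.le h1
  linarith

lemma St_mono {b : Fin (m + 1) → ℝ} {A A' : Set (Finset (Fin m))} {κ : Finset (Fin m) → ℤ}
    {B B' : Set (Finset (Fin m))} (h : A' ⊆ A) (h' : B' ⊆ B) :
    St b A κ B ⊆ St b A' κ B' :=
  fun _ hw ε => ⟨fun hε => (hw ε).1 (h hε), fun hε => (hw ε).2 (h' hε)⟩

lemma tt_wall {b b' : Fin (m + 1) → ℝ} (hb : Gen b) (hb' : Gen b') (v : Fin (m + 1) → ℤ)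
    (h : ∀ ε, lam ε b * lam ε b' < 0 → lam ε v = 0) : tt b v = tt b' v := by
  set B : Set (Finset (Fin m)) := {ε | lam ε b * lam ε b' < 0} with hB
  have key : ∀ b : Fin (m + 1) → ℝ, Gen b → ∃ α : Path.Homotopic.Quotient (x₀ m) (x₀ m),
      Rep PiW (St b univ 0 B) (pt 0 0) (pt v 0) α ∧ α = FundamentalGroup.toPath (tt b v) := by
    intro b hb
    have hmem : ∀ u : Fin (m + 1) → ℤ, (∀ ε ∈ B, lam ε u = 0) → pt u 0 ∈ St b univ 0 B := by
      intro u hu ε
      refine ⟨fun _ => ⟨?_, fun k => pt_zero_ne ε u 0 k⟩, fun hε => ?_⟩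
      · rw [lam_pt_im, lam_zero]; simp
      · rw [lam_pt_re, hu ε hε]; norm_num
    obtain ⟨α, hα⟩ := Rep.exists (x := x₀ m) (y := x₀ m) (F := PiW) (S := St b univ 0 B)
      (z₀ := pt 0 b) (a := pt 0 0) (b := pt v 0)
      (starConvex_St (fun ε _ => by rw [lam_pt_im]; exact mul_self_pos.mpr (hb ε))
        (fun ε _ => by rw [lam_pt_re, lam_zero]; norm_num))
      (contOn_St (fun _ => Or.inl trivial)) (mem_St (fun _ => Or.inl trivial))
      (hmem 0 (fun ε _ => lam_zero ε)) (hmem v (fun ε hε => h ε hε)) (x₀_eq 0) (x₀_eq v)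
    refine ⟨α, hα, ?_⟩
    exact Cbar_unique hb (hα.mono (St_mono (Set.Subset.refl _) (Set.empty_subset _))) (rep_tt hb v)
  obtain ⟨α, hα, hα'⟩ := key b hb
  obtain ⟨β, hβ, hβ'⟩ := key b' hb'
  have hAB : ∀ ε, ε ∈ Bᶜ ∨ ε ∈ B := fun ε => (em (ε ∈ B)).symm
  have h1 : Rep PiW (St b Bᶜ 0 B) (pt 0 0) (pt v 0) α :=
    hα.mono (St_mono (Set.subset_univ _) (Set.Subset.refl _))
  have h2 : Rep PiW (St b Bᶜ 0 B) (pt 0 0) (pt v 0) β := by
    apply (hβ.mono (St_mono (Set.subset_univ _) (Set.Subset.refl _))).mono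
    apply St_congr
    intro ε hε
    rw [mul_comm]
    exact mul_pos_of_sign (hb ε) (hb' ε) hε
  have h3 : α = β := by
    refine Rep.unique (z₀ := pt 0 b) (starConvex_St
      (fun ε _ => by rw [lam_pt_im]; exact mul_self_pos.mpr (hb ε))
      (fun ε _ => by rw [lam_pt_re, lam_zero]; norm_num))
      (contOn_St hAB) (mem_St hAB) h1 h2
  rw [h3, hβ'] at hα'
  exact hα'.symm

/-! ### The relation at the blown up point -/

/-- The line through the blown up point. -/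
noncomputable def F1 (ζ : ℂ) : Fin (m + 1) → ℂ := Fin.cons (E2 ζ - 1) (fun _ => 0)

lemma continuous_F1 : Continuous (F1 (m := m)) := by
  rw [continuous_pi_iff]
  intro k
  refine Fin.cases ?_ ?_ k
  · change Continuous (fun ζ : ℂ => E2 ζ - 1)
    have := continuous_E2
    fun_prop
  · intro j
    exact continuous_const

lemma F1_mem (ζ : ℂ) : MvPolynomial.eval (F1 (m := m) ζ) (hP m) ≠ 0 := by
  rw [hP_ne_zero_iff]
  refine ⟨?_, ?_, ?_⟩
  · have : 1 + F1 (m := m) ζ 0 = E2 ζ := by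
      change 1 + (E2 ζ - 1) = _; ring
    rw [this]; exact E2_ne_zero _
  · intro j
    have : F1 (m := m) ζ j.succ = 0 := rfl
    rw [this]; simp
  · intro ε
    rw [gP_eval ε _ (fun j => rfl)]
    exact one_ne_zero

lemma PiW_line (ζ : ℂ) : PiW (ζ • e0 ℂ : Fin (m + 1) → ℂ) = F1 ζ := by
  funext k
  refine Fin.cases ?_ ?_ k
  · rw [PiW_zero]
    change E2 (ζ • e0 ℂ (m := m) 0) - 1 = E2 ζ - 1
    simp [e0]
  · intro j
    rw [PiW_succ]
    have : (ζ • e0 ℂ : Fin (m + 1) → ℂ) j.succ = 0 := by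
      simp [e0]
    rw [this, E2_zero]
    simp [F1]

/-- closed half planes without the integers -/
def Hs (s : ℝ) : Set ℂ := {ζ | 0 ≤ s * ζ.im ∧ ∀ k : ℤ, ζ ≠ k}

lemma star_Hs {s : ℝ} (hs : s ≠ 0) : StarConvex ℝ (1 / 2 + s * I) (Hs s) := by
  intro y hy a b ha hb hab
  have him : (a • (1 / 2 + s * I) + b • y : ℂ).im = a * s + b * y.im := by simp
  by_cases ha0 : a = 0
  · have hb1 : b = 1 := by linarith
    subst ha0 hb1
    simpa using hy
  · have ha' : 0 < a := lt_of_le_of_ne ha (Ne.symm ha0)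
    have h3 : 0 < s * (a • (1 / 2 + s * I) + b • y : ℂ).im := by
      rw [him]
      have : s * (a * s + b * y.im) = a * (s * s) + b * (s * y.im) := by ring
      rw [this]
      have := mul_pos ha' (mul_self_pos.mpr hs)
      have := mul_nonneg hb hy.1
      linarith
    refine ⟨h3.le, ?_⟩
    intro k hk
    rw [hk] at h3
    simp at h3

lemma pt_line (k : ℤ) : (pt (k • e0 ℤ) 0 : Fin (m + 1) → ℂ) = (1 / 2 + (k : ℂ)) • e0 ℂ := by
  unfold pt
  funext j
  refine Fin.cases ?_ ?_ j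
  · simp [castC, rc, e0]
  · intro i
    simp [castC, rc, e0]

lemma half_mem_Hs (s : ℝ) (k : ℤ) : (1 / 2 + (k : ℂ)) ∈ Hs s := by
  refine ⟨by simp, ?_⟩
  apply strip_ne_int (κ := k)
  have : (1 / 2 + (k : ℂ)).re = 1 / 2 + (k : ℝ) := by simp
  rw [this]
  constructor <;> linarith

lemma tt_four_aux (s : ℝ) (hs : s ≠ 0) (hg : Gen (s • e0 ℝ : Fin (m + 1) → ℝ)) :
    Rep (F1 (m := m)) (univ : Set ℂ) (1 / 2 + ((0 : ℤ) : ℂ)) (1 / 2 + ((1 : ℤ) : ℂ))
      (FundamentalGroup.toPath (tt (s • e0 ℝ) (e0 ℤ))) := by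
  have hx : ∀ k : ℤ, (x₀ m).1 = F1 (1 / 2 + (k : ℂ)) := by
    intro k
    rw [x₀_eq (k • e0 ℤ), pt_line, PiW_line]
  obtain ⟨α, hα⟩ := Rep.exists (x := x₀ m) (y := x₀ m) (F := F1 (m := m)) (S := Hs s)
    (star_Hs hs) continuous_F1.continuousOn (fun ζ _ => F1_mem ζ)
    (half_mem_Hs s 0) (half_mem_Hs s 1) (hx 0) (hx 1)
  have h1 : Rep PiW (Cbar (s • e0 ℝ : Fin (m + 1) → ℝ)) (pt 0 0) (pt (e0 ℤ) 0) α := by
    have := Rep.map (F := F1 (m := m)) (G := PiW) (S := Hs s)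
      (S' := Cbar (s • e0 ℝ : Fin (m + 1) → ℝ)) (fun ζ : ℂ => ζ • e0 ℂ) (by fun_prop)
      (by
        intro ζ hζ
        rw [mem_Cbar]
        intro ε
        rw [lam_smul, lam_smul, lam_e0, lam_e0]
        simp only [smul_eq_mul, mul_one]
        exact hζ)
      (fun ζ _ => PiW_line ζ) hα
    rw [← pt_line, ← pt_line, zero_smul, one_smul] at this
    exact this
  have h2 := Cbar_unique hg h1 (rep_tt hg (e0 ℤ))
  rw [← h2]
  exact hα.mono (Set.subset_univ _)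

lemma tt_four : tt (e0 ℝ) (e0 ℤ) = (tt (-e0 ℝ) (e0 ℤ) : FundamentalGroup (XX m) (x₀ m)) := by
  have h1 := tt_four_aux (m := m) 1 (by norm_num) (by rw [one_smul]; exact Pres.gen_e0)
  have h2 := tt_four_aux (m := m) (-1) (by norm_num) (by rw [neg_smul, one_smul]; exact Pres.gen_neg_e0)
  rw [one_smul] at h1
  rw [neg_smul, one_smul] at h2
  exact Rep.unique (z₀ := (0 : ℂ)) (S := univ) (fun _ _ _ _ _ _ _ => trivial)
    continuous_F1.continuousOn (fun ζ _ => F1_mem ζ) h1 h2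

end Pool.Agent.Q71.NC
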