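import Pool.Agent.Q71.NC.Top1

/-!
# Generation of the fundamental group by the translation elements
-/

namespace Pool.Agent.Q71.NC

open Complex Set Topology

section pathInd

variable {Y : Type*} [TopologicalSpace Y]

/-- Induction on paths: a property of homotopy classes of paths which is stable under composition
and holds for small paths holds for all paths. -/
theorem path_induction (Q : ∀ a b : Y, Path.Homotopic.Quotient a b → Prop)
    (htrans : ∀ a b c (α : Path.Homotopic.Quotient a b) (β : Path.Homotopic.Quotient b c),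
      Q a b α → Q b c β → Q a c (α.trans β))
    (hloc : ∀ y : Y, ∃ U ∈ 𝓝 y, ∀ a b (p : Path a b), (∀ t, p t ∈ U) →
      Q a b (Path.Homotopic.Quotient.mk p)) :
    ∀ a b (p : Path a b), Q a b (Path.Homotopic.Quotient.mk p) := by
  intro a b p
  choose U hU hQ using hloc
  have hopen : ∀ y, IsOpen (p ⁻¹' (interior (U y))) := fun y => isOpen_interior.preimage p.continuous
  have hcov : (univ : Set unitInterval) ⊆ ⋃ y, p ⁻¹' (interior (U y)) := by
    intro t _
    rw [mem_iUnion]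
    exact ⟨p t, mem_interior_iff_mem_nhds.mpr (hU (p t))⟩
  obtain ⟨t, h0, hmono, ⟨n, hn⟩, hsub⟩ :=
    exists_monotone_Icc_subset_open_cover_unitInterval hopen hcov
  have key : ∀ n, Q _ _ (Path.Homotopic.Quotient.mk (p.subpath (t 0) (t n))) := by
    intro n
    induction n with
    | zero =>
      apply hQ (p (t 0))
      intro s
      have : (p.subpath (t 0) (t 0)) s = p (t 0) := by rw [Path.subpath_self]; rfl
      rw [this]
      exact mem_of_mem_nhds (hU (p (t 0)))
    | succ n ih =>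
      obtain ⟨y, hy⟩ := hsub n
      have h1 : Q _ _ (Path.Homotopic.Quotient.mk (p.subpath (t n) (t (n + 1)))) := by
        apply hQ y
        intro s
        have h2 : (p.subpath (t n) (t (n + 1))) s ∈ range (p.subpath (t n) (t (n + 1))) := ⟨s, rfl⟩
        rw [Path.range_subpath_of_le _ _ _ (hmono (Nat.le_succ n))] at h2
        obtain ⟨s', hs', hs''⟩ := h2
        rw [← hs'']
        exact interior_subset (hy hs')
      have h2 := htrans _ _ _ _ _ ih h1
      rw [← Path.Homotopic.Quotient.mk_trans] at h2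
      have h3 : Path.Homotopic.Quotient.mk ((p.subpath (t 0) (t n)).trans
          (p.subpath (t n) (t (n + 1)))) = Path.Homotopic.Quotient.mk (p.subpath (t 0) (t (n + 1))) :=
        Path.Homotopic.Quotient.eq.mpr ⟨Path.Homotopy.subpathTransSubpath p _ _ _⟩
      rw [h3] at h2
      exact h2
  have h1 := key n
  rw [h0, hn n le_rfl, Path.subpath_zero_one] at h1
  have h2 : ∀ (a' b' : Y) (ha : a' = a) (hb : b' = b),
      Q a' b' (Path.Homotopic.Quotient.mk (p.cast ha hb)) → Q a b (Path.Homotopic.Quotient.mk p) := by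
    rintro a' b' rfl rfl h
    exact h
  exact h2 _ _ _ _ h1

end pathInd

variable {m : ℕ}

/-- the parametrisation as a continuous map -/
noncomputable def piU : C(U0 m, XX m) :=
  ⟨fun w => ⟨PiW w.1, PiW_mem w.2⟩, by
    apply Continuous.subtype_mk
    exact continuousOn_iff_continuous_domRestrict.mp continuousOn_PiW⟩

lemma piU_coe (w : U0 m) : (piU w).1 = PiW w.1 := rfl

variable (m) in
/-- The subgroup generated by the translation elements. -/
noncomputable def HG : Subgroup (FundamentalGroup (XX m) (x₀ m)) :=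
  Subgroup.closure {x | ∃ b v, Gen b ∧ x = tt b v}

lemma tt_mem_HG {b : Fin (m + 1) → ℝ} (hb : Gen b) (v : Fin (m + 1) → ℤ) : tt b v ∈ HG m :=
  Subgroup.subset_closure ⟨b, v, hb, rfl⟩

lemma quot_aux {Y : Type*} [TopologicalSpace Y] {a b c d : Y} (α : Path.Homotopic.Quotient a b)
    (β : Path.Homotopic.Quotient c b) (σ : Path.Homotopic.Quotient b d) :
    (α.trans β.symm).trans (β.trans σ) = α.trans σ := by
  rw [Path.Homotopic.Quotient.trans_assoc, ← Path.Homotopic.Quotient.trans_assoc β.symm,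
    Path.Homotopic.Quotient.symm_trans, Path.Homotopic.Quotient.refl_trans]

lemma St_subset_Cbar {b : Fin (m + 1) → ℝ} {κ : Finset (Fin m) → ℤ}
    {B : Set (Finset (Fin m))} : St b univ κ B ⊆ Cbar b := by
  intro w hw
  rw [mem_Cbar]
  exact fun ε => (hw ε).1 trivial

lemma one_wall {b b' : Fin (m + 1) → ℝ} (hb : Gen b) (hb' : Gen b') (i : Finset (Fin m))
    (hi : lam i b * lam i b' < 0) (hj : ∀ j, j ≠ i → 0 < lam j b * lam j b')
    {w : Fin (m + 1) → ℂ} {x : XX m} {τ τ' : Path.Homotopic.Quotient (x₀ m) x}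
    (hτ : Rep PiW (Cbar b) (pt 0 0) w τ) (hτ' : Rep PiW (Cbar b') (pt 0 0) w τ') :
    ∃ h ∈ HG m, τ = (FundamentalGroup.toPath h).trans τ' := by
  have hw := mem_Cbar.mp hτ.right_mem
  have hw' := mem_Cbar.mp hτ'.right_mem
  have him : (lam i w).im = 0 := by
    by_contra hne
    have h1 := mul_nonneg (hw i).1 (hw' i).1
    have h2 : (lam i b * (lam i w).im) * (lam i b' * (lam i w).im)
        = (lam i b * lam i b') * ((lam i w).im * (lam i w).im) := by ring
    have h3 := mul_neg_of_neg_of_pos hi (mul_self_pos.mpr hne)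
    linarith
  set k : ℤ := ⌊(lam i w).re⌋ with hk
  have hstrip : (k : ℝ) < (lam i w).re ∧ (lam i w).re < k + 1 := by
    refine ⟨lt_of_le_of_ne (Int.floor_le _) ?_, Int.lt_floor_add_one _⟩
    intro h
    apply (hw i).2 k
    apply Complex.ext
    · rw [← h]; simp
    · rw [him]; simp
  set v : Fin (m + 1) → ℤ := k • e0 ℤ with hv
  have hiv : lam i v = k := by rw [hv, lam_smul, lam_e0]; simp
  have hall : ∀ ε : Finset (Fin m), ε ∈ (univ : Set (Finset (Fin m))) ∨ ε ∈ ({i} : Set _) :=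
    fun _ => Or.inl trivial
  have key : ∀ b : Fin (m + 1) → ℝ, Gen b → ∀ τ : Path.Homotopic.Quotient (x₀ m) x,
      Rep PiW (Cbar b) (pt 0 0) w τ → ∃ σ : Path.Homotopic.Quotient (x₀ m) x,
      Rep PiW (St b univ (fun _ => k) {i}) (pt v 0) w σ ∧
        τ = (FundamentalGroup.toPath (tt b v)).trans σ := by
    intro b hb τ hτ
    have hw := mem_Cbar.mp hτ.right_mem
    obtain ⟨σ, hσ⟩ := Rep.exists (x := x₀ m) (y := x) (F := PiW) (S := St b univ (fun _ => k) {i})
      (z₀ := pt v b) (a := pt v 0) (b := w)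
      (starConvex_St (fun ε _ => by rw [lam_pt_im]; exact mul_self_pos.mpr (hb ε))
        (fun ε hε => by
          rw [mem_singleton_iff] at hε
          subst hε
          rw [lam_pt_re, hiv]; constructor <;> linarith))
      (contOn_St hall) (mem_St hall)
      (by
        intro ε
        refine ⟨fun _ => ⟨?_, fun k => pt_zero_ne ε v 0 k⟩, fun hε => ?_⟩
        · rw [lam_pt_im, lam_zero]; simp
        · rw [mem_singleton_iff] at hε
          subst hε
          rw [lam_pt_re, hiv]; constructor <;> linarith)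
      (by
        intro ε
        refine ⟨fun _ => hw ε, fun hε => ?_⟩
        rw [mem_singleton_iff] at hε
        subst hε
        exact hstrip)
      (x₀_eq v) hτ.right_eq
    refine ⟨σ, hσ, ?_⟩
    exact Cbar_unique hb hτ ((rep_tt hb v).trans (hσ.mono St_subset_Cbar))
  obtain ⟨σ, hσ, hσ'⟩ := key b hb τ hτ
  obtain ⟨σ₁, hσ₁, hσ₁'⟩ := key b' hb' τ' hτ'
  have hAB : ∀ ε, ε ∈ ({i} : Set (Finset (Fin m)))ᶜ ∨ ε ∈ ({i} : Set (Finset (Fin m))) :=
    fun ε => (em (ε ∈ ({i} : Set (Finset (Fin m))))).symm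
  have h1 : σ = σ₁ := by
    refine Rep.unique (z₀ := pt v b) (S := St b ({i}ᶜ) (fun _ => k) {i}) (starConvex_St
      (fun ε _ => by rw [lam_pt_im]; exact mul_self_pos.mpr (hb ε))
      (fun ε hε => by
        rw [mem_singleton_iff] at hε
        subst hε
        rw [lam_pt_re, hiv]; constructor <;> linarith))
      (contOn_St hAB) (mem_St hAB) (hσ.mono (St_mono (Set.subset_univ _) (Set.Subset.refl _))) ?_
    apply (hσ₁.mono (St_mono (Set.subset_univ _) (Set.Subset.refl _))).mono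
    apply St_congr
    intro ε hε
    rw [mul_comm]
    exact hj ε hε
  refine ⟨(tt b' v)⁻¹ * tt b v, Subgroup.mul_mem _ (Subgroup.inv_mem _ (tt_mem_HG hb' v))
    (tt_mem_HG hb v), ?_⟩
  rw [hσ', hσ₁', h1]
  exact (quot_aux (FundamentalGroup.toPath (tt b v)) (FundamentalGroup.toPath (tt b' v)) σ₁).symm

/-- The coset of a path to `w` does not depend on the closed chamber. -/
lemma coset_indep : ∀ b b' : Fin (m + 1) → ℝ, Gen b → Gen b' →
    ∀ (w : Fin (m + 1) → ℂ) (x : XX m) (τ τ' : Path.Homotopic.Quotient (x₀ m) x),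
    Rep PiW (Cbar b) (pt 0 0) w τ → Rep PiW (Cbar b') (pt 0 0) w τ' →
    ∃ h ∈ HG m, τ = (FundamentalGroup.toPath h).trans τ' := by
  refine gallery_induction (lamL (m := m)) pairIndep_lamL (motive := fun b b' =>
    ∀ (w : Fin (m + 1) → ℂ) (x : XX m) (τ τ' : Path.Homotopic.Quotient (x₀ m) x),
    Rep PiW (Cbar b) (pt 0 0) w τ → Rep PiW (Cbar b') (pt 0 0) w τ' →
    ∃ h ∈ HG m, τ = (FundamentalGroup.toPath h).trans τ') ?_ ?_
  · intro b b' hb hb' h w x τ τ' hτ hτ'
    refine ⟨1, Subgroup.one_mem _, ?_⟩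
    have h1 : Rep PiW (Cbar b) (pt 0 0) w τ' := by
      apply hτ'.mono
      apply St_congr
      intro ε _
      rw [mul_comm]
      exact h ε
    rw [Cbar_unique hb hτ h1]
    change τ' = (Path.Homotopic.Quotient.refl (x₀ m)).trans τ'
    simp
  · intro b d b' i hb hd hb' h1 h2 h3 ih w x τ τ' hτ hτ'
    have hw := mem_Cbar.mp hτ.right_mem
    have hw' := mem_Cbar.mp hτ'.right_mem
    have him : (lam i w).im = 0 := by
      by_contra hne
      have e1 := mul_nonneg (hw i).1 (hw' i).1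
      have e2 : (lam i b * (lam i w).im) * (lam i b' * (lam i w).im)
          = (lam i b * lam i b') * ((lam i w).im * (lam i w).im) := by ring
      have e3 := mul_neg_of_neg_of_pos h3 (mul_self_pos.mpr hne)
      change lam i b * lam i b' * _ < 0 at e3
      linarith
    have hwd : w ∈ Cbar d := by
      rw [mem_Cbar]
      intro ε
      refine ⟨?_, (hw ε).2⟩
      by_cases hε : ε = i
      · subst hε; rw [him]; simp
      · have g1 : 0 < lam ε b * lam ε d := h2 ε hε
        have g2 := (hw ε).1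
        by_contra hcon
        push Not at hcon
        have g3 := mul_neg_of_pos_of_neg (mul_self_pos.mpr (hb ε)) hcon
        change lam ε b * lam ε b * _ < 0 at g3
        have g4 : lam ε b * lam ε b * (lam ε d * (lam ε w).im)
            = (lam ε b * lam ε d) * (lam ε b * (lam ε w).im) := by ring
        have g5 := mul_nonneg g1.le g2
        linarith
    obtain ⟨τd, hτd⟩ := Rep.exists (x := x₀ m) (y := x) (F := PiW) (star_Cbar hd 0)
      (contOn_St (fun _ => Or.inl trivial)) (mem_St (fun _ => Or.inl trivial))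
      (pt_mem_Cbar 0 d) hwd (x₀_eq 0) hτ.right_eq
    obtain ⟨g₁, hg₁, e₁⟩ := one_wall hb hd i h1 h2 hτ hτd
    obtain ⟨g₂, hg₂, e₂⟩ := ih w x τd τ' hτd hτ'
    refine ⟨g₂ * g₁, Subgroup.mul_mem _ hg₂ hg₁, ?_⟩
    rw [e₁, e₂]
    change Path.Homotopic.Quotient.trans g₁ (Path.Homotopic.Quotient.trans g₂ τ')
      = (Path.Homotopic.Quotient.trans g₁ g₂).trans τ'
    simp

lemma continuous_lam (ε : Finset (Fin m)) : Continuous (fun w : Fin (m + 1) → ℂ => lam ε w) := by
  unfold lam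
  fun_prop

/-- star shaped neighbourhoods of points of `U0` -/
def NN (w₀ : Fin (m + 1) → ℂ) : Set (Fin (m + 1) → ℂ) :=
  {w | ∀ ε, ((lam ε w₀).im ≠ 0 → 0 < (lam ε w₀).im * (lam ε w).im) ∧
    ((lam ε w₀).im = 0 → ((⌊(lam ε w₀).re⌋ : ℤ) : ℝ) < (lam ε w).re ∧
      (lam ε w).re < ((⌊(lam ε w₀).re⌋ : ℤ) : ℝ) + 1)}

lemma isOpen_NN (w₀ : Fin (m + 1) → ℂ) : IsOpen (NN w₀) := by
  have : NN w₀ = ⋂ ε, {w | ((lam ε w₀).im ≠ 0 → 0 < (lam ε w₀).im * (lam ε w).im) ∧
    ((lam ε w₀).im = 0 → ((⌊(lam ε w₀).re⌋ : ℤ) : ℝ) < (lam ε w).re ∧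
      (lam ε w).re < ((⌊(lam ε w₀).re⌋ : ℤ) : ℝ) + 1)} := by
    ext w; simp [NN]
  rw [this]
  apply isOpen_iInter_of_finite
  intro ε
  have hc := continuous_lam ε
  have hre : Continuous (fun w : Fin (m + 1) → ℂ => (lam ε w).re) := Complex.continuous_re.comp hc
  have him : Continuous (fun w : Fin (m + 1) → ℂ => (lam ε w).im) := Complex.continuous_im.comp hc
  by_cases h : (lam ε w₀).im = 0
  · simp only [h, ne_eq, not_true_eq_false, false_imp_iff, true_imp_iff, true_and]
    exact (isOpen_lt continuous_const hre).inter (isOpen_lt hre continuous_const)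
  · simp only [h, ne_eq, not_false_eq_true, false_imp_iff, true_imp_iff, and_true]
    exact isOpen_lt continuous_const (by fun_prop)

lemma self_mem_NN {w₀ : Fin (m + 1) → ℂ} (hw : w₀ ∈ U0 m) : w₀ ∈ NN w₀ := by
  intro ε
  refine ⟨fun h => mul_self_pos.mpr h, fun h => ⟨lt_of_le_of_ne (Int.floor_le _) ?_,
    Int.lt_floor_add_one _⟩⟩
  intro h'
  apply hw ε ⌊(lam ε w₀).re⌋
  apply Complex.ext
  · rw [← h']; simp
  · rw [h]; simp

lemma NN_subset_U0 (w₀ : Fin (m + 1) → ℂ) : NN w₀ ⊆ U0 m := by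
  intro w hw ε k
  by_cases h : (lam ε w₀).im = 0
  · exact strip_ne_int ((hw ε).2 h) k
  · intro hk
    have := (hw ε).1 h
    rw [hk] at this
    simp at this

lemma lam_comb (ε : Finset (Fin m)) (s t : ℝ) (z y : Fin (m + 1) → ℂ) :
    (lam ε (s • z + t • y)).im = s * (lam ε z).im + t * (lam ε y).im ∧
    (lam ε (s • z + t • y)).re = s * (lam ε z).re + t * (lam ε y).re := by
  have h0 : lam ε (s • z + t • y) = (s : ℂ) * lam ε z + (t : ℂ) * lam ε y := by
    rw [lam_add, lam_smul, lam_smul]; simp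
  rw [h0]
  simp

lemma convex_NN (w₀ : Fin (m + 1) → ℂ) : Convex ℝ (NN w₀) := by
  intro z hz y hy s t hs ht hst ε
  obtain ⟨him, hre⟩ := lam_comb ε s t z y
  rw [him, hre]
  refine ⟨fun h => ?_, fun h => ?_⟩
  · have h1 := (hz ε).1 h
    have h2 := (hy ε).1 h
    have : (lam ε w₀).im * (s * (lam ε z).im + t * (lam ε y).im)
        = s * ((lam ε w₀).im * (lam ε z).im) + t * ((lam ε w₀).im * (lam ε y).im) := by ring
    rw [this]
    rcases eq_or_lt_of_le hs with h3 | h3
    · have : t = 1 := by linarith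
      rw [← h3, this]; linarith
    · have := mul_pos h3 h1
      have := mul_nonneg ht h2.le
      linarith
  · have h1 := (hz ε).2 h
    have h2 := (hy ε).2 h
    have hs1 : s = 1 - t := by linarith
    subst hs1
    rcases eq_or_lt_of_le ht with h3 | h3
    · rw [← h3]; simpa using h1
    · constructor
      · nlinarith [mul_lt_mul_of_pos_left h2.1 h3, mul_le_mul_of_nonneg_left h1.1.le hs]
      · nlinarith [mul_lt_mul_of_pos_left h2.2 h3, mul_le_mul_of_nonneg_left h1.2.le hs]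

lemma convex_half (b : Fin (m + 1) → ℝ) :
    Convex ℝ {w : Fin (m + 1) → ℂ | ∀ ε, 0 ≤ lam ε b * (lam ε w).im} := by
  intro z hz y hy s t hs ht hst ε
  obtain ⟨him, -⟩ := lam_comb ε s t z y
  rw [him]
  have : lam ε b * (s * (lam ε z).im + t * (lam ε y).im)
      = s * (lam ε b * (lam ε z).im) + t * (lam ε b * (lam ε y).im) := by ring
  rw [this]
  have := mul_nonneg hs (hz ε)
  have := mul_nonneg ht (hy ε)
  linarith

lemma NN_inter_subset (w₀ : Fin (m + 1) → ℂ) (b : Fin (m + 1) → ℝ) :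
    NN w₀ ∩ {w | ∀ ε, 0 ≤ lam ε b * (lam ε w).im} ⊆ Cbar b := by
  rintro w ⟨h1, h2⟩
  rw [mem_Cbar]
  exact fun ε => ⟨h2 ε, fun k => NN_subset_U0 w₀ h1 ε k⟩

lemma exists_Cbar {w : Fin (m + 1) → ℂ} (hw : w ∈ U0 m) :
    ∃ b : Fin (m + 1) → ℝ, Gen b ∧ w ∈ Cbar b := by
  have h1 : ∀ᶠ δ : ℝ in 𝓝[>] 0, ∀ ε : Finset (Fin m), (lam ε w).im ≠ 0 →
      0 < ((lam ε w).im + δ * 1) * (lam ε w).im := by
    rw [Filter.eventually_all]
    intro ε
    by_cases h : (lam ε w).im = 0
    · simp [h]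
    · filter_upwards [eventually_sign_affine _ 1 h] with δ hδ _ using hδ
  obtain ⟨δ, hδ1, hδ0⟩ := (h1.and self_mem_nhdsWithin).exists
  have hδ0' : (0 : ℝ) < δ := hδ0
  have hb : ∀ ε, lam ε ((fun k => (w k).im) + δ • e0 ℝ : Fin (m + 1) → ℝ) = (lam ε w).im + δ := by
    intro ε
    rw [lam_add, lam_smul, lam_e0]
    simp [lam]
  refine ⟨(fun k => (w k).im) + δ • e0 ℝ, ?_, ?_⟩
  · intro ε
    rw [hb]
    by_cases h : (lam ε w).im = 0
    · rw [h]; linarith
    · intro h0
      have := hδ1 ε h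
      rw [mul_one, h0] at this
      simp at this
  · rw [mem_Cbar]
    intro ε
    refine ⟨?_, fun k => hw ε k⟩
    rw [hb]
    by_cases h : (lam ε w).im = 0
    · rw [h]; simp
    · have := hδ1 ε h
      rw [mul_one] at this
      exact this.le

lemma mem_half_of {w₀ a : Fin (m + 1) → ℂ} {b : Fin (m + 1) → ℝ} (ha : a ∈ NN w₀)
    (hb : a ∈ Cbar b) : w₀ ∈ {w : Fin (m + 1) → ℂ | ∀ ε, 0 ≤ lam ε b * (lam ε w).im} := by
  intro ε
  by_cases h : (lam ε w₀).im = 0
  · rw [h]; simp
  · have h1 := (ha ε).1 h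
    have h2 := (mem_Cbar.mp hb ε).1
    by_contra hcon
    push Not at hcon
    have hane : (lam ε a).im ≠ 0 := by rintro h0; rw [h0] at h1; simp at h1
    have h3 := mul_neg_of_neg_of_pos hcon (mul_self_pos.mpr hane)
    have h4 : lam ε b * (lam ε w₀).im * ((lam ε a).im * (lam ε a).im)
        = (lam ε b * (lam ε a).im) * ((lam ε w₀).im * (lam ε a).im) := by ring
    have h5 := mul_nonneg h2 h1.le
    linarith

/-- The coset property. -/
def InH (w : Fin (m + 1) → ℂ) {x : XX m} (α : Path.Homotopic.Quotient (x₀ m) x) : Prop :=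
  ∃ b, Gen b ∧ ∃ τ : Path.Homotopic.Quotient (x₀ m) x, Rep PiW (Cbar b) (pt 0 0) w τ ∧
    ∃ h ∈ HG m, α = (FundamentalGroup.toPath h).trans τ

lemma map_trans' {X Y : Type*} [TopologicalSpace X] [TopologicalSpace Y] (f : C(X, Y)) {a b c : X}
    (α : Path.Homotopic.Quotient a b) (β : Path.Homotopic.Quotient b c) :
    (α.trans β).map f = (α.map f).trans (β.map f) := by
  obtain ⟨p⟩ := α
  obtain ⟨q⟩ := β
  exact congr_arg Quotient.mk'' (p.map_trans q f.continuous)

lemma InH_all (a b : U0 m) (p : Path a b) :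
    ∀ τ : Path.Homotopic.Quotient (x₀ m) (piU a), InH a.1 τ →
      InH b.1 (τ.trans ((Path.Homotopic.Quotient.mk p).map piU)) := by
  refine path_induction (Y := U0 m) (fun a b α => ∀ τ : Path.Homotopic.Quotient (x₀ m) (piU a),
    InH a.1 τ → InH b.1 (τ.trans (α.map piU))) ?_ ?_ a b p
  · intro a b c α β hα hβ τ hτ
    rw [map_trans', ← Path.Homotopic.Quotient.trans_assoc]
    exact hβ _ (hα _ hτ)
  · intro w₀
    refine ⟨Subtype.val ⁻¹' (NN w₀.1), ?_, ?_⟩
    · exact (isOpen_NN w₀.1).preimage continuous_subtype_val |>.mem_nhds (self_mem_NN w₀.2)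
    · intro a c p hp τ hτ
      have ha : a.1 ∈ NN w₀.1 := by simpa using hp 0
      have hc : c.1 ∈ NN w₀.1 := by simpa using hp 1
      obtain ⟨b, hb, τb, hτb, h, hh, rfl⟩ := hτ
      obtain ⟨b', hb', hcb'⟩ := exists_Cbar c.2
      have hw0 := mem_half_of ha hτb.right_mem
      have hw0' := mem_half_of hc hcb'
      have hN := self_mem_NN w₀.2
      have hcont : ∀ b : Fin (m + 1) → ℝ, ContinuousOn (PiW (m := m))
          (NN w₀.1 ∩ {w | ∀ ε, 0 ≤ lam ε b * (lam ε w).im}) := fun b =>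
        continuousOn_PiW.mono ((inter_subset_left).trans (NN_subset_U0 _))
      have hXX : ∀ b : Fin (m + 1) → ℝ, ∀ s ∈ (NN w₀.1 ∩ {w | ∀ ε, 0 ≤ lam ε b * (lam ε w).im}),
          MvPolynomial.eval (PiW s) (hP m) ≠ 0 := fun b s hs =>
        PiW_mem (NN_subset_U0 _ hs.1)
      have hstar : ∀ b : Fin (m + 1) → ℝ, w₀.1 ∈ {w : Fin (m + 1) → ℂ | ∀ ε, 0 ≤ lam ε b * (lam ε w).im} →
          StarConvex ℝ w₀.1 (NN w₀.1 ∩ {w | ∀ ε, 0 ≤ lam ε b * (lam ε w).im}) := fun b h =>
        ((convex_NN _).inter (convex_half b)).starConvex ⟨hN, h⟩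
      obtain ⟨σ₁, hσ₁⟩ := Rep.exists (x := piU a) (y := piU w₀) (hstar b hw0) (hcont b) (hXX b)
        (a := a.1) (b := w₀.1) ⟨ha, fun ε => (mem_Cbar.mp hτb.right_mem ε).1⟩ ⟨hN, hw0⟩ rfl rfl
      obtain ⟨σ₂, hσ₂⟩ := Rep.exists (x := piU w₀) (y := piU c) (hstar b' hw0') (hcont b') (hXX b')
        (a := w₀.1) (b := c.1) ⟨hN, hw0'⟩ ⟨hc, fun ε => (mem_Cbar.mp hcb' ε).1⟩ rfl rfl
      have h1 : (Path.Homotopic.Quotient.mk p).map piU = σ₁.trans σ₂ := by
        refine Rep.unique (z₀ := w₀.1) (S := NN w₀.1) ((convex_NN _).starConvex hN)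
          (continuousOn_PiW.mono (NN_subset_U0 _)) (fun s hs => PiW_mem (NN_subset_U0 _ hs))
          (a := a.1) (b := c.1) ?_
          ((hσ₁.mono inter_subset_left).trans (hσ₂.mono inter_subset_left))
        exact ⟨p.map piU.continuous, rfl, p.map continuous_subtype_val, hp, fun t => rfl⟩
      have h2 : Rep PiW (Cbar b) (pt 0 0) w₀.1 (τb.trans σ₁) :=
        hτb.trans (hσ₁.mono (NN_inter_subset _ _))
      obtain ⟨ρ, hρ⟩ := Rep.exists (x := x₀ m) (y := piU w₀) (F := PiW) (star_Cbar hb' 0)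
        (contOn_St (fun _ => Or.inl trivial)) (mem_St (fun _ => Or.inl trivial))
        (pt_mem_Cbar 0 b') (NN_inter_subset _ _ ⟨hN, hw0'⟩) (x₀_eq 0) rfl
      obtain ⟨g, hg, hg'⟩ := coset_indep b b' hb hb' _ _ _ _ h2 hρ
      refine ⟨b', hb', ρ.trans σ₂, hρ.trans (hσ₂.mono (NN_inter_subset _ _)), g * h,
        Subgroup.mul_mem _ hg hh, ?_⟩
      rw [h1]
      have e1 : (Path.Homotopic.Quotient.trans (FundamentalGroup.toPath h) τb).trans (σ₁.trans σ₂)
          = (Path.Homotopic.Quotient.trans (FundamentalGroup.toPath h) (τb.trans σ₁)).trans σ₂ := by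
        simp
      rw [e1, hg']
      change _ = (Path.Homotopic.Quotient.trans h g).trans (ρ.trans σ₂)
      simp

lemma mem_HG_of_InH {v : Fin (m + 1) → ℤ} {α : Path.Homotopic.Quotient (x₀ m) (x₀ m)}
    (h : InH (pt v 0) α) : FundamentalGroup.fromPath α ∈ HG m := by
  obtain ⟨b, hb, τ, hτ, g, hg, rfl⟩ := h
  have : τ = FundamentalGroup.toPath (tt b v) := Cbar_unique hb hτ (rep_tt hb v)
  rw [this]
  exact Subgroup.mul_mem _ (tt_mem_HG hb v) hg

/-- loops which lift to `U0` -/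
lemma mem_HG_of_lift (p : Path (x₀ m) (x₀ m)) (v : Fin (m + 1) → ℤ)
    (q : Path (pt 0 0 : Fin (m + 1) → ℂ) (pt v 0)) (hq : ∀ t, q t ∈ U0 m)
    (hpq : ∀ t, (p t).1 = PiW (q t)) :
    FundamentalGroup.fromPath (Path.Homotopic.Quotient.mk p) ∈ HG m := by
  let q' : Path (⟨pt 0 0, pt_mem_U0 0 0⟩ : U0 m) ⟨pt v 0, pt_mem_U0 v 0⟩ :=
    { toFun := fun t => ⟨q t, hq t⟩
      continuous_toFun := by fun_prop
      source' := by simp
      target' := by simp }
  have h0 : InH (pt 0 0) (Path.Homotopic.Quotient.refl (x₀ m)) := by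
    refine ⟨e0 ℝ, Pres.gen_e0, Path.Homotopic.Quotient.refl (x₀ m), ?_, 1, Subgroup.one_mem _, ?_⟩
    · refine ⟨Path.refl _, rfl, Path.refl _, fun t => ?_, fun t => rfl⟩
      exact pt_mem_Cbar 0 _
    · change _ = (Path.Homotopic.Quotient.refl (x₀ m)).trans _
      simp
  have h1 := InH_all _ _ q' (Path.Homotopic.Quotient.refl (x₀ m)) h0
  have h3 : (Path.Homotopic.Quotient.trans (Path.Homotopic.Quotient.refl (x₀ m))
      (Path.Homotopic.Quotient.mk (q'.map piU.continuous) :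
        Path.Homotopic.Quotient (x₀ m) (piU ⟨pt v 0, pt_mem_U0 v 0⟩)))
      = Path.Homotopic.Quotient.mk (q'.map piU.continuous) :=
    Path.Homotopic.Quotient.refl_trans _
  have h1 := Eq.mp (congrArg (InH (pt v 0)) h3) h1
  have key : ∀ (x : XX m) (hx : x = x₀ m) (p₁ : Path (x₀ m) x), (∀ t, p₁ t = p t) →
      InH (pt v 0) (Path.Homotopic.Quotient.mk p₁) →
      FundamentalGroup.fromPath (Path.Homotopic.Quotient.mk p) ∈ HG m := by
    rintro x rfl p₁ hp₁ h
    have : p₁ = p := by ext t; rw [hp₁]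
    rw [this] at h
    exact mem_HG_of_InH h
  refine key _ ?_ (q'.map piU.continuous) ?_ h1
  · apply Subtype.ext
    rw [x₀_eq v]
    rfl
  · intro t
    apply Subtype.ext
    rw [hpq t]
    rfl

end Pool.Agent.Q71.NC
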