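import Pool.Agent.Q71.NC.Top2

/-!
# Lifting paths, pushing loops off the exceptional divisor, and generation
-/

namespace Pool.Agent.Q71.NC

open Complex Set Topology

/-! ### Logarithmic lifts -/

lemma two_pi_I_ne : (2 * Real.pi * I : ℂ) ≠ 0 := by
  simp [Real.pi_ne_zero]

/-- Lifting a path through `E2`. -/
lemma exists_E2_lift (f : C(unitInterval, ℂ)) (hf : ∀ t, f t ≠ 0) (z₀ : ℂ) (h : E2 z₀ = f 0) :
    ∃ g : C(unitInterval, ℂ), g 0 = z₀ ∧ ∀ t, E2 (g t) = f t := by
  let f' : C(unitInterval, {z : ℂ // z ≠ 0}) := ⟨fun t => ⟨f t, hf t⟩, by fun_prop⟩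
  obtain ⟨Γ, h1, h2⟩ := isCoveringMap_exp.exists_path_lifts f' (2 * Real.pi * I * z₀)
    (Subtype.ext h.symm)
  refine ⟨⟨fun t => (2 * Real.pi * I)⁻¹ * Γ t, by fun_prop⟩, ?_, ?_⟩
  · change (2 * Real.pi * I : ℂ)⁻¹ * Γ 0 = z₀
    rw [h2, ← mul_assoc, inv_mul_cancel₀ two_pi_I_ne, one_mul]
  · intro t
    have := congrFun h1 t
    have h3 := congrArg Subtype.val this
    change exp (Γ t) = f t at h3
    change exp (2 * Real.pi * I * ((2 * Real.pi * I)⁻¹ * Γ t)) = f t
    rw [← mul_assoc, mul_inv_cancel₀ two_pi_I_ne, one_mul, h3]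

/-- Lifting a square through `E2`. -/
lemma exists_E2_lift2 (f : C(unitInterval × unitInterval, ℂ)) (hf : ∀ t, f t ≠ 0) (z₀ : ℂ)
    (h : ∀ s, E2 z₀ = f (0, s)) :
    ∃ g : C(unitInterval × unitInterval, ℂ), (∀ s, g (0, s) = z₀) ∧ ∀ t, E2 (g t) = f t := by
  let f' : C(unitInterval × unitInterval, {z : ℂ // z ≠ 0}) :=
    ⟨fun t => ⟨f t, hf t⟩, by fun_prop⟩
  have H0 : ∀ a : unitInterval, f' (0, a) =
      (fun z : ℂ ↦ (⟨_, z.exp_ne_zero⟩ : {z : ℂ // z ≠ 0}))
        (ContinuousMap.const unitInterval (2 * Real.pi * I * z₀) a) :=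
    fun a => Subtype.ext (h a).symm
  set Γ := isCoveringMap_exp.liftHomotopy f' (ContinuousMap.const _ (2 * Real.pi * I * z₀)) H0
  have h1 := isCoveringMap_exp.liftHomotopy_lifts f' (ContinuousMap.const _ (2 * Real.pi * I * z₀)) H0
  have h2 := isCoveringMap_exp.liftHomotopy_zero f' (ContinuousMap.const _ (2 * Real.pi * I * z₀)) H0
  refine ⟨⟨fun t => (2 * Real.pi * I)⁻¹ * Γ t, by fun_prop⟩, ?_, ?_⟩
  · intro s
    change (2 * Real.pi * I : ℂ)⁻¹ * Γ (0, s) = z₀
    rw [h2 s, ContinuousMap.const_apply, ← mul_assoc, inv_mul_cancel₀ two_pi_I_ne, one_mul]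
  · intro t
    have := congrFun h1 t
    have h3 := congrArg Subtype.val this
    change exp (Γ t) = f t at h3
    change exp (2 * Real.pi * I * ((2 * Real.pi * I)⁻¹ * Γ t)) = f t
    rw [← mul_assoc, mul_inv_cancel₀ two_pi_I_ne, one_mul, h3]

/-- Uniqueness of lifts through `E2`. -/
lemma E2_lift_unique {A : Type*} [TopologicalSpace A] [PreconnectedSpace A] {g g' : A → ℂ}
    (hg : Continuous g) (hg' : Continuous g') (h : ∀ a, E2 (g a) = E2 (g' a)) (a₀ : A)
    (h0 : g a₀ = g' a₀) (a : A) : g a = g' a := by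
  have h1 : (fun a => 2 * Real.pi * I * g a) = (fun a => 2 * Real.pi * I * g' a) := by
    refine isCoveringMap_exp.eq_of_comp_eq (g₁ := fun a => 2 * Real.pi * I * g a)
      (g₂ := fun a => 2 * Real.pi * I * g' a) (by fun_prop) (by fun_prop) ?_ a₀ (by rw [h0])
    funext a
    exact Subtype.ext (h a)
  have := congrFun h1 a
  exact mul_left_cancel₀ two_pi_I_ne this

lemma E2_eq_iff {z w : ℂ} : E2 z = E2 w ↔ ∃ k : ℤ, z = w + k := by
  constructor
  · intro h
    have : E2 (z - w) = 1 := by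
      have h1 : E2 z = E2 (z - w) * E2 w := by rw [← E2_add]; congr 1; ring
      rw [h] at h1
      have := E2_ne_zero w
      field_simp at h1
      exact h1.symm
    obtain ⟨k, hk⟩ := E2_eq_one_iff.mp this
    exact ⟨k, by rw [← hk]; ring⟩
  · rintro ⟨k, rfl⟩
    rw [E2_add, E2_int, mul_one]

variable {m : ℕ}

/-- The coordinates `y` of a point of `ℂ^{m+1}`. -/
def yy0 (x : Fin (m + 1) → ℂ) : Fin (m + 1) → ℂ := Fin.cons (1 + x 0) (fun j => 1 + x 0 * x j.succ)

lemma continuous_yy0 : Continuous (yy0 (m := m)) := by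
  rw [continuous_pi_iff]
  intro k
  refine Fin.cases ?_ ?_ k
  · change Continuous (fun x : Fin (m + 1) → ℂ => 1 + x 0)
    fun_prop
  · intro j
    change Continuous (fun x : Fin (m + 1) → ℂ => 1 + x 0 * x j.succ)
    fun_prop

lemma yy0_ne_zero (x : XX m) (k : Fin (m + 1)) : yy0 x.1 k ≠ 0 := by
  have h := (hP_ne_zero_iff x.1).mp x.2
  refine Fin.cases ?_ ?_ k
  · exact h.1
  · exact fun j => h.2.1 j

/-- The lifting relation. -/
def Lft (x w : Fin (m + 1) → ℂ) : Prop := ∀ k, E2 (w k) = yy0 x k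

lemma Lft.lam {x w : Fin (m + 1) → ℂ} (h : Lft x w) (ε : Finset (Fin m)) :
    E2 (lam ε w) = x 0 * MvPolynomial.eval x (gP ε) + 1 := by
  rw [E2_lam, ← gP_rel, h 0]
  have : ∀ j : Fin m, E2 (w j.succ) = 1 + x 0 * x j.succ := fun j => h j.succ
  simp only [this]
  change (1 + x 0) * _ = _
  ring

lemma Lft.mem_U0 {x : XX m} {w : Fin (m + 1) → ℂ} (h : Lft x.1 w) (hx : x.1 0 ≠ 0) :
    w ∈ U0 m := by
  intro ε k hk
  have h1 := h.lam ε
  rw [hk, E2_int] at h1
  have h2 := ((hP_ne_zero_iff x.1).mp x.2).2.2 ε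
  have h3 : x.1 0 * MvPolynomial.eval x.1 (gP ε) = 0 := by linear_combination -h1
  rcases mul_eq_zero.mp h3 with h4 | h4
  · exact hx h4
  · exact h2 h4

lemma Lft.PiW_eq {x w : Fin (m + 1) → ℂ} (h : Lft x w) (hx : x 0 ≠ 0) : x = PiW w := by
  funext k
  have h0 : E2 (w 0) = 1 + x 0 := h 0
  refine Fin.cases ?_ ?_ k
  · rw [PiW_zero, h0]; ring
  · intro j
    have hj : E2 (w j.succ) = 1 + x 0 * x j.succ := h j.succ
    rw [PiW_succ, h0, hj, show 1 + x 0 - 1 = x 0 by ring,
      show 1 + x 0 * x j.succ - 1 = x 0 * x j.succ by ring]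
    field_simp

lemma lft_PiW {w : Fin (m + 1) → ℂ} (hw : w ∈ U0 m) : Lft (PiW w) w := by
  intro k
  refine Fin.cases ?_ ?_ k
  · exact (PiW_y0 w).symm
  · intro j
    exact (PiW_yj (E2_zero_ne_one hw) j).symm

/-- Lifting a path of `XX`. -/
lemma exists_lift {x y : XX m} (p : Path x y) (w : Fin (m + 1) → ℂ) (hw : Lft x.1 w) :
    ∃ w' : Fin (m + 1) → ℂ, ∃ q : Path w w', ∀ t, Lft (p t).1 (q t) := by
  have h1 : ∀ k : Fin (m + 1), ∃ g : C(unitInterval, ℂ), g 0 = w k ∧
      ∀ t, E2 (g t) = yy0 (p t).1 k := by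
    intro k
    have hc : Continuous (fun t => yy0 (p t).1 k) :=
      (continuous_apply k).comp (continuous_yy0.comp (continuous_subtype_val.comp p.continuous))
    exact exists_E2_lift ⟨_, hc⟩ (fun t => yy0_ne_zero _ k) (w k) (by
      rw [hw k]
      change yy0 x.1 k = yy0 (p 0).1 k
      rw [p.source])
  choose g hg0 hg using h1
  refine ⟨fun k => g k 1, ⟨⟨fun t k => g k t, by fun_prop⟩, ?_, rfl⟩, fun t k => hg k t⟩
  funext k
  exact hg0 k

lemma Lft.ends {x : Fin (m + 1) → ℂ} {w w' : Fin (m + 1) → ℂ} (h : Lft x w) (h' : Lft x w') :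
    ∃ v : Fin (m + 1) → ℤ, w' = w + castC v := by
  have : ∀ k, ∃ v : ℤ, w' k = w k + v := by
    intro k
    apply E2_eq_iff.mp
    rw [h k, h' k]
  choose v hv using this
  exact ⟨v, funext hv⟩

lemma lft_x₀ (v : Fin (m + 1) → ℤ) : Lft (x₀ m).1 (pt v 0) := by
  rw [x₀_eq v]
  exact lft_PiW (pt_mem_U0 v 0)

/-- Loops avoiding the exceptional divisor lie in `HG`. -/
lemma mem_HG_of_avoid (p : Path (x₀ m) (x₀ m)) (hp : ∀ t, (p t).1 0 ≠ 0) :
    FundamentalGroup.fromPath (Path.Homotopic.Quotient.mk p) ∈ HG m := by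
  obtain ⟨w', q, hq⟩ := exists_lift p (pt 0 0) (lft_x₀ 0)
  have h1 : Lft (x₀ m).1 w' := by
    have := hq 1
    rwa [p.target, q.target] at this
  obtain ⟨v, hv⟩ := (lft_x₀ 0).ends h1
  rw [pt_add, add_zero] at hv
  subst hv
  exact mem_HG_of_lift p v q (fun t => (hq t).mem_U0 (hp t)) (fun t => (hq t).PiW_eq (hp t))

/-! ### Pushing off the exceptional divisor -/

section push

lemma mk_cast_trans {Y : Type*} [TopologicalSpace Y] {x y z x' z' : Y} (P : Path x y)
    (Q : Path y z) (hx : x' = x) (hz : z' = z) :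
    (Path.Homotopic.Quotient.mk (P.cast hx rfl)).trans (Path.Homotopic.Quotient.mk (Q.cast rfl hz))
      = Path.Homotopic.Quotient.mk ((P.trans Q).cast hx hz) := by
  subst hx hz
  rfl

lemma mk_split {Y : Type*} [TopologicalSpace Y] {a b : Y} (δ : Path a b) (t : unitInterval) :
    Path.Homotopic.Quotient.mk δ =
      (Path.Homotopic.Quotient.mk ((δ.subpath 0 t).cast δ.source.symm rfl)).trans
        (Path.Homotopic.Quotient.mk ((δ.subpath t 1).cast rfl δ.target.symm)) := by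
  rw [mk_cast_trans]
  apply Path.Homotopic.Quotient.eq.mpr
  have h1 : ((δ.subpath 0 t).trans (δ.subpath t 1)).Homotopic (δ.subpath 0 1) :=
    ⟨Path.Homotopy.subpathTransSubpath δ _ _ _⟩
  have h2 := h1.pathCast δ.source.symm δ.target.symm
  have h3 : (δ.subpath 0 1).cast δ.source.symm δ.target.symm = δ := by
    rw [Path.subpath_zero_one]
    ext t
    rfl
  rw [h3] at h2
  exact h2.symm

/-- classes with representatives avoiding the exceptional divisor before the end -/
def AA (x : XX m) (τ : Path.Homotopic.Quotient (x₀ m) x) : Prop :=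
  ∃ p : Path (x₀ m) x, Path.Homotopic.Quotient.mk p = τ ∧ ∀ t, (p t).1 0 = 0 → t = 1

/-- segments in a convex subset -/
lemma exists_segment {C : Set (Fin (m + 1) → ℂ)} (hC : Convex ℝ C)
    (hCX : ∀ s ∈ C, MvPolynomial.eval s (hP m) ≠ 0) {a b : XX m} (ha : a.1 ∈ C) (hb : b.1 ∈ C) :
    ∃ η : Path a b, (∀ t, (η t).1 ∈ C) ∧
      ∀ t, (η t).1 = (1 - (t : ℝ)) • a.1 + (t : ℝ) • b.1 := by
  have hmem : ∀ t : unitInterval, (1 - (t : ℝ)) • a.1 + (t : ℝ) • b.1 ∈ C := fun t =>
    hC ha hb (by have := t.2.2; linarith) t.2.1 (by ring)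
  refine ⟨⟨⟨fun t => ⟨(1 - (t : ℝ)) • a.1 + (t : ℝ) • b.1, hCX _ (hmem t)⟩, by fun_prop⟩,
    ?_, ?_⟩, fun t => hmem t, fun t => rfl⟩
  · apply Subtype.ext; simp
  · apply Subtype.ext; simp

lemma exists_avoid {C : Set (Fin (m + 1) → ℂ)} (hC : Convex ℝ C) (hCo : IsOpen C)
    (hCX : ∀ s ∈ C, MvPolynomial.eval s (hP m) ≠ 0) {z c : XX m} (hz : z.1 ∈ C) (hc : c.1 ∈ C)
    (hz0 : z.1 0 ≠ 0) : ∃ η : Path z c, (∀ t, (η t).1 ∈ C) ∧ ∀ t, (η t).1 0 = 0 → t = 1 := by
  obtain ⟨η, hη, hη'⟩ := exists_segment hC hCX hz hc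
  by_cases hcase : ∀ t, (η t).1 0 = 0 → t = 1
  · exact ⟨η, hη, hcase⟩
  · push Not at hcase
    obtain ⟨t₀, ht₀, ht₀'⟩ := hcase
    rw [hη'] at ht₀
    simp only [Pi.add_apply, Pi.smul_apply, real_smul] at ht₀
    have ht0ne : (t₀ : ℝ) ≠ 0 := by
      intro h
      rw [h] at ht₀
      simp at ht₀
      exact hz0 ht₀
    have ht1ne : (t₀ : ℝ) ≠ 1 := fun h => ht₀' (Subtype.ext h)
    -- the ratio
    set ρ : ℝ := -((1 - (t₀ : ℝ)) / t₀) with hρ
    have hρne : ρ ≠ 0 := by
      rw [hρ]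
      simp only [neg_ne_zero]
      exact div_ne_zero (sub_ne_zero.mpr (Ne.symm ht1ne)) ht0ne
    have hcz : c.1 0 = ρ * z.1 0 := by
      have h1 : ((t₀ : ℝ) : ℂ) ≠ 0 := by exact_mod_cast ht0ne
      have h2 : c.1 0 = -((1 - (t₀ : ℝ) : ℝ) : ℂ) * z.1 0 / ((t₀ : ℝ) : ℂ) := by
        field_simp
        linear_combination ht₀
      rw [h2, hρ]
      push_cast
      field_simp
    -- the intermediate point
    let mid : ℝ → (Fin (m + 1) → ℂ) := fun η =>
      (1 / 2 : ℝ) • z.1 + (1 / 2 : ℝ) • c.1 + η • ((I * z.1 0) • e0 ℂ)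
    have hmid0 : mid 0 ∈ C := by
      have : mid 0 = (1 / 2 : ℝ) • z.1 + (1 / 2 : ℝ) • c.1 := by simp [mid]
      rw [this]
      exact hC hz hc (by norm_num) (by norm_num) (by norm_num)
    have hmidc : Continuous mid := by
      unfold mid
      fun_prop
    have hev : ∀ᶠ η in 𝓝[>] (0 : ℝ), mid η ∈ C :=
      ((hCo.preimage hmidc).mem_nhds hmid0 : _) |> fun h => mem_nhdsWithin_of_mem_nhds h
    obtain ⟨η₀, hη₀, hη₀'⟩ := (hev.and self_mem_nhdsWithin).exists
    have hη₀pos : (0 : ℝ) < η₀ := hη₀'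
    have hm0 : mid η₀ 0 = (((1 + ρ) / 2 : ℝ) + η₀ * I) * z.1 0 := by
      simp only [mid, Pi.add_apply, Pi.smul_apply, real_smul, e0, Pi.single_eq_same, smul_eq_mul,
        mul_one, hcz]
      push_cast
      ring
    let M : XX m := ⟨mid η₀, hCX _ hη₀⟩
    obtain ⟨η₁, hη₁, hη₁'⟩ := exists_segment hC hCX hz (show M.1 ∈ C from hη₀)
    obtain ⟨η₂, hη₂, hη₂'⟩ := exists_segment hC hCX (show M.1 ∈ C from hη₀) hc
    have h1 : ∀ t, (η₁ t).1 0 ≠ 0 := by
      intro t h
      rw [hη₁'] at h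
      change ((1 - (t : ℝ) : ℝ) : ℂ) * z.1 0 + ((t : ℝ) : ℂ) * mid η₀ 0 = 0 at h
      rw [hm0] at h
      have h2 : (((1 - (t : ℝ) : ℝ) : ℂ) + ((t : ℝ) : ℂ) * (((1 + ρ) / 2 : ℝ) + η₀ * I)) * z.1 0
          = 0 := by linear_combination h
      rcases mul_eq_zero.mp h2 with h3 | h3
      · have him := congrArg Complex.im h3
        have hre := congrArg Complex.re h3
        simp at him hre
        rcases him with h4 | h4
        · rw [h4] at hre; simp at hre
        · exact absurd h4 hη₀pos.ne'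
      · exact hz0 h3
    have h2 : ∀ t, (η₂ t).1 0 ≠ 0 := by
      intro t h
      rw [hη₂'] at h
      change ((1 - (t : ℝ) : ℝ) : ℂ) * mid η₀ 0 + ((t : ℝ) : ℂ) * c.1 0 = 0 at h
      rw [hm0, hcz] at h
      have h2 : (((1 - (t : ℝ) : ℝ) : ℂ) * (((1 + ρ) / 2 : ℝ) + η₀ * I) + ((t : ℝ) : ℂ) * ρ)
          * z.1 0 = 0 := by linear_combination h
      rcases mul_eq_zero.mp h2 with h3 | h3
      · have him := congrArg Complex.im h3
        have hre := congrArg Complex.re h3
        simp at him hre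
        rcases him with h4 | h4
        · have h5 : (t : ℝ) = 1 := by linarith
          rw [h5] at hre
          simp at hre
          exact hρne hre
        · exact absurd h4 hη₀pos.ne'
      · exact hz0 h3
    refine ⟨η₁.trans η₂, ?_, ?_⟩
    · intro t
      rw [Path.trans_apply]
      split_ifs
      · exact hη₁ _
      · exact hη₂ _
    · intro t ht
      rw [Path.trans_apply] at ht
      split_ifs at ht
      · exact absurd ht (h1 _)
      · exact absurd ht (h2 _)

lemma isOpen_hP : IsOpen {x : Fin (m + 1) → ℂ | MvPolynomial.eval x (hP m) ≠ 0} := by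
  have : Continuous (fun x : Fin (m + 1) → ℂ => MvPolynomial.eval x (hP m)) :=
    MvPolynomial.continuous_eval _
  exact isOpen_ne_fun this continuous_const

lemma AA_all (a b : XX m) (p : Path a b) :
    ∀ τ : Path.Homotopic.Quotient (x₀ m) a, AA a τ →
      AA b (τ.trans (Path.Homotopic.Quotient.mk p)) := by
  refine path_induction (Y := XX m) (fun a b α => ∀ τ : Path.Homotopic.Quotient (x₀ m) a,
    AA a τ → AA b (τ.trans α)) ?_ ?_ a b p
  · intro a b c α β hα hβ τ hτ
    rw [← Path.Homotopic.Quotient.trans_assoc]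
    exact hβ _ (hα _ hτ)
  · intro y
    obtain ⟨r, hr, hball⟩ := Metric.isOpen_iff.mp (isOpen_hP (m := m)) y.1 y.2
    have hC : Convex ℝ (Metric.ball y.1 r) := convex_ball _ _
    have hCX : ∀ s ∈ Metric.ball y.1 r, MvPolynomial.eval s (hP m) ≠ 0 := fun s hs => hball hs
    refine ⟨Subtype.val ⁻¹' (Metric.ball y.1 r), ?_, ?_⟩
    · exact (Metric.isOpen_ball.preimage continuous_subtype_val).mem_nhds (Metric.mem_ball_self hr)
    · intro a c p hp τ hτ
      obtain ⟨δ, rfl, hδ⟩ := hτ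
      have ha : a.1 ∈ Metric.ball y.1 r := by
        have := hp 0
        rw [p.source] at this
        exact this
      have hc : c.1 ∈ Metric.ball y.1 r := by
        have := hp 1
        rw [p.target] at this
        exact this
      -- find t₁
      have hopen : IsOpen {t : unitInterval | (δ t).1 ∈ Metric.ball y.1 r} :=
        Metric.isOpen_ball.preimage (continuous_subtype_val.comp δ.continuous)
      have h1mem : (1 : unitInterval) ∈ {t : unitInterval | (δ t).1 ∈ Metric.ball y.1 r} := by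
        simpa using ha
      obtain ⟨e, he, he'⟩ := Metric.isOpen_iff.mp hopen 1 h1mem
      set t₁ : unitInterval := ⟨max 0 (1 - e / 2), by
        constructor
        · exact le_max_left _ _
        · exact max_le zero_le_one (by linarith)⟩ with ht₁
      have ht₁lt : (t₁ : ℝ) < 1 := by
        change max 0 (1 - e / 2) < 1
        exact max_lt zero_lt_one (by linarith)
      have hin : ∀ t : unitInterval, (t₁ : ℝ) ≤ t → (δ t).1 ∈ Metric.ball y.1 r := by
        intro t ht
        apply he'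
        rw [Metric.mem_ball, Subtype.dist_eq, Real.dist_eq]
        have h1 := t.2.2
        have h2 : 1 - e / 2 ≤ (t : ℝ) := le_trans (le_max_right _ _) ht
        rw [abs_sub_comm, abs_of_nonneg (by simpa using h1)]
        simp only [Icc.coe_one]
        linarith
      set z : XX m := δ t₁ with hz
      have hz0 : z.1 0 ≠ 0 := by
        intro h
        have := hδ t₁ h
        rw [this] at ht₁lt
        simp at ht₁lt
      obtain ⟨η, hη, hη'⟩ := exists_avoid hC Metric.isOpen_ball hCX (hin t₁ le_rfl) hc hz0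
      set δ₁ := (δ.subpath 0 t₁).cast δ.source.symm rfl with hδ₁
      set δ₂ := (δ.subpath t₁ 1).cast rfl δ.target.symm with hδ₂
      have h2 : (Path.Homotopic.Quotient.mk δ₂).trans (Path.Homotopic.Quotient.mk p)
          = Path.Homotopic.Quotient.mk η := by
        refine Rep.unique (F := id) (S := Metric.ball y.1 r) (z₀ := y.1)
          (hC.starConvex (Metric.mem_ball_self hr)) continuousOn_id hCX (a := z.1) (b := c.1)
          (Rep.trans (b := a.1) ?_ ?_) ?_
        · refine ⟨δ₂, rfl, δ₂.map continuous_subtype_val, ?_, fun t => rfl⟩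
          intro t
          change ((δ.subpath t₁ 1) t).1 ∈ _
          have h3 : (δ.subpath t₁ 1) t ∈ range (δ.subpath t₁ 1) := ⟨t, rfl⟩
          rw [Path.range_subpath_of_le _ _ _ (show t₁ ≤ 1 from t₁.2.2)] at h3
          obtain ⟨s, hs, hs'⟩ := h3
          rw [← hs']
          exact hin s hs.1
        · exact ⟨p, rfl, p.map continuous_subtype_val, hp, fun t => rfl⟩
        · exact ⟨η, rfl, η.map continuous_subtype_val, hη, fun t => rfl⟩
      refine ⟨δ₁.trans η, ?_, ?_⟩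
      · rw [mk_split δ t₁, Path.Homotopic.Quotient.trans_assoc, h2,
          Path.Homotopic.Quotient.mk_trans]
      · intro t ht
        rw [Path.trans_apply] at ht
        split_ifs at ht with hlt
        · exfalso
          have h3 : ((δ.subpath 0 t₁) ⟨2 * t, (unitInterval.mul_pos_mem_iff zero_lt_two).2
              ⟨t.2.1, hlt⟩⟩).1 0 = 0 := ht
          have h4 : (δ.subpath 0 t₁) ⟨2 * t, (unitInterval.mul_pos_mem_iff zero_lt_two).2
              ⟨t.2.1, hlt⟩⟩ ∈ range (δ.subpath 0 t₁) := ⟨_, rfl⟩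
          rw [Path.range_subpath_of_le _ _ _ (show 0 ≤ t₁ from t₁.2.1)] at h4
          obtain ⟨s, hs, hs'⟩ := h4
          rw [← hs'] at h3
          have h5 := hδ s h3
          have h6 : (s : ℝ) ≤ t₁ := hs.2
          rw [h5] at h6
          simp at h6
          linarith
        · have h3 := hη' _ ht
          have h4 : 2 * (t : ℝ) - 1 = 1 := congrArg Subtype.val h3
          have h5 : (t : ℝ) = 1 := by linarith
          exact Subtype.ext h5

end push

lemma x₀_zero_ne : (x₀ m).1 0 ≠ 0 := by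
  have h := (lft_x₀ (m := m) 0) 0
  intro h0
  have h1 : E2 ((pt 0 0 : Fin (m + 1) → ℂ) 0) = 1 := by
    rw [h]
    change 1 + (x₀ m).1 0 = 1
    rw [h0, add_zero]
  have h2 := E2_lam_ne_one (pt_mem_U0 (m := m) 0 0) ∅
  rw [lam_empty] at h2
  exact h2 h1

/-- **Generation.** -/
theorem HG_eq_top : HG m = ⊤ := by
  rw [eq_top_iff]
  intro α _
  obtain ⟨p, hp⟩ := Path.Homotopic.Quotient.mk_surjective (FundamentalGroup.toPath α)
  have h0 : AA (x₀ m) (Path.Homotopic.Quotient.refl (x₀ m)) :=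
    ⟨Path.refl _, rfl, fun t ht => absurd ht x₀_zero_ne⟩
  have h1 := AA_all _ _ p _ h0
  rw [Path.Homotopic.Quotient.refl_trans] at h1
  obtain ⟨p', hp', hp''⟩ := h1
  have h2 : ∀ t, (p' t).1 0 ≠ 0 := by
    intro t ht
    have := hp'' t ht
    rw [this, p'.target] at ht
    exact x₀_zero_ne ht
  have h3 := mem_HG_of_avoid p' h2
  rw [hp', hp] at h3
  exact h3

end Pool.Agent.Q71.NC
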