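import Pool.Agent.Q71.NC.Top3

/-!
# Phase functions
-/

namespace Pool.Agent.Q71.NC

open Complex Set Topology Filter

/-! ### Phases -/

/-- The phase of a complex number. -/
noncomputable def ph (z : ℂ) : Circle := Circle.exp (arg z)

lemma ph_coe (z : ℂ) : (ph z : ℂ) = exp (arg z * I) := by
  rw [ph, Circle.coe_exp]

lemma ph_coe' {z : ℂ} (hz : z ≠ 0) : (ph z : ℂ) = z / ‖z‖ := by
  rw [ph_coe]
  have h := norm_mul_exp_arg_mul_I z
  have hn : (‖z‖ : ℂ) ≠ 0 := by exact_mod_cast (norm_ne_zero_iff.mpr hz)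
  rw [eq_div_iff hn, mul_comm]
  exact h

lemma ph_mul {z w : ℂ} (hz : z ≠ 0) (hw : w ≠ 0) : ph (z * w) = ph z * ph w := by
  apply Circle.ext
  rw [Circle.coe_mul, ph_coe' hz, ph_coe' hw, ph_coe' (mul_ne_zero hz hw), norm_mul]
  push_cast
  rw [div_mul_div_comm]

lemma continuousAt_ph {z : ℂ} (hz : z ≠ 0) : ContinuousAt ph z := by
  have hind : Topology.IsInducing (fun c : Circle => (c : ℂ)) := Topology.IsInducing.subtypeVal
  rw [hind.continuousAt_iff]
  have h1 : ContinuousAt (fun z : ℂ => z / (‖z‖ : ℂ)) z := by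
    apply ContinuousAt.div continuousAt_id
    · exact (continuous_ofReal.comp continuous_norm).continuousAt
    · exact_mod_cast (norm_ne_zero_iff.mpr hz)
  apply h1.congr
  filter_upwards [isOpen_ne.mem_nhds hz] with w hw
  exact (ph_coe' hw).symm

lemma ph_of_pos {z : ℂ} (h : arg z = 0) : ph z = 1 := by
  rw [ph, h, Circle.exp_zero]

/-- rounding -/
noncomputable def rd (x : ℝ) : ℤ := ⌊x + 1 / 2⌋

lemma rd_add_int (x : ℝ) (k : ℤ) : rd (x + k) = rd x + k := by
  unfold rd
  rw [show x + k + 1 / 2 = x + 1 / 2 + k by ring, Int.floor_add_intCast]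

lemma rd_half (k : ℤ) : rd (1 / 2 + k) = k + 1 := by
  unfold rd
  rw [show (1 / 2 + (k : ℝ) + 1 / 2) = ((k + 1 : ℤ) : ℝ) by push_cast; ring, Int.floor_intCast]

lemma rd_int (k : ℤ) : rd (k : ℝ) = k := by
  unfold rd
  rw [Int.floor_eq_iff]
  constructor <;> norm_num

lemma eventually_rd_eq {x : ℝ} (h : x + 1 / 2 ≠ rd x) : ∀ᶠ y in 𝓝 x, rd y = rd x := by
  have h1 : (rd x : ℝ) < x + 1 / 2 := lt_of_le_of_ne (Int.floor_le _) (Ne.symm h)
  have h2 : x + 1 / 2 < (rd x : ℝ) + 1 := Int.lt_floor_add_one _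
  have hc : ContinuousAt (fun y : ℝ => y + 1 / 2) x := by fun_prop
  filter_upwards [hc.eventually_const_lt h1, hc.eventually_lt_const h2] with y hy1 hy2
  exact Int.floor_eq_iff.mpr ⟨hy1.le, hy2⟩

lemma eventually_rd_or (x : ℝ) : ∀ᶠ y in 𝓝 x, rd y = rd x ∨ rd y = rd x - 1 := by
  have h1 : (rd x : ℝ) - 1 < x + 1 / 2 := by
    have : (rd x : ℝ) ≤ x + 1 / 2 := Int.floor_le _
    linarith
  have h2 : x + 1 / 2 < (rd x : ℝ) + 1 := Int.lt_floor_add_one _
  have hc : ContinuousAt (fun y : ℝ => y + 1 / 2) x := by fun_prop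
  filter_upwards [hc.eventually_const_lt h1, hc.eventually_lt_const h2] with y hy1 hy2
  by_cases h : (rd x : ℝ) ≤ y + 1 / 2
  · left; exact Int.floor_eq_iff.mpr ⟨h, hy2⟩
  · right
    push Not at h
    apply Int.floor_eq_iff.mpr
    push_cast
    exact ⟨hy1.le, by linarith⟩

lemma tendsto_two {α E : Type*} {l : Filter α} {L : Filter E} {f g h : α → E}
    (hf : ∀ᶠ a in l, f a = g a ∨ f a = h a) (hg : Tendsto g l L) (hh : Tendsto h l L) :
    Tendsto f l L := by
  intro U hU
  have h1 : ∀ᶠ a in l, g a ∈ U := hg hU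
  have h2 : ∀ᶠ a in l, h a ∈ U := hh hU
  change ∀ᶠ a in l, f a ∈ U
  filter_upwards [hf, h1, h2] with a ha h1 h2
  rcases ha with h | h
  · rw [h]; exact h1
  · rw [h]; exact h2

/-- a jump which is invisible -/
lemma continuousAt_zpow_rd {A : Type*} [TopologicalSpace A] (n : ℤ → ℤ) {u : A → ℝ}
    {f : A → Circle} {a : A} (hu : ContinuousAt u a) (hf : ContinuousAt f a)
    (h : u a + 1 / 2 = rd (u a) → f a = 1) : ContinuousAt (fun b => f b ^ n (rd (u b))) a := by
  by_cases hc : u a + 1 / 2 = rd (u a)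
  · have h1 := h hc
    have hval : f a ^ n (rd (u a)) = 1 := by rw [h1, one_zpow]
    change Tendsto (fun b => f b ^ n (rd (u b))) (𝓝 a) (𝓝 (f a ^ n (rd (u a))))
    rw [hval]
    have hpow : ∀ k : ℤ, Tendsto (fun b => f b ^ k) (𝓝 a) (𝓝 1) := by
      intro k
      have : ContinuousAt (fun b => f b ^ k) a := hf.zpow k
      have h2 := this.tendsto
      rwa [h1, one_zpow] at h2
    apply tendsto_two (g := fun b => f b ^ n (rd (u a))) (h := fun b => f b ^ n (rd (u a) - 1))
      _ (hpow _) (hpow _)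
    filter_upwards [hu.eventually (eventually_rd_or (u a))] with b hb
    rcases hb with hb | hb <;> simp [hb]
  · have : ContinuousAt (fun b => f b ^ n (rd (u a))) a := hf.zpow _
    apply this.congr
    filter_upwards [hu.eventually (eventually_rd_eq hc)] with b hb
    rw [hb]

lemma E2_re_half {ζ : ℂ} {k : ℤ} (h : ζ.re + 1 / 2 = k) :
    E2 ζ = -(Real.exp (-(2 * Real.pi * ζ.im)) : ℂ) := by
  have h1 : ζ = (k : ℂ) + (-(1 / 2) + ζ.im * I) := by
    apply Complex.ext
    · simp; linarith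
    · simp
  conv_lhs => rw [h1]
  rw [E2_add, E2_int, one_mul]
  unfold E2
  rw [show 2 * Real.pi * I * (-(1 / 2) + ζ.im * I) = -(Real.pi * I)
    + ((-(2 * Real.pi * ζ.im) : ℝ) : ℂ) by
      push_cast
      linear_combination (2 * Real.pi * ζ.im : ℂ) * I_sq]
  rw [exp_add, exp_neg, exp_pi_mul_I, ← ofReal_exp]
  norm_num

lemma arg_one_sub_half {ζ : ℂ} {k : ℤ} (h : ζ.re + 1 / 2 = k) : arg (1 - E2 ζ) = 0 := by
  rw [E2_re_half h]
  have : (1 : ℂ) - -(Real.exp (-(2 * Real.pi * ζ.im)) : ℂ)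
      = ((1 + Real.exp (-(2 * Real.pi * ζ.im)) : ℝ) : ℂ) := by push_cast; ring
  rw [this]
  apply arg_ofReal_of_nonneg
  positivity

/-- the basic multivalued function -/
noncomputable def theta (n : ℤ → ℤ) (ζ : ℂ) : Circle := ph (1 - E2 ζ) ^ n (rd ζ.re)

lemma continuousAt_theta (n : ℤ → ℤ) {ζ : ℂ} (hζ : E2 ζ ≠ 1) : ContinuousAt (theta n) ζ := by
  unfold theta
  apply continuousAt_zpow_rd n
  · exact continuous_re.continuousAt
  · have h1 : ContinuousAt (fun ζ => 1 - E2 ζ) ζ := by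
      have := continuous_E2
      fun_prop
    exact ContinuousAt.comp (g := ph) (f := fun ζ => 1 - E2 ζ)
      (continuousAt_ph (sub_ne_zero.mpr (Ne.symm hζ))) h1
  · intro h
    exact ph_of_pos (arg_one_sub_half h)

variable {m : ℕ}

/-- The global multivalued function. -/
noncomputable def TH (φ : Finset (Fin m) → ℤ → ℤ) (x w : Fin (m + 1) → ℂ) : Circle :=
  ph (x 0) ^ (∑ ε, φ ε (rd (lam ε w).re)) *
    ∏ ε, ph (-MvPolynomial.eval x (gP ε)) ^ φ ε (rd (lam ε w).re)

lemma zpow_sum' {G ι : Type*} [CommGroup G] (a : G) (s : Finset ι) (f : ι → ℤ) :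
    a ^ (∑ i ∈ s, f i) = ∏ i ∈ s, a ^ f i := by
  classical
  induction s using Finset.induction_on with
  | empty => simp
  | insert i s hi ih => rw [Finset.sum_insert hi, Finset.prod_insert hi, zpow_add, ih]

lemma TH_eq (φ : Finset (Fin m) → ℤ → ℤ) {x w : Fin (m + 1) → ℂ}
    (hx : MvPolynomial.eval x (hP m) ≠ 0) (hx0 : x 0 ≠ 0) (h : Lft x w) :
    TH φ x w = ∏ ε, theta (φ ε) (lam ε w) := by
  unfold TH theta
  rw [zpow_sum', ← Finset.prod_mul_distrib]
  apply Finset.prod_congr rfl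
  intro ε _
  rw [← mul_zpow]
  congr 1
  have h2 := ((hP_ne_zero_iff x).mp hx).2.2 ε
  rw [← ph_mul hx0 (neg_ne_zero.mpr h2), h.lam ε]
  congr 1
  ring

lemma TH_add (φ ψ : Finset (Fin m) → ℤ → ℤ) (x w : Fin (m + 1) → ℂ) :
    TH (φ + ψ) x w = TH φ x w * TH ψ x w := by
  unfold TH
  simp only [Pi.add_apply, Finset.sum_add_distrib, zpow_add, Finset.prod_mul_distrib]
  exact mul_mul_mul_comm _ _ _ _

lemma TH_shift (φ : Finset (Fin m) → ℤ → ℤ) (v : Fin (m + 1) → ℤ) (x w : Fin (m + 1) → ℂ) :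
    TH φ x (w + castC v) = TH (shiftA v φ) x w := by
  unfold TH shiftA
  have : ∀ ε : Finset (Fin m), rd (lam ε (w + castC v)).re = rd (lam ε w).re + lam ε v := by
    intro ε
    rw [lam_add, lam_castC, add_re, intCast_re, rd_add_int]
  simp only [this]

theorem continuous_TH {A : Type*} [TopologicalSpace A] {φ : Finset (Fin m) → ℤ → ℤ}
    (hφ : φ ∈ Adm m) {p q : A → Fin (m + 1) → ℂ} (hp : Continuous p) (hq : Continuous q)
    (hpX : ∀ a, MvPolynomial.eval (p a) (hP m) ≠ 0) (hpq : ∀ a, Lft (p a) (q a)) :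
    Continuous (fun a => TH φ (p a) (q a)) := by
  rw [continuous_iff_continuousAt]
  intro a
  have hlam : ∀ ε : Finset (Fin m), Continuous (fun b => lam ε (q b)) :=
    fun ε => (continuous_lam ε).comp hq
  have hp0 : Continuous (fun b => p b 0) := (continuous_apply 0).comp hp
  by_cases h0 : p a 0 = 0
  · have hint : ∀ k, ∃ v : ℤ, q a k = v := by
      intro k
      apply E2_eq_one_iff.mp
      rw [hpq a k]
      refine Fin.cases ?_ ?_ k
      · change 1 + p a 0 = 1; rw [h0, add_zero]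
      · intro j
        change 1 + p a 0 * p a j.succ = 1
        rw [h0, zero_mul, add_zero]
    choose v hv using hint
    have hqa : q a = castC v := funext hv
    have hev : ∀ᶠ b in 𝓝 a, ∀ ε, rd (lam ε (q b)).re = lam ε v := by
      rw [eventually_all]
      intro ε
      have hc : ContinuousAt (fun b => (lam ε (q b)).re) a :=
        (continuous_re.comp (hlam ε)).continuousAt
      have hra : (lam ε (q a)).re = ((lam ε v : ℤ) : ℝ) := by
        rw [hqa, lam_castC, intCast_re]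
      have hne : (lam ε (q a)).re + 1 / 2 ≠ rd (lam ε (q a)).re := by
        rw [hra, rd_int]
        norm_num
      filter_upwards [hc.eventually (eventually_rd_eq hne)] with b hb
      rw [hb, hra, rd_int]
    have hcont : ContinuousAt (fun b => ∏ ε : Finset (Fin m),
        ph (-MvPolynomial.eval (p b) (gP ε)) ^ φ ε (lam ε v)) a := by
      apply tendsto_finsetProd
      intro ε _
      apply ContinuousAt.zpow
      have h1 : ContinuousAt (fun b => -MvPolynomial.eval (p b) (gP ε)) a :=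
        ((MvPolynomial.continuous_eval _).comp hp).neg.continuousAt
      exact ContinuousAt.comp (g := ph)
        (continuousAt_ph (neg_ne_zero.mpr (((hP_ne_zero_iff (p a)).mp (hpX a)).2.2 ε))) h1
    apply hcont.congr
    filter_upwards [hev] with b hb
    unfold TH
    simp only [hb]
    rw [hφ v, zpow_zero, one_mul]
  · have hev : ∀ᶠ b in 𝓝 a, p b 0 ≠ 0 := hp0.continuousAt.eventually_ne h0
    have hcont : ContinuousAt (fun b => ∏ ε : Finset (Fin m), theta (φ ε) (lam ε (q b))) a := by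
      apply tendsto_finsetProd
      intro ε _
      refine ContinuousAt.comp (g := theta (φ ε)) (f := fun b => lam ε (q b))
        (continuousAt_theta _ ?_) (hlam ε).continuousAt
      rw [(hpq a).lam ε]
      intro h
      have h3 : p a 0 * MvPolynomial.eval (p a) (gP ε) = 0 := by linear_combination h
      rcases mul_eq_zero.mp h3 with h4 | h4
      · exact h0 h4
      · exact ((hP_ne_zero_iff (p a)).mp (hpX a)).2.2 ε h4
    apply hcont.congr
    filter_upwards [hev] with b hb
    exact (TH_eq φ (hpX b) hb (hpq b)).symm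

end Pool.Agent.Q71.NC
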