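import Pool.Agent.Q71.NC.Top4

/-!
# The crossed homomorphism
-/

namespace Pool.Agent.Q71.NC

open Complex Set Topology Filter

variable {m : ℕ}

lemma exists_E2 {z : ℂ} (hz : z ≠ 0) : ∃ c, E2 c = z := by
  refine ⟨(2 * Real.pi * I)⁻¹ * log z, ?_⟩
  unfold E2
  rw [← mul_assoc, mul_inv_cancel₀ two_pi_I_ne, one_mul, exp_log hz]

lemma circle_ne_zero (c : Circle) : (c : ℂ) ≠ 0 := Circle.coe_ne_zero c

lemma cont_coe : Continuous (fun c : Circle => (c : ℂ)) := continuous_subtype_val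

lemma coe_prod_circle {ι : Type*} (s : Finset ι) (f : ι → Circle) :
    ((∏ i ∈ s, f i : Circle) : ℂ) = ∏ i ∈ s, (f i : ℂ) := by
  classical
  induction s using Finset.induction_on with
  | empty => simp
  | insert i s hi ih => rw [Finset.prod_insert hi, Finset.prod_insert hi, Circle.coe_mul, ih]

/-- The transport relation. -/
def Tr (φ : Finset (Fin m) → ℤ → ℤ) {x y : XX m} (α : Path.Homotopic.Quotient x y)
    (w w' : Fin (m + 1) → ℂ) (ρ : ℂ) : Prop :=
  ∃ p : Path x y, Path.Homotopic.Quotient.mk p = α ∧ ∃ q : Path w w',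
    (∀ t, Lft (p t).1 (q t)) ∧ ∃ (c c' : ℂ) (g : Path c c'),
      (∀ t, E2 (g t) = (TH φ (p t).1 (q t) : ℂ)) ∧ c' - c = ρ

lemma exists_lift_TH {φ : Finset (Fin m) → ℤ → ℤ} (hφ : φ ∈ Adm m) {x y : XX m} (p : Path x y)
    {w w' : Fin (m + 1) → ℂ} (q : Path w w') (h : ∀ t, Lft (p t).1 (q t)) :
    ∃ (c c' : ℂ) (g : Path c c'), ∀ t, E2 (g t) = (TH φ (p t).1 (q t) : ℂ) := by
  have hc : Continuous (fun t => (TH φ (p t).1 (q t) : ℂ)) :=
    cont_coe.comp (continuous_TH hφ (continuous_subtype_val.comp p.continuous)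
      q.continuous (fun t => (p t).2) h)
  obtain ⟨c, hc'⟩ := exists_E2 (circle_ne_zero (TH φ (p 0).1 (q 0)))
  obtain ⟨g, hg0, hg⟩ := exists_E2_lift ⟨_, hc⟩ (fun t => circle_ne_zero _) c hc'
  exact ⟨c, g 1, ⟨g, hg0, rfl⟩, hg⟩

namespace Tr

variable {φ ψ : Finset (Fin m) → ℤ → ℤ} {x y z : XX m}

lemma exists_all (hφ : φ ∈ Adm m) (α : Path.Homotopic.Quotient x y) {w : Fin (m + 1) → ℂ}
    (hw : Lft x.1 w) : ∃ w' ρ, Tr φ α w w' ρ := by
  obtain ⟨p, hp⟩ := Path.Homotopic.Quotient.mk_surjective α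
  obtain ⟨w', q, hq⟩ := exists_lift p w hw
  obtain ⟨c, c', g, hg⟩ := exists_lift_TH hφ p q hq
  exact ⟨w', c' - c, p, hp, q, hq, c, c', g, hg, rfl⟩

/-- changing the test family -/
lemma change (hψ : ψ ∈ Adm m) {α : Path.Homotopic.Quotient x y} {w w' : Fin (m + 1) → ℂ} {ρ : ℂ}
    (h : Tr φ α w w' ρ) : ∃ ρ', Tr ψ α w w' ρ' := by
  obtain ⟨p, hp, q, hq, -⟩ := h
  obtain ⟨c, c', g, hg⟩ := exists_lift_TH hψ p q hq
  exact ⟨c' - c, p, hp, q, hq, c, c', g, hg, rfl⟩

lemma right_lft {α : Path.Homotopic.Quotient x y} {w w' : Fin (m + 1) → ℂ} {ρ : ℂ}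
    (h : Tr φ α w w' ρ) : Lft y.1 w' := by
  obtain ⟨p, hp, q, hq, -⟩ := h
  have := hq 1
  rwa [p.target, q.target] at this

theorem unique (hφ : φ ∈ Adm m) {α : Path.Homotopic.Quotient x y} {w w₁ w₂ : Fin (m + 1) → ℂ}
    {ρ₁ ρ₂ : ℂ} (h₁ : Tr φ α w w₁ ρ₁) (h₂ : Tr φ α w w₂ ρ₂) : w₁ = w₂ ∧ ρ₁ = ρ₂ := by
  obtain ⟨p₁, hp₁, q₁, hq₁, c₁, c₁', g₁, hg₁, rfl⟩ := h₁
  obtain ⟨p₂, hp₂, q₂, hq₂, c₂, c₂', g₂, hg₂, rfl⟩ := h₂
  obtain ⟨F⟩ := Path.Homotopic.Quotient.eq.mp (hp₁.trans hp₂.symm)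
  have hFc : Continuous (fun t : unitInterval × unitInterval => (F (t.2, t.1)).1) :=
    continuous_subtype_val.comp (F.continuous.comp (continuous_snd.prodMk continuous_fst))
  have hlift : ∀ k, ∃ Q : C(unitInterval × unitInterval, ℂ), (∀ s, Q (0, s) = w k) ∧
      ∀ t, E2 (Q t) = yy0 (F (t.2, t.1)).1 k := by
    intro k
    have hc : Continuous (fun t : unitInterval × unitInterval => yy0 (F (t.2, t.1)).1 k) :=
      (continuous_apply k).comp (continuous_yy0.comp hFc)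
    refine exists_E2_lift2 ⟨_, hc⟩ (fun t => yy0_ne_zero _ k) (w k) ?_
    intro s
    change E2 (w k) = yy0 (F (s, 0)).1 k
    rw [F.source]
    have := hq₁ 0 k
    rwa [p₁.source, q₁.source] at this
  choose Q hQ0 hQ using hlift
  have e₁ : ∀ k t, Q k (t, 0) = q₁ t k := by
    intro k
    apply E2_lift_unique (g := fun t => Q k (t, 0)) (g' := fun t => q₁ t k)
      ((Q k).continuous.comp (continuous_id.prodMk continuous_const))
      ((continuous_apply k).comp q₁.continuous) _ 0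
    · rw [hQ0, q₁.source]
    · intro t
      rw [hQ, hq₁ t k]
      change yy0 (F (0, t)).1 k = _
      rw [F.apply_zero]
      rfl
  have e₂ : ∀ k t, Q k (t, 1) = q₂ t k := by
    intro k
    apply E2_lift_unique (g := fun t => Q k (t, 1)) (g' := fun t => q₂ t k)
      ((Q k).continuous.comp (continuous_id.prodMk continuous_const))
      ((continuous_apply k).comp q₂.continuous) _ 0
    · rw [hQ0, q₂.source]
    · intro t
      rw [hQ, hq₂ t k]
      change yy0 (F (1, t)).1 k = _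
      rw [F.apply_one]
      rfl
  have e₃ : ∀ k s, Q k (1, s) = Q k (1, 0) := by
    intro k
    apply E2_lift_unique (g := fun s => Q k (1, s)) (g' := fun _ => Q k (1, 0))
      ((Q k).continuous.comp (continuous_const.prodMk continuous_id)) continuous_const _ 0 rfl
    intro s
    rw [hQ, hQ]
    change yy0 (F (s, 1)).1 k = yy0 (F (0, 1)).1 k
    rw [F.target, F.target]
  have hw : w₁ = w₂ := by
    funext k
    rw [← q₁.target, ← q₂.target, ← e₁, ← e₂, e₃ k 1]
  refine ⟨hw, ?_⟩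
  have hQc : Continuous (fun (t : unitInterval × unitInterval) (k : Fin (m + 1)) => Q k t) := by
    fun_prop
  have hTc : Continuous (fun t : unitInterval × unitInterval =>
      (TH φ (F (t.2, t.1)).1 (fun k => Q k t) : ℂ)) :=
    cont_coe.comp (continuous_TH hφ hFc hQc (fun t => (F (t.2, t.1)).2)
      (fun t k => hQ k t))
  have hc₁ : E2 c₁ = (TH φ x.1 w : ℂ) := by
    have := hg₁ 0
    rwa [g₁.source, p₁.source, q₁.source] at this
  have hc₂ : E2 c₂ = (TH φ x.1 w : ℂ) := by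
    have := hg₂ 0
    rwa [g₂.source, p₂.source, q₂.source] at this
  obtain ⟨G, hG0, hG⟩ := exists_E2_lift2 ⟨_, hTc⟩ (fun t => circle_ne_zero _) c₁ (by
    intro s
    change E2 c₁ = (TH φ (F (s, 0)).1 (fun k => Q k (0, s)) : ℂ)
    rw [F.source, hc₁]
    have : (fun k => Q k (0, s)) = w := funext (fun k => hQ0 k s)
    rw [this])
  have f₁ : ∀ t, G (t, 0) = g₁ t := by
    apply E2_lift_unique (g := fun t => G (t, 0)) (g' := fun t => g₁ t)
      (G.continuous.comp (continuous_id.prodMk continuous_const)) g₁.continuous _ 0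
    · rw [hG0, g₁.source]
    · intro t
      rw [hG, hg₁]
      change (TH φ (F (0, t)).1 (fun k => Q k (t, 0)) : ℂ) = _
      have : (fun k => Q k (t, 0)) = q₁ t := funext (fun k => e₁ k t)
      rw [this, F.apply_zero]
      rfl
  have hc12 : E2 (c₁ - c₂) = 1 := by
    have h1 : E2 c₁ = E2 (c₁ - c₂) * E2 c₂ := by rw [← E2_add]; congr 1; ring
    rw [hc₁, hc₂] at h1
    have := circle_ne_zero (TH φ x.1 w)
    exact (mul_eq_right₀ this).mp h1.symm
  have f₂ : ∀ t, G (t, 1) = g₂ t + (c₁ - c₂) := by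
    apply E2_lift_unique (g := fun t => G (t, 1)) (g' := fun t => g₂ t + (c₁ - c₂))
      (G.continuous.comp (continuous_id.prodMk continuous_const)) (by fun_prop) _ 0
    · rw [hG0, g₂.source]; ring
    · intro t
      rw [hG, E2_add, hc12, mul_one, hg₂]
      change (TH φ (F (1, t)).1 (fun k => Q k (t, 1)) : ℂ) = _
      have : (fun k => Q k (t, 1)) = q₂ t := funext (fun k => e₂ k t)
      rw [this, F.apply_one]
      rfl
  have f₃ : ∀ s, G (1, s) = G (1, 0) := by
    apply E2_lift_unique (g := fun s => G (1, s)) (g' := fun _ => G (1, 0))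
      (G.continuous.comp (continuous_const.prodMk continuous_id)) continuous_const _ 0 rfl
    intro s
    rw [hG, hG]
    change (TH φ (F (s, 1)).1 (fun k => Q k (1, s)) : ℂ)
      = (TH φ (F (0, 1)).1 (fun k => Q k (1, 0)) : ℂ)
    have : (fun k => Q k (1, s)) = (fun k => Q k (1, 0)) := funext (fun k => e₃ k s)
    rw [this, F.target, F.target]
  have h1 := f₃ 1
  rw [f₁ 1, f₂ 1, g₁.target, g₂.target] at h1
  linear_combination -h1

lemma trans {α : Path.Homotopic.Quotient x y} {β : Path.Homotopic.Quotient y z}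
    {w w' w'' : Fin (m + 1) → ℂ} {ρ ρ' : ℂ} (h : Tr φ α w w' ρ) (h' : Tr φ β w' w'' ρ') :
    Tr φ (α.trans β) w w'' (ρ + ρ') := by
  obtain ⟨p, rfl, q, hq, c, c', g, hg, rfl⟩ := h
  obtain ⟨p', rfl, q', hq', d, d', g', hg', rfl⟩ := h'
  have hcd : E2 (c' - d) = 1 := by
    have h1 : E2 c' = E2 (c' - d) * E2 d := by rw [← E2_add]; congr 1; ring
    have h2 := hg 1
    have h3 := hg' 0
    rw [g.target, p.target, q.target] at h2
    rw [g'.source, p'.source, q'.source] at h3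
    rw [h2, h3] at h1
    exact (mul_eq_right₀ (circle_ne_zero _)).mp h1.symm
  let g'' : Path c' (c' + (d' - d)) :=
    { toFun := fun t => g' t + (c' - d)
      continuous_toFun := by fun_prop
      source' := by rw [g'.source]; ring
      target' := by rw [g'.target]; ring }
  have hg'' : ∀ t, E2 (g'' t) = (TH φ (p' t).1 (q' t) : ℂ) := by
    intro t
    change E2 (g' t + (c' - d)) = _
    rw [E2_add, hcd, mul_one, hg']
  refine ⟨p.trans p', Path.Homotopic.Quotient.mk_trans _ _, q.trans q', ?_, c, _, g.trans g'',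
    ?_, by ring⟩
  · intro t
    rw [Path.trans_apply, Path.trans_apply]
    split_ifs
    · exact hq _
    · exact hq' _
  · intro t
    rw [Path.trans_apply, Path.trans_apply, Path.trans_apply]
    split_ifs
    · exact hg _
    · exact hg'' _

lemma shift (v : Fin (m + 1) → ℤ) {α : Path.Homotopic.Quotient x y}
    {w w' : Fin (m + 1) → ℂ} {ρ : ℂ} (h : Tr (shiftA v φ) α w w' ρ) :
    Tr φ α (w + castC v) (w' + castC v) ρ := by
  obtain ⟨p, hp, q, hq, c, c', g, hg, hρ⟩ := h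
  refine ⟨p, hp, q.map (f := fun w => w + castC v) (by fun_prop), ?_, c, c', g, ?_, hρ⟩
  · intro t k
    change E2 (q t k + (v k : ℂ)) = _
    rw [E2_add, E2_int, mul_one]
    exact hq t k
  · intro t
    rw [hg]
    change _ = (TH φ (p t).1 (q t + castC v) : ℂ)
    rw [TH_shift]

lemma add (hψ : ψ ∈ Adm m) {α : Path.Homotopic.Quotient x y}
    {w w' : Fin (m + 1) → ℂ} {ρ ρ' : ℂ} (h : Tr φ α w w' ρ) (h' : Tr ψ α w w' ρ') :
    Tr (φ + ψ) α w w' (ρ + ρ') := by
  obtain ⟨p, hp, q, hq, c, c', g, hg, rfl⟩ := h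
  obtain ⟨d, d', g', hg'⟩ := exists_lift_TH hψ p q hq
  have h1 : Tr ψ α w w' (d' - d) := ⟨p, hp, q, hq, d, d', g', hg', rfl⟩
  have h2 := (unique hψ h1 h').2
  rw [← h2]
  let g'' : Path (c + d) (c' + d') :=
    { toFun := fun t => g t + g' t
      continuous_toFun := by fun_prop
      source' := by simp
      target' := by simp }
  refine ⟨p, hp, q, hq, _, _, g'', ?_, by ring⟩
  intro t
  change E2 (g t + g' t) = _
  rw [E2_add, hg, hg', TH_add, Circle.coe_mul]

end Tr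

lemma TH_base {φ : Finset (Fin m) → ℤ → ℤ} (v : Fin (m + 1) → ℤ) :
    TH φ (x₀ m).1 (pt v 0) = 1 := by
  rw [TH_eq φ (x₀ m).2 x₀_zero_ne (lft_x₀ v)]
  apply Finset.prod_eq_one
  intro ε _
  unfold theta
  rw [ph_of_pos, one_zpow]
  apply arg_one_sub_half (k := lam ε v + 1)
  rw [lam_pt_re]
  push_cast
  ring

lemma pt_inj {v v' : Fin (m + 1) → ℤ} (h : (pt v 0 : Fin (m + 1) → ℂ) = pt v' 0) : v = v' := by
  funext k
  have := congrFun h k
  simp only [pt, Pi.add_apply, castC] at this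
  have h2 : (v k : ℂ) = (v' k : ℂ) := by linear_combination this
  exact_mod_cast h2

lemma exists_vr {φ : Finset (Fin m) → ℤ → ℤ} (hφ : φ ∈ Adm m)
    (α : Path.Homotopic.Quotient (x₀ m) (x₀ m)) :
    ∃ (v : Fin (m + 1) → ℤ) (n : ℤ), Tr φ α (pt 0 0) (pt v 0) (n : ℂ) := by
  obtain ⟨w', ρ, h⟩ := Tr.exists_all hφ α (lft_x₀ 0)
  obtain ⟨v, hv⟩ := (lft_x₀ 0).ends h.right_lft
  rw [pt_add, add_zero] at hv
  subst hv
  obtain ⟨p, hp, q, hq, c, c', g, hg, hρ⟩ := h
  have h1 := hg 0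
  have h2 := hg 1
  rw [g.source, p.source, q.source, TH_base, Circle.coe_one] at h1
  rw [g.target, p.target, q.target, TH_base, Circle.coe_one] at h2
  obtain ⟨k, hk⟩ := E2_eq_iff.mp (h2.trans h1.symm)
  refine ⟨v, k, p, hp, q, hq, c, c', g, hg, ?_⟩
  rw [hk]; ring

/-- The translation part. -/
noncomputable def vT (α : FundamentalGroup (XX m) (x₀ m)) : Fin (m + 1) → ℤ :=
  (exists_vr (φ := 0) (Adm m).zero_mem (FundamentalGroup.toPath α)).choose

open Classical in
/-- The crossed homomorphism. -/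
noncomputable def rT (α : FundamentalGroup (XX m) (x₀ m)) (φ : Finset (Fin m) → ℤ → ℤ) : ℤ :=
  if h : φ ∈ Adm m then (exists_vr h (FundamentalGroup.toPath α)).choose_spec.choose else 0

lemma rT_spec (α : FundamentalGroup (XX m) (x₀ m)) {φ : Finset (Fin m) → ℤ → ℤ}
    (hφ : φ ∈ Adm m) : Tr φ (FundamentalGroup.toPath α) (pt 0 0) (pt (vT α) 0) (rT α φ : ℂ) := by
  have h1 := (exists_vr hφ (FundamentalGroup.toPath α)).choose_spec.choose_spec
  obtain ⟨n, h2⟩ := (exists_vr (φ := 0) (Adm m).zero_mem (FundamentalGroup.toPath α)).choose_spec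
  obtain ⟨ρ, h3⟩ := h1.change (ψ := 0) (Adm m).zero_mem
  have h4 := pt_inj (Tr.unique (Adm m).zero_mem h3 h2).1
  unfold rT vT
  rw [dif_pos hφ, ← h4]
  exact h1

lemma rT_unique {α : FundamentalGroup (XX m) (x₀ m)} {φ : Finset (Fin m) → ℤ → ℤ}
    (hφ : φ ∈ Adm m) {v : Fin (m + 1) → ℤ} {n : ℤ}
    (h : Tr φ (FundamentalGroup.toPath α) (pt 0 0) (pt v 0) (n : ℂ)) :
    vT α = v ∧ rT α φ = n := by
  obtain ⟨h1, h2⟩ := Tr.unique hφ (rT_spec α hφ) h
  exact ⟨pt_inj h1, by exact_mod_cast h2⟩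

lemma tr_mul (α β : FundamentalGroup (XX m) (x₀ m)) {φ : Finset (Fin m) → ℤ → ℤ}
    (hφ : φ ∈ Adm m) : vT (α * β) = vT α + vT β ∧
      rT (α * β) φ = rT β φ + rT α (shiftA (vT β) φ) := by
  have h1 := rT_spec β hφ
  have h2 := (rT_spec α (shiftA_mem hφ (vT β))).shift
  rw [pt_add, pt_add, add_zero] at h2
  have h3 := h1.trans h2
  have h4 := rT_unique (α := α * β) hφ (v := vT β + vT α)
    (n := rT β φ + rT α (shiftA (vT β) φ)) (by
      push_cast
      exact h3)
  exact ⟨h4.1.trans (add_comm _ _), h4.2⟩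

lemma tr_add (α : FundamentalGroup (XX m) (x₀ m)) {φ ψ : Finset (Fin m) → ℤ → ℤ}
    (hφ : φ ∈ Adm m) (hψ : ψ ∈ Adm m) : rT α (φ + ψ) = rT α φ + rT α ψ := by
  have h1 := Tr.add hψ (rT_spec α hφ) (rT_spec α hψ)
  exact (rT_unique (v := vT α) (n := rT α φ + rT α ψ) ((Adm m).add_mem hφ hψ) (by
    push_cast; exact h1)).2

/-! ### Evaluation on the translation elements -/

lemma continuousAt_mul_rd {A : Type*} [TopologicalSpace A] (n : ℤ → ℤ) {u : A → ℝ}
    {f : A → ℝ} {a : A} (hu : ContinuousAt u a) (hf : ContinuousAt f a)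
    (h : u a + 1 / 2 = rd (u a) → f a = 0) :
    ContinuousAt (fun b => (n (rd (u b)) : ℝ) * f b) a := by
  by_cases hc : u a + 1 / 2 = rd (u a)
  · have h1 := h hc
    change Tendsto (fun b => (n (rd (u b)) : ℝ) * f b) (𝓝 a) (𝓝 ((n (rd (u a)) : ℝ) * f a))
    rw [h1, mul_zero]
    have hpow : ∀ k : ℝ, Tendsto (fun b => k * f b) (𝓝 a) (𝓝 0) := by
      intro k
      have : ContinuousAt (fun b => k * f b) a := continuousAt_const.mul hf
      have h2 := this.tendsto
      rwa [h1, mul_zero] at h2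
    apply tendsto_two (g := fun b => (n (rd (u a)) : ℝ) * f b)
      (h := fun b => (n (rd (u a) - 1) : ℝ) * f b) _ (hpow _) (hpow _)
    filter_upwards [hu.eventually (eventually_rd_or (u a))] with b hb
    rcases hb with hb | hb <;> simp [hb]
  · have : ContinuousAt (fun b => (n (rd (u a)) : ℝ) * f b) a := continuousAt_const.mul hf
    apply this.congr
    filter_upwards [hu.eventually (eventually_rd_eq hc)] with b hb
    rw [hb]

/-- the piecewise linear antidifference -/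
noncomputable def PLf (n : ℤ → ℤ) (x : ℝ) : ℝ :=
  anti n (rd x - 1) + n (rd x) * (x - rd x + 1 / 2)

lemma continuous_PLf (n : ℤ → ℤ) : Continuous (PLf n) := by
  rw [continuous_iff_continuousAt]
  intro x
  have hlin : ∀ k : ℤ, ContinuousAt (fun y : ℝ => (anti n (k - 1) : ℝ) + n k * (y - k + 1 / 2)) x :=
    fun k => by fun_prop
  by_cases hc : x + 1 / 2 = rd x
  · change Tendsto (PLf n) (𝓝 x) (𝓝 (PLf n x))
    have h1 := (hlin (rd x)).tendsto
    have h2 := (hlin (rd x - 1)).tendsto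
    have hval : (anti n (rd x - 1 - 1) : ℝ) + n (rd x - 1) * (x - (rd x - 1 : ℤ) + 1 / 2)
        = PLf n x := by
      unfold PLf
      have h3 := anti_succ n (rd x - 1 - 1)
      rw [show rd x - 1 - 1 + 1 = rd x - 1 by ring] at h3
      rw [h3]
      push_cast
      have h4 : x = (rd x : ℝ) - 1 / 2 := by linarith
      have h5 : x - (rd x : ℝ) + 1 / 2 = 0 := by linarith
      have h6 : x - ((rd x : ℝ) - 1) + 1 / 2 = 1 := by linarith
      rw [h5, h6]
      ring
    rw [hval] at h2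
    refine tendsto_two ?_ h1 h2
    filter_upwards [eventually_rd_or x] with y hy
    rcases hy with hy | hy
    · left; unfold PLf; rw [hy]
    · right; unfold PLf; rw [hy]
  · apply (hlin (rd x)).congr
    filter_upwards [eventually_rd_eq hc] with y hy
    unfold PLf; rw [hy]

/-- the argument function in the closed upper half plane -/
noncomputable def Ap (n : ℤ → ℤ) (ζ : ℂ) : ℝ := n (rd ζ.re) * (arg (1 - E2 ζ) / (2 * Real.pi))

/-- the argument function in the closed lower half plane -/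
noncomputable def Am (n : ℤ → ℤ) (ζ : ℂ) : ℝ :=
  PLf n ζ.re + n (rd ζ.re) * (arg (1 - E2 (-ζ)) / (2 * Real.pi))

lemma norm_E2 (ζ : ℂ) : ‖E2 ζ‖ = Real.exp (-(2 * Real.pi * ζ.im)) := by
  unfold E2
  rw [norm_exp]
  congr 1
  simp

lemma re_E2_lt {ζ : ℂ} (h : 0 ≤ ζ.im) (h' : ∀ k : ℤ, ζ ≠ k) : (E2 ζ).re < 1 := by
  have h1 : ‖E2 ζ‖ ≤ 1 := by
    rw [norm_E2, Real.exp_le_one_iff]
    have := Real.pi_pos
    have : 0 ≤ 2 * Real.pi * ζ.im := by positivity
    linarith
  have h2 : (E2 ζ).re ≤ 1 := (Complex.re_le_norm _).trans h1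
  refine lt_of_le_of_ne h2 ?_
  intro h3
  have h4 : (E2 ζ).im = 0 := by
    have h5 := Complex.sq_norm (E2 ζ)
    rw [Complex.normSq_apply, h3] at h5
    have h6 : ‖E2 ζ‖ ^ 2 ≤ 1 := by nlinarith [norm_nonneg (E2 ζ)]
    nlinarith [mul_self_nonneg (E2 ζ).im]
  have h5 : E2 ζ = 1 := Complex.ext (by simpa using h3) (by simpa using h4)
  obtain ⟨k, hk⟩ := E2_eq_one_iff.mp h5
  exact h' k hk

lemma slit_one_sub {ζ : ℂ} (h : 0 ≤ ζ.im) (h' : ∀ k : ℤ, ζ ≠ k) : 1 - E2 ζ ∈ slitPlane := by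
  left
  have := re_E2_lt h h'
  simp only [sub_re, one_re]
  linarith

lemma neg_ne_int {ζ : ℂ} (h' : ∀ k : ℤ, ζ ≠ k) : ∀ k : ℤ, -ζ ≠ k := by
  intro k hk
  apply h' (-k)
  push_cast
  rw [← hk]; ring

lemma continuous_Ap {A : Type*} [TopologicalSpace A] (n : ℤ → ℤ) {ζ : A → ℂ} (hζ : Continuous ζ)
    (h : ∀ a, 0 ≤ (ζ a).im) (h' : ∀ a, ∀ k : ℤ, ζ a ≠ k) : Continuous (fun a => Ap n (ζ a)) := by
  rw [continuous_iff_continuousAt]
  intro a
  unfold Ap
  apply continuousAt_mul_rd n (u := fun a => (ζ a).re)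
    (f := fun a => arg (1 - E2 (ζ a)) / (2 * Real.pi))
  · exact (continuous_re.comp hζ).continuousAt
  · apply ContinuousAt.div_const
    refine ContinuousAt.comp (g := arg) (f := fun a => 1 - E2 (ζ a))
      (continuousAt_arg (slit_one_sub (h a) (h' a))) ?_
    have := continuous_E2
    exact Continuous.continuousAt (by fun_prop)
  · intro hh
    rw [arg_one_sub_half hh, zero_div]

lemma continuous_Am {A : Type*} [TopologicalSpace A] (n : ℤ → ℤ) {ζ : A → ℂ} (hζ : Continuous ζ)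
    (h : ∀ a, (ζ a).im ≤ 0) (h' : ∀ a, ∀ k : ℤ, ζ a ≠ k) : Continuous (fun a => Am n (ζ a)) := by
  rw [continuous_iff_continuousAt]
  intro a
  unfold Am
  apply ContinuousAt.add
  · exact ((continuous_PLf n).comp (continuous_re.comp hζ)).continuousAt
  apply continuousAt_mul_rd n (u := fun a => (ζ a).re)
    (f := fun a => arg (1 - E2 (-ζ a)) / (2 * Real.pi))
  · exact (continuous_re.comp hζ).continuousAt
  · apply ContinuousAt.div_const
    refine ContinuousAt.comp (g := arg) (f := fun a => 1 - E2 (-ζ a))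
      (continuousAt_arg (slit_one_sub (by simpa using h a) (neg_ne_int (h' a)))) ?_
    have := continuous_E2
    exact Continuous.continuousAt (by fun_prop)
  · intro hh
    have : (-ζ a).re + 1 / 2 = ((1 - rd (ζ a).re : ℤ) : ℝ) := by
      push_cast
      rw [← hh]
      simp
      ring
    rw [arg_one_sub_half this, zero_div]

lemma E2_real_mul (n : ℤ) (a : ℝ) :
    E2 (((n : ℝ) * (a / (2 * Real.pi)) : ℝ) : ℂ) = ((Circle.exp a ^ n : Circle) : ℂ) := by
  rw [Circle.coe_zpow, Circle.coe_exp, ← exp_int_mul]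
  unfold E2
  congr 1
  push_cast
  have : (Real.pi : ℂ) ≠ 0 := by exact_mod_cast Real.pi_ne_zero
  field_simp

lemma E2_Ap (n : ℤ → ℤ) (ζ : ℂ) : E2 (Ap n ζ : ℂ) = (theta n ζ : ℂ) := by
  unfold Ap theta ph
  rw [E2_real_mul]

lemma ph_E2 (z : ℂ) : ph (E2 z) = Circle.exp (2 * Real.pi * z.re) := by
  apply Circle.ext
  rw [ph_coe' (E2_ne_zero z), norm_E2, Circle.coe_exp, E2, ofReal_exp, ← exp_sub]
  congr 1
  push_cast
  linear_combination (2 * Real.pi * I) * (re_add_im z).symm + (2 * Real.pi * z.im : ℂ) * I_sq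

lemma E2_Am (n : ℤ → ℤ) {ζ : ℂ} (h' : ∀ k : ℤ, ζ ≠ k) : E2 (Am n ζ : ℂ) = (theta n ζ : ℂ) := by
  have hne : 1 - E2 (-ζ) ≠ 0 := by
    intro h0
    obtain ⟨k, hk⟩ := E2_eq_one_iff.mp (sub_eq_zero.mp h0).symm
    exact neg_ne_int h' k hk
  have hhalf : E2 (1 / 2) = -1 := by
    have : ((1 / 2 : ℂ)).re + 1 / 2 = ((1 : ℤ) : ℝ) := by norm_num
    rw [E2_re_half this]
    simp
  have hfac : 1 - E2 ζ = E2 (ζ + 1 / 2) * (1 - E2 (-ζ)) := by
    have h1 : E2 ζ * E2 (-ζ) = 1 := by rw [← E2_add, add_neg_cancel, E2_zero]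
    rw [E2_add, hhalf]
    linear_combination -h1
  have h1 : theta n ζ = (Circle.exp (2 * Real.pi * (ζ.re + 1 / 2)) * ph (1 - E2 (-ζ)))
      ^ n (rd ζ.re) := by
    unfold theta
    rw [hfac, ph_mul (E2_ne_zero _) hne, ph_E2]
    congr 4
    simp
  rw [h1, mul_zpow, Circle.coe_mul]
  unfold Am
  rw [ofReal_add, E2_add]
  congr 1
  · unfold PLf
    rw [ofReal_add, ofReal_intCast, E2_add, E2_int, one_mul]
    have e1 : (((n (rd ζ.re) : ℝ) * (ζ.re - (rd ζ.re : ℝ) + 1 / 2) : ℝ) : ℂ)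
        = (((n (rd ζ.re) : ℝ) * ((2 * Real.pi * (ζ.re + 1 / 2)) / (2 * Real.pi)) : ℝ) : ℂ)
          + ((-(n (rd ζ.re) * rd ζ.re) : ℤ) : ℂ) := by
      have : (Real.pi : ℂ) ≠ 0 := by exact_mod_cast Real.pi_ne_zero
      push_cast
      field_simp
      ring
    rw [e1, E2_add, E2_int, mul_one, E2_real_mul]
  · exact E2_real_mul (n (rd ζ.re)) (arg (1 - E2 (-ζ)))

lemma Ap_half (n : ℤ → ℤ) (k : ℤ) : Ap n (1 / 2 + k) = 0 := by
  have : ((1 / 2 + k : ℂ)).re + 1 / 2 = ((k + 1 : ℤ) : ℝ) := by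
    push_cast
    simp
    ring
  unfold Ap
  rw [arg_one_sub_half this]
  ring

lemma Am_half (n : ℤ → ℤ) (k : ℤ) : Am n (1 / 2 + k) = anti n k := by
  have h1 : (-(1 / 2 + k : ℂ)).re + 1 / 2 = ((-k : ℤ) : ℝ) := by
    push_cast
    simp
  have h2 : ((1 / 2 + k : ℂ)).re = 1 / 2 + (k : ℝ) := by simp
  unfold Am PLf
  rw [arg_one_sub_half h1, h2, rd_half]
  push_cast
  rw [show (k + 1 - 1 : ℤ) = k by ring]
  ring

lemma tr_tt {b : Fin (m + 1) → ℝ} (hb : Gen b) (v : Fin (m + 1) → ℤ)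
    {φ : Finset (Fin m) → ℤ → ℤ} (hφ : φ ∈ Adm m) :
    Tr φ (FundamentalGroup.toPath (tt b v)) (pt 0 0) (pt v 0)
      ((∑ ε ∈ Finset.univ.filter (fun ε => lam ε b < 0), anti (φ ε) (lam ε v) : ℤ) : ℂ) := by
  obtain ⟨p, hp, q, hq, hpq⟩ := rep_tt hb v
  have hU : ∀ t, q t ∈ U0 m := fun t => Cbar_subset_U0 (hq t)
  have hL : ∀ t, Lft (p t).1 (q t) := fun t => by rw [hpq t]; exact lft_PiW (hU t)
  have h0 : ∀ t, (p t).1 0 ≠ 0 := by
    intro t
    rw [hpq t, PiW_zero]
    exact E2_zero_ne_one (hU t)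
  have hlam : ∀ ε : Finset (Fin m), Continuous (fun t => lam ε (q t)) :=
    fun ε => (continuous_lam ε).comp q.continuous
  let G : unitInterval → ℂ := fun t => ∑ ε : Finset (Fin m),
    ((if 0 < lam ε b then Ap (φ ε) (lam ε (q t)) else Am (φ ε) (lam ε (q t)) : ℝ) : ℂ)
  have hGc : Continuous G := by
    apply continuous_finsetSum
    intro ε _
    apply continuous_ofReal.comp
    by_cases hε : 0 < lam ε b
    · simp only [hε, if_true]
      apply continuous_Ap _ (hlam ε)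
      · intro t
        have := (mem_Cbar.mp (hq t) ε).1
        exact nonneg_of_mul_nonneg_right this hε
      · exact fun t k => hU t ε k
    · simp only [hε, if_false]
      have hneg : lam ε b < 0 := lt_of_le_of_ne (not_lt.mp hε) (hb ε)
      apply continuous_Am _ (hlam ε)
      · intro t
        have := (mem_Cbar.mp (hq t) ε).1
        by_contra hcon
        push Not at hcon
        have := mul_neg_of_neg_of_pos hneg hcon
        linarith
      · exact fun t k => hU t ε k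
  have hG : ∀ t, E2 (G t) = (TH φ (p t).1 (q t) : ℂ) := by
    intro t
    rw [TH_eq φ (p t).2 (h0 t) (hL t)]
    change E2 (∑ ε : Finset (Fin m), _) = _
    rw [E2_sum, coe_prod_circle]
    apply Finset.prod_congr rfl
    intro ε _
    split_ifs
    · exact E2_Ap _ _
    · exact E2_Am _ (fun k => hU t ε k)
  have hlampt : ∀ (ε : Finset (Fin m)) (u : Fin (m + 1) → ℤ),
      lam ε (pt u 0 : Fin (m + 1) → ℂ) = 1 / 2 + ((lam ε u : ℤ) : ℂ) := by
    intro ε u
    rw [lam_pt, lam_zero]; simp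
  refine ⟨p, hp, q, hL, G 0, G 1, ⟨⟨G, hGc⟩, rfl, rfl⟩, hG, ?_⟩
  have hG0 : G 0 = 0 := by
    apply Finset.sum_eq_zero
    intro ε _
    rw [q.source, hlampt, lam_zero]
    have h1 := Ap_half (φ ε) 0
    have h2 := Am_half (φ ε) 0
    rw [anti_zero] at h2
    rw [h1, h2]
    simp
  have hG1 : G 1 = ((∑ ε ∈ Finset.univ.filter (fun ε => lam ε b < 0),
      anti (φ ε) (lam ε v) : ℤ) : ℂ) := by
    rw [Finset.sum_filter]
    push_cast
    apply Finset.sum_congr rfl
    intro ε _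
    rw [q.target, hlampt, Ap_half, Am_half]
    by_cases hε : 0 < lam ε b
    · simp [hε, not_lt.mpr hε.le]
    · have hneg : lam ε b < 0 := lt_of_le_of_ne (not_lt.mp hε) (hb ε)
      simp [hε, hneg]
  rw [hG0, hG1, sub_zero]

/-- The presentation data of the fundamental group of `XX m`. -/
noncomputable def presXX : Pres m (FundamentalGroup (XX m) (x₀ m)) where
  t := tt
  t_add _ hb v v' := tt_add hb v v'
  t_wall _ _ hb hb' v h := tt_wall hb hb' v h
  t_four := tt_four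
  gen := HG_eq_top
  vv := vT
  vv_mul α β := (tr_mul α β (Adm m).zero_mem).1
  vv_t _ v hb := by
    have := (rT_unique (α := tt _ v) (φ := 0) (Adm m).zero_mem
      (tr_tt hb v (Adm m).zero_mem)).1
    exact this
  r := rT
  r_add α φ hφ ψ hψ := tr_add α hφ hψ
  r_mul α β φ hφ := (tr_mul α β hφ).2
  r_t b v hb φ hφ := (rT_unique hφ (tr_tt hb v hφ)).2

end Pool.Agent.Q71.NC
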